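import Pool.Agent.Work.MP_50269c_nt.Defs

/-!
# Disj (size M): linear disjointness of `K` and `Lb` over `L`

PROOF. `L` is algebraically closed in `K` and has characteristic 0, `Lb` is algebraic over `L`. It is enough to
treat finite subfamilies, so let `∑ c_k e_k = 0` in `Kb` with `k` in a finite set and `c_k ∈ Lb`, not all
`0`. The `c_k` lie in a finite extension of `L` inside `Lb`, which is `L(θ)` by the theorem of the
primitive element (`Field.exists_primitive_element`, or `IntermediateField` version); let `r = [L(θ):L]` and
`c_k = ∑_{i<r} c_ki θ^i` with `c_ki ∈ L`. CLAIM: `1, θ, ..., θ^(r-1)` are linearly independent over `K` in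
`Kb`. Then `∑_i θ^i (∑_k c_ki e_k) = 0` gives `∑_k c_ki e_k = 0` for all `i`, so `c_ki = 0` as the `e_k` are
independent over `L`, contradiction.
CLAIM: the minimal polynomial `μ_K` of the image of `θ` over `K` divides the image of `μ_L = minpoly L θ`, so
its coefficients are integral over `L` (`Polynomial.isIntegral_coeff_of_dvd`), hence algebraic over `L`,
hence in `L` by `hgeo`; so `μ_K` comes from a monic polynomial over `L` with the root `θ` (the map
`Lb → Kb` is injective), its degree is `≥ r`. A relation of degree `< r` over `K` is impossible.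
(Alternative: Mathlib has linear disjointness results for algebraic separable extensions; any proof is fine.)
-/

set_option autoImplicit false

noncomputable section

namespace Pool.Agent.Work.MP_50269c_nt

open NumberField IsDedekindDomain Polynomial

variable {L : Type} [Field L] [NumberField L] {Lb : Type} [Field Lb] [Algebra L Lb]
  [IsAlgClosure L Lb] {A : Type} [CommRing A] [IsDedekindDomain A] [Algebra L A] {K : Type}
  [Field K] [Algebra A K] [IsFractionRing A K] [Algebra L K] [IsScalarTower L A K] {Kb : Type}
  [Field Kb] [Algebra K Kb] [Algebra Lb Kb] [Algebra L Kb] [IsScalarTower L K Kb]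
  [IsScalarTower L Lb Kb]

omit [NumberField L] in
private theorem disj_deg (hgeo : ∀ z : K, IsAlgebraic L z → z ∈ Set.range (algebraMap L K))
    (θ : Lb) : (minpoly L θ).natDegree ≤ (minpoly K (algebraMap Lb Kb θ)).natDegree := by
  have halg : Algebra.IsAlgebraic L Lb := (inferInstance : IsAlgClosure L Lb).isAlgebraic
  have hθ : IsIntegral L θ := (halg.isAlgebraic θ).isIntegral
  set x := algebraMap Lb Kb θ with hx
  have hxL : IsIntegral L x := hθ.map (IsScalarTower.toAlgHom L Lb Kb)
  have hxK : IsIntegral K x := hxL.tower_top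
  have h0 : aeval x ((minpoly L θ).map (algebraMap L K)) = 0 := by
    rw [aeval_map_algebraMap, hx, aeval_algebraMap_apply, minpoly.aeval, map_zero]
  have hdvd : minpoly K x ∣ (minpoly L θ).map (algebraMap L K) := minpoly.dvd K x h0
  have hint : ∀ n, IsIntegral L ((minpoly K x).coeff n) := fun n =>
    isIntegral_coeff_of_dvd _ _ (minpoly.monic hθ) (minpoly.monic hxK) hdvd n
  have hlift : minpoly K x ∈ lifts (algebraMap L K) := by
    rw [lifts_iff_coeff_lifts]
    intro n
    exact hgeo _ (hint n).isAlgebraic
  obtain ⟨q, hq, hdeg, hmon⟩ := lifts_and_natDegree_eq_and_monic hlift (minpoly.monic hxK)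
  have hq0 : aeval θ q = 0 := by
    apply (algebraMap Lb Kb).injective
    rw [map_zero, ← aeval_algebraMap_apply, ← hx, ← aeval_map_algebraMap K x q, hq, minpoly.aeval]
  rw [← hdeg]
  exact natDegree_le_of_dvd (minpoly.dvd L θ hq0) hmon.ne_zero

theorem disj (hgeo : ∀ z : K, IsAlgebraic L z → z ∈ Set.range (algebraMap L K)) {ι : Type}
    {e : ι → K} (he : LinearIndependent L e) :
    LinearIndependent Lb (fun i => algebraMap K Kb (e i)) := by
  classical
  have halg : Algebra.IsAlgebraic L Lb := (inferInstance : IsAlgClosure L Lb).isAlgebraic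
  rw [linearIndependent_iff']
  intro s g hg
  set F : IntermediateField L Lb := IntermediateField.adjoin L ((s.image g : Finset Lb) : Set Lb)
    with hF
  have hfin : FiniteDimensional L F := by
    rw [hF]
    exact IntermediateField.finiteDimensional_adjoin
      (fun y _ => (halg.isAlgebraic y).isIntegral)
  have hmem : ∀ k ∈ s, g k ∈ F := fun k hk =>
    IntermediateField.subset_adjoin L _ (by
      simp only [Finset.coe_image]
      exact Set.mem_image_of_mem g hk)
  have hchar : CharZero L := inferInstance
  have hsep : Algebra.IsSeparable L F := inferInstance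
  set pb : PowerBasis L F := Field.powerBasisOfFiniteOfSeparable L F with hpb
  set θ : Lb := (pb.gen : Lb) with hθ
  set x : Kb := algebraMap Lb Kb θ with hx
  have hdim : pb.dim ≤ (minpoly K x).natDegree := by
    have h1 := disj_deg (Kb := Kb) hgeo θ
    have h2 : minpoly L θ = minpoly L pb.gen :=
      minpoly.algebraMap_eq (A := L) (B := F) (B' := Lb) (algebraMap F Lb).injective pb.gen
    rw [h2, pb.natDegree_minpoly] at h1
    exact h1
  have hli : LinearIndependent K (fun i : Fin pb.dim => x ^ (i : ℕ)) :=
    (linearIndependent_pow (K := K) x).comp (Fin.castLE hdim) (Fin.castLE_injective hdim)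
  set c : ι → Fin pb.dim → L := fun k i =>
    if h : k ∈ s then pb.basis.repr ⟨g k, hmem k h⟩ i else 0 with hc
  have hgc : ∀ k ∈ s, g k = ∑ i, algebraMap L Lb (c k i) * θ ^ (i : ℕ) := by
    intro k hk
    have h1 := pb.basis.sum_repr ⟨g k, hmem k hk⟩
    have h2 := congrArg (algebraMap F Lb) h1
    rw [map_sum] at h2
    have h3 : algebraMap F Lb ⟨g k, hmem k hk⟩ = g k := rfl
    rw [h3] at h2
    rw [← h2]
    refine Finset.sum_congr rfl fun i _ => ?_
    rw [pb.basis_eq_pow, Algebra.smul_def, map_mul, map_pow]
    simp only [hc, dif_pos hk]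
    rfl
  have hrel : ∑ i, (∑ k ∈ s, c k i • e k) • x ^ (i : ℕ) = 0 := by
    rw [← hg]
    have h1 : ∀ k ∈ s, g k • algebraMap K Kb (e k) =
        ∑ i, algebraMap K Kb (c k i • e k) * x ^ (i : ℕ) := by
      intro k hk
      rw [Algebra.smul_def, hgc k hk, map_sum, Finset.sum_mul]
      refine Finset.sum_congr rfl fun i _ => ?_
      rw [map_mul, map_pow, ← hx, Algebra.smul_def, map_mul, ← IsScalarTower.algebraMap_apply L Lb Kb,
        ← IsScalarTower.algebraMap_apply L K Kb]
      ring
    rw [Finset.sum_congr rfl h1, Finset.sum_comm]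
    refine Finset.sum_congr rfl fun i _ => ?_
    rw [Algebra.smul_def, map_sum, Finset.sum_mul]
  have hz := Fintype.linearIndependent_iff.mp hli (fun i => ∑ k ∈ s, c k i • e k) hrel
  intro k hk
  rw [hgc k hk]
  refine Finset.sum_eq_zero fun i _ => ?_
  have h1 := linearIndependent_iff'.mp he s (fun k => c k i) (hz i) k hk
  rw [h1, map_zero, zero_mul]

end Pool.Agent.Work.MP_50269c_nt
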