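import Pool.Agent.Work.MP_50269c_nt.Defs
import Pool.Agent.Work.MP_50269c_nt.Disj

/-!
# KBas (size M): `Kb` over the polynomials in `τ`

Write `τ = emb A K Kb t`. PROOFS.
`kbas_repr`: the set of the sums on the right hand side is an `Lb`-subspace of `Kb` which contains `emb a` for every
`a : A` (by `hb`, the coefficients mapped to `Lb[X]`). `Ab` is the `Lb`-span of `emb '' A` because
`emb '' A` is closed under multiplication (`Algebra.adjoin_eq_span` of a submonoid; or
`Algebra.adjoin_induction` showing that every element of `Ab` is a finite sum `∑ c_k emb a_k`).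
`kbas_ind`: by `hb` the elements `t^s b_i` (`s : ℕ`, `i : Fin N`) of `A` are linearly independent over `L`
(a finite relation is `∑ aeval t (c i) * b i = 0` with `c i` the polynomials of the coefficients), so also
in `K`, so by `disj` their images in `Kb` are independent over `Lb`; the relation `h` reads
`∑_{i,s} (c i).coeff s * τ^s * emb (b i) = 0`.
`t_transc`: `N ≥ 1` as `A` is nontrivial; if `p(τ) = 0`, take `c i = p` for one `i` and `0` for the others in
`kbas_ind`.
`kb_frac`: call `F` the set of all `y / q(τ)`, `y ∈ Ab`, `q(τ) ≠ 0`. It is closed under addition,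
multiplication, negation, contains `Lb`. It is closed under inversion: every `y ∈ Ab`, `y ≠ 0`, is
algebraic over `Lb(τ)` and even integral over `Lb[τ]` (generated by the `emb a`, integral because
`A` is a finite module over `L[t]`), take a relation `y^s + c_{s-1}(τ) y^(s-1) + ... + c_0(τ) = 0` of minimal
degree `s ≥ 1`, then `c_0(τ) ≠ 0` and `1/y = -(y^(s-1) + ... + c_1(τ))/c_0(τ)`. It contains the image of
`A` so also the image of `K` (fractions of `A`). So it is a subfield containing `Lb` and the image of `K`, so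
everything by `hKb`.
-/

set_option autoImplicit false

noncomputable section

namespace Pool.Agent.Work.MP_50269c_nt

open NumberField IsDedekindDomain Polynomial

variable {L : Type} [Field L] [NumberField L] {Lb : Type} [Field Lb] [Algebra L Lb]
  [IsAlgClosure L Lb] {A : Type} [CommRing A] [IsDedekindDomain A] [Algebra L A] {K : Type}
  [Field K] [Algebra A K] [IsFractionRing A K] [Algebra L K] [IsScalarTower L A K] {Kb : Type}
  [Field Kb] [Algebra K Kb] [Algebra Lb Kb] [Algebra L Kb] [IsScalarTower L K Kb]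
  [IsScalarTower L Lb Kb]

variable {t : A} {N : ℕ} {b : Fin N → A}

private theorem emb_aeval (t : A) (p : L[X]) :
    emb A K Kb (aeval t p) = aeval (emb A K Kb t) (p.map (algebraMap L Lb)) := by
  rw [aeval_map_algebraMap]
  change algebraMap K Kb (algebraMap A K (aeval t p)) =
    aeval (algebraMap K Kb (algebraMap A K t)) p
  rw [aeval_algebraMap_apply, aeval_algebraMap_apply]

private theorem emb_mem (a : A) : emb A K Kb a ∈ Ab A K Lb Kb :=
  Algebra.subset_adjoin ⟨a, rfl⟩

private theorem aeval_mem (t : A) (p : Lb[X]) : aeval (emb A K Kb t) p ∈ Ab A K Lb Kb := by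
  rw [aeval_eq_sum_range]
  exact sum_mem fun i _ => Subalgebra.smul_mem _ (pow_mem (emb_mem t) i) _

/-- the sums, as a subspace -/
private def sumsB (Lb : Type) [Field Lb] (Kb : Type) [Field Kb] [Algebra Lb Kb] {N : ℕ} (τ : Kb)
    (β : Fin N → Kb) : (Fin N → Lb[X]) →ₗ[Lb] Kb where
  toFun c := ∑ i, aeval τ (c i) * β i
  map_add' := by
    intro c c'
    rw [← Finset.sum_add_distrib]
    refine Finset.sum_congr rfl fun i _ => ?_
    rw [Pi.add_apply, map_add, add_mul]
  map_smul' := by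
    intro r c
    rw [RingHom.id_apply, Finset.smul_sum]
    refine Finset.sum_congr rfl fun i _ => ?_
    rw [Pi.smul_apply, map_smul, smul_mul_assoc]

theorem kbas_repr (hb : Bas L t b) {z : Kb} (hz : z ∈ Ab A K Lb Kb) :
    ∃ c : Fin N → Lb[X], z = ∑ i, aeval (emb A K Kb t) (c i) * emb A K Kb (b i) := by
  have h1 : z ∈ Submodule.span Lb (Set.range (emb A K Kb)) := by
    have h2 : z ∈ Subalgebra.toSubmodule (Ab A K Lb Kb) := hz
    rw [Ab, Algebra.adjoin_eq_span] at h2
    have h3 : (Submonoid.closure (Set.range (emb A K Kb)) : Set Kb) = Set.range (emb A K Kb) := by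
      have h4 := Submonoid.closure_eq (MonoidHom.mrange (emb A K Kb : A →* Kb))
      rw [MonoidHom.coe_mrange] at h4
      change ((Submonoid.closure (Set.range ⇑(emb A K Kb : A →* Kb)) : Submonoid Kb) : Set Kb) = _
      rw [h4, MonoidHom.coe_mrange]
      rfl
    rw [h3] at h2
    exact h2
  have h5 : Submodule.span Lb (Set.range (emb A K Kb)) ≤
      LinearMap.range (sumsB Lb Kb (emb A K Kb t) (fun i => emb A K Kb (b i))) := by
    rw [Submodule.span_le]
    rintro _ ⟨a, rfl⟩
    obtain ⟨c, hc, _⟩ := hb a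
    refine ⟨fun i => (c i).map (algebraMap L Lb), ?_⟩
    change ∑ i, aeval (emb A K Kb t) ((c i).map (algebraMap L Lb)) * emb A K Kb (b i) = _
    conv_rhs => rw [hc]
    rw [map_sum]
    refine Finset.sum_congr rfl fun i _ => ?_
    rw [map_mul, emb_aeval (Lb := Lb)]
  obtain ⟨c, hc⟩ := h5 h1
  exact ⟨c, hc.symm⟩

private theorem ind_A (hb : Bas L t b) :
    LinearIndependent L (fun p : Σ _ : Fin N, ℕ => t ^ p.2 * b p.1) := by
  let Φ : (Fin N → L[X]) →ₗ[L] A :=
    { toFun := fun c => ∑ i, aeval t (c i) * b i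
      map_add' := by
        intro c c'
        rw [← Finset.sum_add_distrib]
        refine Finset.sum_congr rfl fun i _ => ?_
        rw [Pi.add_apply, map_add, add_mul]
      map_smul' := by
        intro r c
        rw [RingHom.id_apply, Finset.smul_sum]
        refine Finset.sum_congr rfl fun i _ => ?_
        rw [Pi.smul_apply, map_smul, smul_mul_assoc] }
  have hker : LinearMap.ker Φ = ⊥ := by
    rw [LinearMap.ker_eq_bot']
    intro c hc
    obtain ⟨c0, _, hu⟩ := hb 0
    have h1 : c = c0 := hu c hc.symm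
    have h2 : (0 : Fin N → L[X]) = c0 := hu 0 (by simp)
    rw [h1, ← h2]
  have h3 := (Pi.basis (fun _ : Fin N => Polynomial.basisMonomials L)).linearIndependent.map' Φ hker
  suffices h4 : (fun p : Σ _ : Fin N, ℕ => t ^ p.2 * b p.1) =
      ⇑Φ ∘ ⇑(Pi.basis (fun _ : Fin N => Polynomial.basisMonomials L)) by
    rw [h4]
    exact h3
  funext p
  obtain ⟨i, s⟩ := p
  change t ^ s * b i = Φ ((Pi.basis (fun _ : Fin N => Polynomial.basisMonomials L)) ⟨i, s⟩)
  rw [Pi.basis_apply]
  change _ = ∑ k, aeval t ((Pi.single i ((Polynomial.basisMonomials L) s) : Fin N → L[X]) k) * b k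
  rw [Finset.sum_eq_single i]
  · rw [Pi.single_eq_same, Polynomial.coe_basisMonomials, aeval_monomial, map_one, one_mul]
  · intro k _ hk
    rw [Pi.single_eq_of_ne hk, map_zero, zero_mul]
  · intro h
    exact absurd (Finset.mem_univ i) h

private theorem ind_K (hb : Bas L t b) :
    LinearIndependent L (fun p : Σ _ : Fin N, ℕ => algebraMap A K (t ^ p.2 * b p.1)) := by
  let Φ : A →ₗ[L] K := (IsScalarTower.toAlgHom L A K).toLinearMap
  have hker : LinearMap.ker Φ = ⊥ := by
    rw [LinearMap.ker_eq_bot]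
    exact IsFractionRing.injective A K
  exact (ind_A hb).map' Φ hker

theorem kbas_ind (hgeo : ∀ z : K, IsAlgebraic L z → z ∈ Set.range (algebraMap L K))
    (hb : Bas L t b) {c : Fin N → Lb[X]}
    (h : ∑ i, aeval (emb A K Kb t) (c i) * emb A K Kb (b i) = 0) : c = 0 := by
  have h1 : LinearIndependent Lb
      (fun p : Σ _ : Fin N, ℕ => algebraMap K Kb (algebraMap A K (t ^ p.2 * b p.1))) :=
    disj (Lb := Lb) (Kb := Kb) hgeo (ind_K (K := K) hb)
  let B := Pi.basis (fun _ : Fin N => Polynomial.basisMonomials Lb)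
  let Ψ := sumsB Lb Kb (emb A K Kb t) (fun i => emb A K Kb (b i))
  have h2 : (fun p : Σ _ : Fin N, ℕ => algebraMap K Kb (algebraMap A K (t ^ p.2 * b p.1))) =
      fun p => Ψ (B p) := by
    funext p
    obtain ⟨i, s⟩ := p
    change emb A K Kb (t ^ s * b i) = Ψ ((Pi.basis (fun _ : Fin N => Polynomial.basisMonomials Lb)) ⟨i, s⟩)
    rw [Pi.basis_apply]
    change _ = ∑ k, aeval (emb A K Kb t)
      ((Pi.single i ((Polynomial.basisMonomials Lb) s) : Fin N → Lb[X]) k) * emb A K Kb (b k)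
    rw [Finset.sum_eq_single i]
    · rw [Pi.single_eq_same, Polynomial.coe_basisMonomials, aeval_monomial, map_one, one_mul,
        map_mul, map_pow]
    · intro k _ hk
      rw [Pi.single_eq_of_ne hk, map_zero, zero_mul]
    · intro h
      exact absurd (Finset.mem_univ i) h
  rw [h2, linearIndependent_iff] at h1
  have h3 : B.repr c = 0 := by
    apply h1
    have h4 : Ψ (Finsupp.linearCombination Lb B (B.repr c)) = 0 := by
      rw [Module.Basis.linearCombination_repr]
      exact h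
    rw [Finsupp.linearCombination_apply, map_finsuppSum] at h4
    rw [Finsupp.linearCombination_apply]
    simpa only [map_smul] using h4
  exact (LinearEquiv.map_eq_zero_iff _).1 h3

theorem t_transc (hgeo : ∀ z : K, IsAlgebraic L z → z ∈ Set.range (algebraMap L K))
    (hb : Bas L t b) : Transcendental Lb (emb A K Kb t) := by
  rintro ⟨p, hp, hp0⟩
  have hN : ∃ i : Fin N, True := by
    by_contra hno
    push Not at hno
    obtain ⟨c, hc, _⟩ := hb 1
    have : ∑ i, aeval t (c i) * b i = 0 := by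
      refine Finset.sum_eq_zero fun i _ => (hno i).elim
    rw [this] at hc
    exact one_ne_zero hc
  obtain ⟨i, _⟩ := hN
  have h1 := kbas_ind (Lb := Lb) (Kb := Kb) hgeo hb (c := Pi.single i p) (by
    rw [Finset.sum_eq_single i]
    · rw [Pi.single_eq_same, hp0, zero_mul]
    · intro k _ hk
      rw [Pi.single_eq_of_ne hk, map_zero, zero_mul]
    · intro h
      exact absurd (Finset.mem_univ i) h)
  have h2 := congrFun h1 i
  rw [Pi.single_eq_same] at h2
  exact hp h2

private theorem inv_Ab (hb : Bas L t b) {y : Kb} (hy : y ∈ Ab A K Lb Kb) (hy0 : y ≠ 0) :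
    ∃ y' ∈ Ab A K Lb Kb, ∃ r : Lb[X], r ≠ 0 ∧ y * y' = aeval (emb A K Kb t) r := by
  let S := Ab A K Lb Kb
  let τ : S := ⟨emb A K Kb t, emb_mem t⟩
  letI : Algebra Lb[X] S := (aeval τ : Lb[X] →ₐ[Lb] S).toRingHom.toAlgebra
  have hmap : ∀ p : Lb[X], ((algebraMap Lb[X] S p : S) : Kb) = aeval (emb A K Kb t) p := by
    intro p
    change ((aeval τ p : S) : Kb) = _
    have := aeval_algebraMap_apply (A := S) Kb τ p
    exact this.symm
  haveI : Module.Finite Lb[X] S := by
    refine Module.Finite.of_surjective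
      (Fintype.linearCombination Lb[X] (fun i : Fin N => (⟨emb A K Kb (b i), emb_mem (b i)⟩ : S))) ?_
    rintro ⟨z, hz⟩
    obtain ⟨c, hc⟩ := kbas_repr (Lb := Lb) (Kb := Kb) hb hz
    refine ⟨c, ?_⟩
    apply Subtype.ext
    rw [Fintype.linearCombination_apply]
    change S.val (∑ i, c i • (⟨emb A K Kb (b i), emb_mem (b i)⟩ : S)) = z
    rw [map_sum, hc]
    refine Finset.sum_congr rfl fun i _ => ?_
    rw [Algebra.smul_def, map_mul]
    change ((algebraMap Lb[X] S (c i) : S) : Kb) * _ = _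
    rw [hmap]
    rfl
  have h1 : IsAlgebraic Lb[X] (⟨y, hy⟩ : S) :=
    (Algebra.IsIntegral.isIntegral (R := Lb[X]) (⟨y, hy⟩ : S)).isAlgebraic
  obtain ⟨r, hr, y', hy'⟩ := h1.exists_nonzero_dvd
    (mem_nonZeroDivisors_of_ne_zero (fun h => hy0 (congrArg Subtype.val h)))
  refine ⟨y', y'.2, r, hr, ?_⟩
  rw [← hmap, hy']
  rfl

theorem kb_frac (hgeo : ∀ z : K, IsAlgebraic L z → z ∈ Set.range (algebraMap L K))
    (hKb : IntermediateField.adjoin Lb (Set.range (algebraMap K Kb)) = ⊤) (hb : Bas L t b)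
    (z : Kb) : ∃ y ∈ Ab A K Lb Kb, ∃ q : Lb[X], q ≠ 0 ∧ aeval (emb A K Kb t) q ≠ 0 ∧
      z = y / aeval (emb A K Kb t) q := by
  have htr : ∀ q : Lb[X], q ≠ 0 → aeval (emb A K Kb t) q ≠ 0 := by
    intro q hq h
    exact t_transc (Lb := Lb) (Kb := Kb) hgeo hb ⟨q, hq, h⟩
  have hz : z ∈ IntermediateField.adjoin Lb (Set.range (algebraMap K Kb)) := by
    rw [hKb]
    trivial
  have hinv : ∀ w : Kb, (∃ y ∈ Ab A K Lb Kb, ∃ q : Lb[X], q ≠ 0 ∧ aeval (emb A K Kb t) q ≠ 0 ∧
      w = y / aeval (emb A K Kb t) q) → (∃ y ∈ Ab A K Lb Kb, ∃ q : Lb[X], q ≠ 0 ∧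
      aeval (emb A K Kb t) q ≠ 0 ∧ w⁻¹ = y / aeval (emb A K Kb t) q) := by
    rintro w ⟨y, hy, q, hq, hq0, rfl⟩
    by_cases hy0 : y = 0
    · refine ⟨0, zero_mem _, q, hq, hq0, ?_⟩
      rw [hy0, zero_div, inv_zero]
    · obtain ⟨y', hy', r, hr, hyr⟩ := inv_Ab (Lb := Lb) (Kb := Kb) hb hy hy0
      refine ⟨aeval (emb A K Kb t) q * y', mul_mem (aeval_mem t q) hy', r, hr, htr r hr, ?_⟩
      have hy'0 : y' ≠ 0 := by
        intro h
        rw [h, mul_zero] at hyr
        exact htr r hr hyr.symm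
      rw [← hyr]
      field_simp
  have hmul : ∀ w w' : Kb, (∃ y ∈ Ab A K Lb Kb, ∃ q : Lb[X], q ≠ 0 ∧
      aeval (emb A K Kb t) q ≠ 0 ∧ w = y / aeval (emb A K Kb t) q) →
      (∃ y ∈ Ab A K Lb Kb, ∃ q : Lb[X], q ≠ 0 ∧
      aeval (emb A K Kb t) q ≠ 0 ∧ w' = y / aeval (emb A K Kb t) q) →
      (∃ y ∈ Ab A K Lb Kb, ∃ q : Lb[X], q ≠ 0 ∧
      aeval (emb A K Kb t) q ≠ 0 ∧ w * w' = y / aeval (emb A K Kb t) q) := by
    rintro w w' ⟨y, hy, q, hq, hq0, rfl⟩ ⟨y', hy', q', hq', hq'0, rfl⟩
    refine ⟨y * y', mul_mem hy hy', q * q', mul_ne_zero hq hq', ?_, ?_⟩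
    · rw [map_mul]
      exact mul_ne_zero hq0 hq'0
    · rw [map_mul, div_mul_div_comm]
  have hA : ∀ a : A, (∃ y ∈ Ab A K Lb Kb, ∃ q : Lb[X], q ≠ 0 ∧
      aeval (emb A K Kb t) q ≠ 0 ∧ emb A K Kb a = y / aeval (emb A K Kb t) q) := by
    intro a
    refine ⟨emb A K Kb a, emb_mem a, 1, one_ne_zero, ?_, ?_⟩
    · rw [map_one]
      exact one_ne_zero
    · rw [map_one, div_one]
  refine IntermediateField.adjoin_induction (p := fun w _ => ∃ y ∈ Ab A K Lb Kb, ∃ q : Lb[X],
    q ≠ 0 ∧ aeval (emb A K Kb t) q ≠ 0 ∧ w = y / aeval (emb A K Kb t) q) Lb ?_ ?_ ?_ ?_ ?_ hz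
  · rintro _ ⟨k, rfl⟩
    obtain ⟨a, d, _, rfl⟩ := IsFractionRing.div_surjective (A := A) k
    rw [map_div₀, div_eq_mul_inv]
    exact hmul _ _ (hA a) (hinv _ (hA d))
  · intro c
    refine ⟨algebraMap Lb Kb c, Subalgebra.algebraMap_mem _ c, 1, one_ne_zero, ?_, ?_⟩
    · rw [map_one]
      exact one_ne_zero
    · rw [map_one, div_one]
  · rintro w w' _ _ ⟨y, hy, q, hq, hq0, rfl⟩ ⟨y', hy', q', hq', hq'0, rfl⟩
    refine ⟨y * aeval (emb A K Kb t) q' + aeval (emb A K Kb t) q * y',
      add_mem (mul_mem hy (aeval_mem t q')) (mul_mem (aeval_mem t q) hy'), q * q',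
      mul_ne_zero hq hq', ?_, ?_⟩
    · rw [map_mul]
      exact mul_ne_zero hq0 hq'0
    · rw [map_mul, div_add_div _ _ hq0 hq'0]
  · intro w _ hw
    exact hinv w hw
  · intro w w' _ _ hw hw'
    exact hmul w w' hw hw'

end Pool.Agent.Work.MP_50269c_nt
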