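import Pool.Agent.Work.MP_50269c_nt.Defs
import Pool.Agent.Work.MP_50269c_nt.KBas

/-!
# NormF (size M): the determinant is the norm to `Lb(τ)`

Write `τ = emb A K Kb t`, `F0 = IntermediateField.adjoin Lb {τ}`. PROOF. The elements `emb (b i)` form a
basis of `Kb` over `F0`: independence: a relation with coefficients in `F0` (every element of `F0` is
`p(τ)/q(τ)`, `IntermediateField.mem_adjoin_simple_iff`) becomes after multiplication by a common
denominator a relation as in `kbas_ind`. Generation: `kb_frac` and `kbas_repr`. So `Kb` is finite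
dimensional over `F0` of dimension `N`, and the matrix of the multiplication by
`h = ∑ a_k emb (h k)` in this basis is the matrix of `Dl` with `X ↦ τ` (from `hM`). So
`norm F0 h = det = aeval τ (Dl Lb M a)` (`Algebra.norm_eq_matrix_det`, `Algebra.leftMulMatrix`, `RingHom.map_det`).
The norm is multiplicative and the norm of the element `D(τ)` of `F0` is `D(τ)^N`
(`Algebra.norm_algebraMap`, `finrank = N`).
-/

set_option autoImplicit false

noncomputable section

namespace Pool.Agent.Work.MP_50269c_nt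

open NumberField IsDedekindDomain Polynomial

variable {L : Type} [Field L] [NumberField L] {Lb : Type} [Field Lb] [Algebra L Lb]
  [IsAlgClosure L Lb] {A : Type} [CommRing A] [IsDedekindDomain A] [Algebra L A] {K : Type}
  [Field K] [Algebra A K] [IsFractionRing A K] [Algebra L K] [IsScalarTower L A K] {Kb : Type}
  [Field Kb] [Algebra K Kb] [Algebra Lb Kb] [Algebra L Kb] [IsScalarTower L K Kb]
  [IsScalarTower L Lb Kb]

variable {t : A} {N : ℕ} {b : Fin N → A}

private theorem nf_emb (p : L[X]) : emb A K Kb (aeval t p) =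
    aeval (emb A K Kb t) (p.map (algebraMap L Lb)) := by
  rw [Polynomial.aeval_map_algebraMap]
  exact (Polynomial.aeval_algHom_apply
    ((IsScalarTower.toAlgHom L K Kb).comp (IsScalarTower.toAlgHom L A K)) t p).symm

private theorem nf_rep {τ x : Kb} (hx : x ∈ IntermediateField.adjoin Lb {τ}) :
    ∃ p q : Lb[X], aeval τ q ≠ 0 ∧ x = aeval τ p / aeval τ q := by
  obtain ⟨p, q, h⟩ := (IntermediateField.mem_adjoin_simple_iff Lb x).1 hx
  by_cases hq : aeval τ q = 0
  · refine ⟨0, 1, by simp, ?_⟩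
    rw [h, hq]
    simp
  · exact ⟨p, q, hq, h⟩

private theorem nf_li (hgeo : ∀ z : K, IsAlgebraic L z → z ∈ Set.range (algebraMap L K))
    (hb : Bas L t b) : LinearIndependent (IntermediateField.adjoin Lb {emb A K Kb t})
      (fun i => emb A K Kb (b i)) := by
  classical
  rw [Fintype.linearIndependent_iff]
  intro g hg
  have hrep : ∀ i, ∃ p q : Lb[X], aeval (emb A K Kb t) q ≠ 0 ∧
      (g i : Kb) = aeval (emb A K Kb t) p / aeval (emb A K Kb t) q := fun i => nf_rep (g i).2
  choose p q hq hpq using hrep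
  have hg' : ∑ i, (g i : Kb) * emb A K Kb (b i) = 0 := by
    rw [← hg]
    apply Finset.sum_congr rfl
    intro i _
    rw [Algebra.smul_def]
    rfl
  have h1 : ∑ i, aeval (emb A K Kb t) (p i * ∏ j ∈ Finset.univ.erase i, q j) *
      emb A K Kb (b i) = 0 := by
    have h0 : (∏ j, aeval (emb A K Kb t) (q j)) * ∑ i, (g i : Kb) * emb A K Kb (b i) = 0 := by
      rw [hg', mul_zero]
    rw [Finset.mul_sum] at h0
    rw [← h0]
    apply Finset.sum_congr rfl
    intro i _
    rw [map_mul, map_prod, hpq i, ← Finset.mul_prod_erase Finset.univ _ (Finset.mem_univ i)]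
    have := hq i
    field_simp
  have h2 := kbas_ind hgeo hb h1
  intro i
  have h3 : p i * ∏ j ∈ Finset.univ.erase i, q j = 0 := congrFun h2 i
  rcases mul_eq_zero.1 h3 with h | h
  · apply Subtype.ext
    rw [hpq i, h, map_zero, zero_div]
    rfl
  · obtain ⟨j, _, hj⟩ := Finset.prod_eq_zero_iff.1 h
    exact absurd (by rw [hj, map_zero]) (hq j)

private theorem nf_sp (hgeo : ∀ z : K, IsAlgebraic L z → z ∈ Set.range (algebraMap L K))
    (hKb : IntermediateField.adjoin Lb (Set.range (algebraMap K Kb)) = ⊤) (hb : Bas L t b) :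
    ⊤ ≤ Submodule.span (IntermediateField.adjoin Lb {emb A K Kb t})
      (Set.range fun i => emb A K Kb (b i)) := by
  intro z _
  obtain ⟨y, hy, q, -, hq, rfl⟩ := kb_frac hgeo hKb hb z
  obtain ⟨c, rfl⟩ := kbas_repr hb hy
  rw [Submodule.mem_span_range_iff_exists_fun]
  refine ⟨fun i => ⟨aeval (emb A K Kb t) (c i) / aeval (emb A K Kb t) q,
    (IntermediateField.mem_adjoin_simple_iff Lb _).2 ⟨c i, q, rfl⟩⟩, ?_⟩
  rw [Finset.sum_div]
  apply Finset.sum_congr rfl
  intro i _
  rw [Algebra.smul_def]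
  change aeval (emb A K Kb t) (c i) / aeval (emb A K Kb t) q * emb A K Kb (b i) = _
  ring

/-- the basis of `Kb` over `Lb(τ)` -/
private def nfB (hgeo : ∀ z : K, IsAlgebraic L z → z ∈ Set.range (algebraMap L K))
    (hKb : IntermediateField.adjoin Lb (Set.range (algebraMap K Kb)) = ⊤) (hb : Bas L t b) :
    Module.Basis (Fin N) (IntermediateField.adjoin Lb {emb A K Kb t}) Kb :=
  Module.Basis.mk (nf_li hgeo hb) (nf_sp hgeo hKb hb)

private theorem nfB_apply (hgeo : ∀ z : K, IsAlgebraic L z → z ∈ Set.range (algebraMap L K))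
    (hKb : IntermediateField.adjoin Lb (Set.range (algebraMap K Kb)) = ⊤) (hb : Bas L t b)
    (i : Fin N) : nfB hgeo hKb hb i = emb A K Kb (b i) :=
  Module.Basis.mk_apply _ _ i

theorem norm_finite (hgeo : ∀ z : K, IsAlgebraic L z → z ∈ Set.range (algebraMap L K))
    (hKb : IntermediateField.adjoin Lb (Set.range (algebraMap K Kb)) = ⊤) (hb : Bas L t b) :
    FiniteDimensional (IntermediateField.adjoin Lb {emb A K Kb t}) Kb :=
  Module.Finite.of_basis (nfB hgeo hKb hb)

/-- the matrix over `Lb(τ)` -/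
private def nfW {τ : Kb} {m : ℕ} (M : Fin m → Matrix (Fin N) (Fin N) L[X]) (a : Fin m → Lb) :
    Matrix (Fin N) (Fin N) (IntermediateField.adjoin Lb {τ}) := fun i j =>
  ⟨aeval τ ((∑ k, (C (a k)) • (M k).map (Polynomial.map (algebraMap L Lb))) i j),
    (IntermediateField.mem_adjoin_simple_iff Lb _).2
      ⟨(∑ k, (C (a k)) • (M k).map (Polynomial.map (algebraMap L Lb))) i j, 1, by
        rw [map_one, div_one]⟩⟩

private theorem nf_det {τ : Kb} {m : ℕ} (M : Fin m → Matrix (Fin N) (Fin N) L[X])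
    (a : Fin m → Lb) : (((nfW (τ := τ) M a).det : IntermediateField.adjoin Lb {τ}) : Kb) =
      aeval τ (Dl Lb M a) := by
  have h1 : (((nfW (τ := τ) M a).det : IntermediateField.adjoin Lb {τ}) : Kb) =
      algebraMap (IntermediateField.adjoin Lb {τ}) Kb (nfW (τ := τ) M a).det := rfl
  rw [h1, RingHom.map_det]
  have h2 : aeval τ (Dl Lb M a) = ((aeval τ : Lb[X] →ₐ[Lb] Kb) : Lb[X] →+* Kb) (Dl Lb M a) := rfl
  rw [h2]
  unfold Dl
  rw [RingHom.map_det]
  rfl

private theorem nf_mul {m : ℕ} {h : Fin m → A} {M : Fin m → Matrix (Fin N) (Fin N) L[X]}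
    (hM : ∀ k, IsMat L t b (h k) (M k)) (a : Fin m → Lb) (j : Fin N) :
    (∑ k, algebraMap Lb Kb (a k) * emb A K Kb (h k)) * emb A K Kb (b j) =
      ∑ i, (nfW (τ := emb A K Kb t) M a i j) • emb A K Kb (b i) := by
  have h1 : ∀ i, (nfW (τ := emb A K Kb t) M a i j) • emb A K Kb (b i) =
      ∑ k, algebraMap Lb Kb (a k) * emb A K Kb (aeval t (M k i j)) * emb A K Kb (b i) := by
    intro i
    rw [Algebra.smul_def]
    change aeval (emb A K Kb t)
      ((∑ k, (C (a k)) • (M k).map (Polynomial.map (algebraMap L Lb))) i j) * _ = _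
    rw [Matrix.sum_apply, map_sum, Finset.sum_mul]
    apply Finset.sum_congr rfl
    intro k _
    rw [Matrix.smul_apply, Matrix.map_apply, smul_eq_mul, map_mul, aeval_C, nf_emb (Lb := Lb)]
  simp only [h1]
  rw [Finset.sum_comm, Finset.sum_mul]
  apply Finset.sum_congr rfl
  intro k _
  rw [mul_assoc, ← map_mul, hM k j, map_sum, Finset.mul_sum]
  apply Finset.sum_congr rfl
  intro i _
  rw [map_mul, mul_assoc]

theorem norm_eq (hgeo : ∀ z : K, IsAlgebraic L z → z ∈ Set.range (algebraMap L K))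
    (hKb : IntermediateField.adjoin Lb (Set.range (algebraMap K Kb)) = ⊤) (hb : Bas L t b)
    {m : ℕ} {h : Fin m → A} {M : Fin m → Matrix (Fin N) (Fin N) L[X]}
    (hM : ∀ k, IsMat L t b (h k) (M k)) (a : Fin m → Lb) {D : Lb[X]} (hD : D ≠ 0) :
    ((Algebra.norm (IntermediateField.adjoin Lb {emb A K Kb t})
      ((∑ k, algebraMap Lb Kb (a k) * emb A K Kb (h k)) / aeval (emb A K Kb t) D) :
        IntermediateField.adjoin Lb {emb A K Kb t}) : Kb) =
      aeval (emb A K Kb t) (Dl Lb M a) / aeval (emb A K Kb t) D ^ N := by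
  set B := nfB hgeo hKb hb with hB
  have hfin : Module.finrank (IntermediateField.adjoin Lb {emb A K Kb t}) Kb = N := by
    rw [Module.finrank_eq_card_basis B, Fintype.card_fin]
  set d : IntermediateField.adjoin Lb {emb A K Kb t} := ⟨aeval (emb A K Kb t) D,
    (IntermediateField.mem_adjoin_simple_iff Lb _).2 ⟨D, 1, by rw [map_one, div_one]⟩⟩ with hd
  have h1 : (∑ k, algebraMap Lb Kb (a k) * emb A K Kb (h k)) / aeval (emb A K Kb t) D =
      (∑ k, algebraMap Lb Kb (a k) * emb A K Kb (h k)) *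
        algebraMap (IntermediateField.adjoin Lb {emb A K Kb t}) Kb d⁻¹ := by
    rw [map_inv₀, div_eq_mul_inv]
    rfl
  have h2 : Algebra.norm (IntermediateField.adjoin Lb {emb A K Kb t})
      (∑ k, algebraMap Lb Kb (a k) * emb A K Kb (h k)) =
        (nfW (τ := emb A K Kb t) M a).det := by
    rw [Algebra.norm_eq_matrix_det B]
    congr 1
    ext1 i j
    rw [Algebra.leftMulMatrix_eq_repr_mul]
    have h3 : (∑ k, algebraMap Lb Kb (a k) * emb A K Kb (h k)) * B j =
        ∑ i, (nfW (τ := emb A K Kb t) M a i j) • B i := by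
      rw [nfB_apply, nf_mul hM]
      apply Finset.sum_congr rfl
      intro i _
      rw [nfB_apply]
    rw [h3, B.repr_sum_self]
  rw [h1, map_mul, Algebra.norm_algebraMap, hfin, h2]
  have h4 : (((nfW (τ := emb A K Kb t) M a).det * d⁻¹ ^ N :
      IntermediateField.adjoin Lb {emb A K Kb t}) : Kb) =
      (((nfW (τ := emb A K Kb t) M a).det : IntermediateField.adjoin Lb {emb A K Kb t}) : Kb) *
        ((d : Kb)⁻¹) ^ N := by
    push_cast
    rfl
  have h5 : (d : Kb) = aeval (emb A K Kb t) D := rfl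
  rw [h4, nf_det, h5, inv_pow, div_eq_mul_inv]

end Pool.Agent.Work.MP_50269c_nt
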