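import Pool.Agent.Work.MP_50269c_nt.Defs

/-!
# Tinf (size M): behaviour at the places at infinity

Write `τ = emb A K Kb t`. PROOFS.
`t_not_mem`: by `hb` the ring `A` is a finite module over the polynomials in `t` (generated by the `b i`), so
every `x i` is integral over `L[t]`; if `τ ∈ O` then the image of `L[t]` is in `O` (`O` contains `Lb`, and
`L → Lb → Kb` agrees with `L → K → Kb`), `emb (x i)` is integral over `O`, and valuation rings are
integrally closed (`ValuationSubring` is integrally closed in `Kb`), so all `x i ∈ O`, contradiction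
with `hO.2`.
`inv_t_nonunit`: from `τ ∉ O`: `τ⁻¹ ∈ O` and it is not a unit (`ValuationSubring.mem_nonunits_iff`, valuation
`< 1`).
`rinf_mem`: `p(τ)/τ^r = ∑ c_i (τ⁻¹)^(r-i) ∈ O` for `r ≥ deg p`; and for `q` with `r = deg q` the element
`q(τ)/τ^r = c_r + nonunit`, `c_r ≠ 0` constant, is a unit of `O`: so `p(τ)/q(τ) ∈ O`.
`rinf_nonunit`: if `deg p < deg q` then moreover `p(τ)/τ^r` is `τ⁻¹` times an element of `O`.
`rinf_unit`: if `deg p = deg q` and `p ≠ 0` then `q(τ)/p(τ) ∈ O` too, by `rinf_mem`, so `p(τ)/q(τ)` is not a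
nonunit. (Here `p(τ) ≠ 0` since `p(τ)/τ^r` is a unit of `O`.)
`pole_bound`: `z` is integral over `Lb[τ]`: `z^s = ∑_{i<s} c_i(τ) z^i` with `c_i ∈ Lb[X]` (the elements of `A`
are integral over `L[t]`, and `Ab` is generated by them; integral elements form a ring). Let `C` be `≥` all
`deg c_i` and `≥ 1`. If `z/τ^C ∉ O` then `w = τ^C/z ∈ O` is a nonunit, and dividing the relation by `z^s`:
`1 = ∑_i (c_i(τ)/τ^(C(s-i))) w^(s-i)` where `c_i(τ)/τ^(C(s-i)) ∈ O`: so `1` is a nonunit of `O`,
contradiction.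
-/

set_option autoImplicit false

noncomputable section

namespace Pool.Agent.Work.MP_50269c_nt

open NumberField IsDedekindDomain Polynomial

variable {L : Type} [Field L] [NumberField L] {Lb : Type} [Field Lb] [Algebra L Lb]
  [IsAlgClosure L Lb] {A : Type} [CommRing A] [IsDedekindDomain A] [Algebra L A] {K : Type}
  [Field K] [Algebra A K] [IsFractionRing A K] [Algebra L K] [IsScalarTower L A K] {Kb : Type}
  [Field Kb] [Algebra K Kb] [Algebra Lb Kb] [Algebra L Kb] [IsScalarTower L K Kb]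
  [IsScalarTower L Lb Kb]

variable {n : ℕ} {x : Fin n → A} {t : A} {N : ℕ} {b : Fin N → A}

omit [NumberField L] [IsAlgClosure L Lb] [IsDedekindDomain A] [IsFractionRing A K] in
/-- integral elements are bounded by their coefficients -/
private theorem tf_bound {Γ : Type*} [LinearOrderedCommGroupWithZero Γ] (v : Valuation Kb Γ)
    {z : Kb} {s : ℕ} {d : ℕ → Kb} (h : z ^ s = ∑ k ∈ Finset.range s, d k * z ^ k) {g : Γ}
    (hg : 1 ≤ g) (hd : ∀ k < s, v (d k) ≤ g) : v z ≤ g := by
  by_contra hc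
  push Not at hc
  have h1 : 1 < v z := lt_of_le_of_lt hg hc
  have h0 : 0 < v z := lt_trans zero_lt_one h1
  have h2 : v (∑ k ∈ Finset.range s, d k * z ^ k) < v z ^ s := by
    apply v.map_sum_lt (pow_ne_zero s h0.ne')
    intro k hk
    rw [Finset.mem_range] at hk
    rw [map_mul, map_pow]
    have h3 : v (d k) * v z ^ k ≤ g * v z ^ k := mul_le_mul_left (hd k hk) _
    have h4 : g * v z ^ k < v z * v z ^ k :=
      mul_lt_mul_of_pos_right hc (pow_pos h0 k)
    have h5 : v z * v z ^ k ≤ v z ^ s := by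
      rw [← pow_succ']
      exact pow_le_pow_right₀ h1.le hk
    exact lt_of_le_of_lt h3 (lt_of_lt_of_le h4 h5)
  rw [← h, map_pow] at h2
  exact lt_irrefl _ h2

omit [NumberField L] [IsDedekindDomain A] in
private theorem tf_int (hb : Bas L t b) (a : A) :
    ∃ (s : ℕ) (c : ℕ → L[X]), a ^ s = ∑ k ∈ Finset.range s, aeval t (c k) * a ^ k := by
  letI : Algebra L[X] A := ((aeval t : L[X] →ₐ[L] A) : L[X] →+* A).toAlgebra
  have hmap : ∀ p : L[X], algebraMap L[X] A p = aeval t p := fun p => rfl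
  have hsm : ∀ (p : L[X]) (a : A), p • a = aeval t p * a := fun p a => by
    rw [Algebra.smul_def, hmap]
  have hsur : Function.Surjective (Fintype.linearCombination L[X] b) := by
    intro a
    obtain ⟨c, hc, -⟩ := hb a
    refine ⟨c, ?_⟩
    rw [Fintype.linearCombination_apply]
    simp only [hsm]
    exact hc.symm
  have : Module.Finite L[X] A := Module.Finite.of_surjective _ hsur
  obtain ⟨P, hP, hP0⟩ := IsIntegral.of_finite L[X] a
  rw [Polynomial.eval₂_eq_sum_range, Finset.sum_range_succ] at hP0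
  rw [hP.coeff_natDegree, map_one, one_mul] at hP0
  refine ⟨P.natDegree, fun k => -P.coeff k, ?_⟩
  rw [eq_neg_of_add_eq_zero_right hP0, ← Finset.sum_neg_distrib]
  apply Finset.sum_congr rfl
  intro k _
  rw [hmap, map_neg]
  ring

omit [NumberField L] [IsAlgClosure L Lb] [IsDedekindDomain A] [IsFractionRing A K] in
private theorem tf_emb (p : L[X]) : emb A K Kb (aeval t p) =
    aeval (emb A K Kb t) (p.map (algebraMap L Lb)) := by
  rw [Polynomial.aeval_map_algebraMap]
  exact (Polynomial.aeval_algHom_apply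
    ((IsScalarTower.toAlgHom L K Kb).comp (IsScalarTower.toAlgHom L A K)) t p).symm

omit [NumberField L] [IsDedekindDomain A] [IsFractionRing A K] [IsAlgClosure L Lb]
  [Algebra L Lb] [Algebra L A] [Algebra L K] [IsScalarTower L A K] [Algebra L Kb]
  [IsScalarTower L K Kb] [IsScalarTower L Lb Kb] [Field L] in
private theorem tf_const {O : ValuationSubring Kb}
    (hO : AtInf Lb (fun i => emb A K Kb (x i)) O) {c : Lb} (hc : c ≠ 0) :
    O.valuation (algebraMap Lb Kb c) = 1 := by
  apply le_antisymm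
  · exact (O.valuation_le_one_iff _).2 (hO.1 c)
  · have h1 : O.valuation (algebraMap Lb Kb c⁻¹) ≤ 1 := (O.valuation_le_one_iff _).2 (hO.1 c⁻¹)
    rw [map_inv₀, map_inv₀] at h1
    have h2 : O.valuation (algebraMap Lb Kb c) ≠ 0 := by
      rw [Valuation.ne_zero_iff]
      exact (_root_.map_ne_zero _).2 hc
    exact (inv_le_one₀ (zero_lt_iff.2 h2)).1 h1

omit [NumberField L] [IsDedekindDomain A] [IsFractionRing A K] [IsAlgClosure L Lb]
  [Algebra L Lb] [Algebra L A] [Algebra L K] [IsScalarTower L A K] [Algebra L Kb]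
  [IsScalarTower L K Kb] [IsScalarTower L Lb Kb] [Field L] in
private theorem tf_le {O : ValuationSubring Kb}
    (hO : AtInf Lb (fun i => emb A K Kb (x i)) O) {τ : Kb} (p : Lb[X]) {g : O.ValueGroup}
    (hg : 1 ≤ g) (hτ : O.valuation τ ≤ g) : O.valuation (aeval τ p) ≤ g ^ p.natDegree := by
  rw [Polynomial.aeval_eq_sum_range]
  apply Valuation.map_sum_le
  intro i hi
  rw [Finset.mem_range] at hi
  rw [Algebra.smul_def, map_mul, map_pow]
  have h1 : O.valuation (algebraMap Lb Kb (p.coeff i)) ≤ 1 :=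
    (O.valuation_le_one_iff _).2 (hO.1 _)
  calc O.valuation (algebraMap Lb Kb (p.coeff i)) * O.valuation τ ^ i
      ≤ 1 * g ^ i := mul_le_mul' h1 (pow_le_pow_left' hτ i)
    _ = g ^ i := one_mul _
    _ ≤ g ^ p.natDegree := pow_le_pow_right₀ hg (by omega)

omit [NumberField L] [IsDedekindDomain A] [IsFractionRing A K] [IsAlgClosure L Lb]
  [Algebra L Lb] [Algebra L A] [Algebra L K] [IsScalarTower L A K] [Algebra L Kb]
  [IsScalarTower L K Kb] [IsScalarTower L Lb Kb] [Field L] in
private theorem tf_eq {O : ValuationSubring Kb}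
    (hO : AtInf Lb (fun i => emb A K Kb (x i)) O) {τ : Kb} {p : Lb[X]} (hp : p ≠ 0)
    (hτ : 1 < O.valuation τ) : O.valuation (aeval τ p) = O.valuation τ ^ p.natDegree := by
  have hlead : O.valuation (p.coeff p.natDegree • τ ^ p.natDegree) =
      O.valuation τ ^ p.natDegree := by
    rw [Algebra.smul_def, map_mul, map_pow, tf_const hO, one_mul]
    exact Polynomial.leadingCoeff_ne_zero.2 hp
  have h0 : 0 < O.valuation τ := lt_trans zero_lt_one hτ
  rw [Polynomial.aeval_eq_sum_range, Finset.sum_range_succ, Valuation.map_add_eq_of_lt_right, hlead]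
  rw [hlead]
  apply Valuation.map_sum_lt _ (pow_ne_zero _ h0.ne')
  intro i hi
  rw [Finset.mem_range] at hi
  rw [Algebra.smul_def, map_mul, map_pow]
  have h1 : O.valuation (algebraMap Lb Kb (p.coeff i)) ≤ 1 :=
    (O.valuation_le_one_iff _).2 (hO.1 _)
  calc O.valuation (algebraMap Lb Kb (p.coeff i)) * O.valuation τ ^ i
      ≤ 1 * O.valuation τ ^ i := mul_le_mul_left h1 _
    _ = O.valuation τ ^ i := one_mul _
    _ < O.valuation τ ^ p.natDegree := pow_lt_pow_right₀ hτ hi

theorem t_not_mem (hb : Bas L t b) {O : ValuationSubring Kb}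
    (hO : AtInf Lb (fun i => emb A K Kb (x i)) O) : emb A K Kb t ∉ O := by
  intro hmem
  obtain ⟨i, hi⟩ := hO.2
  apply hi
  have hτ : O.valuation (emb A K Kb t) ≤ 1 := (O.valuation_le_one_iff _).2 hmem
  obtain ⟨s, c, hs⟩ := tf_int hb (x i)
  have h1 : emb A K Kb (x i) ^ s = ∑ k ∈ Finset.range s,
      emb A K Kb (aeval t (c k)) * emb A K Kb (x i) ^ k := by
    rw [← map_pow, hs, map_sum]
    simp only [map_mul, map_pow]
  have h2 : O.valuation (emb A K Kb (x i)) ≤ 1 := by
    apply tf_bound O.valuation h1 le_rfl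
    intro k _
    rw [tf_emb (Lb := Lb)]
    have := tf_le hO ((c k).map (algebraMap L Lb)) (g := 1) le_rfl hτ
    rwa [one_pow] at this
  exact (O.valuation_le_one_iff _).1 h2

private theorem tf_one_lt (hb : Bas L t b) {O : ValuationSubring Kb}
    (hO : AtInf Lb (fun i => emb A K Kb (x i)) O) : 1 < O.valuation (emb A K Kb t) := by
  by_contra h
  exact t_not_mem hb hO ((O.valuation_le_one_iff _).1 (not_lt.1 h))

theorem inv_t_nonunit (hb : Bas L t b) {O : ValuationSubring Kb}
    (hO : AtInf Lb (fun i => emb A K Kb (x i)) O) : (emb A K Kb t)⁻¹ ∈ O.nonunits := by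
  rw [ValuationSubring.mem_nonunits_iff, map_inv₀]
  exact inv_lt_one_of_one_lt₀ (tf_one_lt hb hO)

theorem rinf_mem (hb : Bas L t b) {O : ValuationSubring Kb}
    (hO : AtInf Lb (fun i => emb A K Kb (x i)) O) {z : Kb} (hz : z ∈ Rinf Lb (emb A K Kb t)) :
    z ∈ O := by
  obtain ⟨p, q, hq, hpq, rfl⟩ := hz
  have h1 := tf_one_lt hb hO
  have h0 : 0 < O.valuation (emb A K Kb t) := lt_trans zero_lt_one h1
  have hq0 : q ≠ 0 := fun h => hq (by rw [h, map_zero])
  rw [← O.valuation_le_one_iff, map_div₀, tf_eq hO hq0 h1]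
  rw [div_le_one₀ (pow_pos h0 _)]
  exact (tf_le hO p h1.le le_rfl).trans (pow_le_pow_right₀ h1.le hpq)

theorem rinf_nonunit (hb : Bas L t b) {O : ValuationSubring Kb}
    (hO : AtInf Lb (fun i => emb A K Kb (x i)) O) {p q : Lb[X]} (hpq : p.natDegree < q.natDegree) :
    aeval (emb A K Kb t) p / aeval (emb A K Kb t) q ∈ O.nonunits := by
  have h1 := tf_one_lt hb hO
  have h0 : 0 < O.valuation (emb A K Kb t) := lt_trans zero_lt_one h1
  have hq0 : q ≠ 0 := by
    rintro rfl
    simp at hpq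
  rw [ValuationSubring.mem_nonunits_iff, map_div₀, tf_eq hO hq0 h1]
  rw [div_lt_one₀ (pow_pos h0 _)]
  exact lt_of_le_of_lt (tf_le hO p h1.le le_rfl) (pow_lt_pow_right₀ h1 hpq)

theorem rinf_unit (hb : Bas L t b) {O : ValuationSubring Kb}
    (hO : AtInf Lb (fun i => emb A K Kb (x i)) O) {p q : Lb[X]} (hp : p ≠ 0)
    (hq : q ≠ 0) (hpq : p.natDegree = q.natDegree) :
    aeval (emb A K Kb t) p / aeval (emb A K Kb t) q ∉ O.nonunits := by
  have h1 := tf_one_lt hb hO
  have h0 : 0 < O.valuation (emb A K Kb t) := lt_trans zero_lt_one h1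
  rw [ValuationSubring.mem_nonunits_iff, map_div₀, tf_eq hO hq h1, tf_eq hO hp h1, hpq,
    div_self (pow_ne_zero _ h0.ne')]
  exact lt_irrefl _

theorem pole_bound (hb : Bas L t b) {z : Kb} (hz : z ∈ Ab A K Lb Kb) :
    ∃ c : ℕ, ∀ O : ValuationSubring Kb, AtInf Lb (fun i => emb A K Kb (x i)) O →
      z / emb A K Kb t ^ c ∈ O := by
  suffices h : ∃ c : ℕ, ∀ O : ValuationSubring Kb, AtInf Lb (fun i => emb A K Kb (x i)) O →
      O.valuation z ≤ O.valuation (emb A K Kb t) ^ c by
    obtain ⟨c, hc⟩ := h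
    refine ⟨c, fun O hO => ?_⟩
    have h1 := tf_one_lt hb hO
    have h0 : 0 < O.valuation (emb A K Kb t) := lt_trans zero_lt_one h1
    rw [← O.valuation_le_one_iff, map_div₀, map_pow, div_le_one₀ (pow_pos h0 _)]
    exact hc O hO
  unfold Ab at hz
  induction hz using Algebra.adjoin_induction with
  | mem z hz =>
    obtain ⟨a, rfl⟩ := hz
    obtain ⟨s, c, hs⟩ := tf_int hb a
    refine ⟨(Finset.range s).sup fun k => ((c k).map (algebraMap L Lb)).natDegree,
      fun O hO => ?_⟩
    have hτ := tf_one_lt hb hO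
    have h1 : emb A K Kb a ^ s = ∑ k ∈ Finset.range s,
        emb A K Kb (aeval t (c k)) * emb A K Kb a ^ k := by
      rw [← map_pow, hs, map_sum]
      simp only [map_mul, map_pow]
    apply tf_bound O.valuation h1 (one_le_pow₀ hτ.le)
    intro k hk
    rw [tf_emb (Lb := Lb)]
    refine (tf_le hO ((c k).map (algebraMap L Lb)) hτ.le le_rfl).trans
      (pow_le_pow_right₀ hτ.le ?_)
    exact Finset.le_sup (f := fun k => ((c k).map (algebraMap L Lb)).natDegree)
      (Finset.mem_range.2 hk)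
  | algebraMap r =>
    refine ⟨0, fun O hO => ?_⟩
    rw [pow_zero]
    exact (O.valuation_le_one_iff _).2 (hO.1 r)
  | add y z _ _ hy hz =>
    obtain ⟨c, hc⟩ := hy
    obtain ⟨d, hd⟩ := hz
    refine ⟨max c d, fun O hO => ?_⟩
    have hτ := tf_one_lt hb hO
    apply Valuation.map_add_le
    · exact (hc O hO).trans (pow_le_pow_right₀ hτ.le (le_max_left _ _))
    · exact (hd O hO).trans (pow_le_pow_right₀ hτ.le (le_max_right _ _))
  | mul y z _ _ hy hz =>
    obtain ⟨c, hc⟩ := hy
    obtain ⟨d, hd⟩ := hz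
    refine ⟨c + d, fun O hO => ?_⟩
    rw [map_mul, pow_add]
    exact mul_le_mul' (hc O hO) (hd O hO)

end Pool.Agent.Work.MP_50269c_nt
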