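import Pool.Agent.Work.MP_50269c_nt.Defs
import Pool.Agent.Work.MP_50269c_nt.Tinf
import Pool.Agent.Work.MP_50269c_nt.KBas

/-!
# Integ (size M): integrality over the ring at infinity, existence of a place at infinity

Write `τ = emb A K Kb t`, `R = Rinf Lb τ`. PROOFS.
`integ`: by `iInf_valuationSubring_superset` (Mathlib: the intersection of the valuation subrings of a field
containing a subring is its integral closure; look for `iInf_valuationSubring_superset`, or use
`ValuationSubring`/`exists_factor_valuationRing`: for `f` not integral over `R` there is a valuation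
subring containing `R` and not `f`), it is enough to show `f ∈ V` for every valuation subring `V`
of `Kb` containing `R`. `V` contains `Lb` (constants `c/1`). If some `x i` is not in `V` then `V` is AtInf and
`f ∈ V` by `hf`. Otherwise all `emb (x i) ∈ V`, so `emb a ∈ V` for all `a : A` (`hx`: `A` is generated by the
`x i` over `L`), so `τ ∈ V` and `Ab ⊆ V`. For every `q ∈ Lb[X]` with `q(τ) ≠ 0`: `1/q(τ) ∈ R ⊆ V`. By
`kb_frac` every element of `Kb` is in `V`, so `f ∈ V`.
`exists_atInf`: otherwise `integ` applies vacuously to `f = τ`: `τ^s = ∑_{i<s} r_i τ^i` with `r_i ∈ R`,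
`s ≥ 1`. Let `r_i = p_i(τ)/q_i(τ)`; multiply by `q = ∏ q_i`: since `τ` is transcendental (`t_transc`) this gives
`q X^s = ∑_i (p_i ∏_{j≠i} q_j) X^i` in `Lb[X]`, where the left hand side has degree `deg q + s` and the right
hand side has degree `≤ deg q + s - 1`, contradiction.
-/

set_option autoImplicit false

noncomputable section

namespace Pool.Agent.Work.MP_50269c_nt

open NumberField IsDedekindDomain Polynomial

variable {L : Type} [Field L] [NumberField L] {Lb : Type} [Field Lb] [Algebra L Lb]
  [IsAlgClosure L Lb] {A : Type} [CommRing A] [IsDedekindDomain A] [Algebra L A] {K : Type}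
  [Field K] [Algebra A K] [IsFractionRing A K] [Algebra L K] [IsScalarTower L A K] {Kb : Type}
  [Field Kb] [Algebra K Kb] [Algebra Lb Kb] [Algebra L Kb] [IsScalarTower L K Kb]
  [IsScalarTower L Lb Kb]

variable {n : ℕ} {x : Fin n → A} {t : A} {N : ℕ} {b : Fin N → A}

private theorem integ_const (τ : Kb) (c : Lb) : algebraMap Lb Kb c ∈ Rinf Lb τ := by
  refine ⟨C c, 1, ?_, ?_, ?_⟩
  · rw [map_one]
    exact one_ne_zero
  · rw [natDegree_C]
    exact Nat.zero_le _
  · rw [map_one, aeval_C, div_one]

private theorem integ_inv (τ : Kb) (q : Lb[X]) (hq : aeval τ q ≠ 0) :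
    (aeval τ q)⁻¹ ∈ Rinf Lb τ := by
  refine ⟨1, q, hq, ?_, ?_⟩
  · rw [natDegree_one]
    exact Nat.zero_le _
  · rw [map_one, one_div]

private theorem integ_of (R : Subring Kb) (f : Kb)
    (h : ∀ V : ValuationSubring Kb, (∀ z ∈ R, z ∈ V) → f ∈ V) : IsIntegral R f := by
  have h1 : f ∈ (⨅ V : {V : ValuationSubring Kb // (R : Set Kb) ⊆ V.toSubring},
      V.1.toSubring) := by
    rw [Subring.mem_iInf]
    rintro ⟨V, hV⟩
    exact h V (fun z hz => hV hz)
  rw [iInf_valuationSubring_superset] at h1
  have h2 : IsIntegral (Subring.closure (R : Set Kb)) f := h1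
  have h3 : ∀ T : Subring Kb, T = R → IsIntegral T f → IsIntegral R f := by
    rintro _ rfl h
    exact h
  exact h3 _ (Subring.closure_eq R) h2

private theorem integ_mem (R : Subring Kb) (z : Kb) (h : IsIntegral R z) (hz : z ≠ 0)
    (hi : z⁻¹ ∈ R) : z ∈ R := by
  obtain ⟨p, hp, h0⟩ := h
  have h1 : ∑ i ∈ Finset.range (p.natDegree + 1), ((p.coeff i : R) : Kb) * z ^ i = 0 := by
    rw [eval₂_eq_sum_range] at h0
    exact h0
  rw [Finset.sum_range_succ] at h1
  have h2 : ((p.coeff p.natDegree : R) : Kb) = 1 := by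
    rw [hp.coeff_natDegree]
    rfl
  rw [h2, one_mul] at h1
  rcases Nat.eq_zero_or_pos p.natDegree with h3 | h3
  · rw [h3] at h1
    simp at h1
  · obtain ⟨s, hs⟩ : ∃ s, p.natDegree = s + 1 := ⟨p.natDegree - 1, by omega⟩
    rw [hs] at h1
    have h4 : z = - ∑ i ∈ Finset.range (s + 1), ((p.coeff i : R) : Kb) * z⁻¹ ^ (s - i) := by
      have h5 : z ^ (s + 1) = - ∑ i ∈ Finset.range (s + 1), ((p.coeff i : R) : Kb) * z ^ i := by
        rw [eq_neg_iff_add_eq_zero, add_comm]
        exact h1
      have h6 : z = z⁻¹ ^ s * z ^ (s + 1) := by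
        rw [pow_succ, ← mul_assoc, ← mul_pow, inv_mul_cancel₀ hz, one_pow, one_mul]
      rw [h5, mul_neg, Finset.mul_sum] at h6
      refine h6.trans ?_
      congr 1
      refine Finset.sum_congr rfl fun i hi => ?_
      have h7 : i ≤ s := Nat.lt_succ_iff.mp (Finset.mem_range.mp hi)
      have h8 : z⁻¹ ^ s * z ^ i = z⁻¹ ^ (s - i) := by
        have h9 : s = (s - i) + i := by omega
        conv_lhs => rw [h9]
        rw [pow_add, mul_assoc, ← mul_pow, inv_mul_cancel₀ hz, one_pow, mul_one]
      rw [← h8]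
      ring
    rw [h4]
    refine neg_mem (sum_mem fun i _ => mul_mem (p.coeff i).2 (pow_mem hi _))

theorem integ (hx : Algebra.adjoin L (Set.range x) = ⊤)
    (hgeo : ∀ z : K, IsAlgebraic L z → z ∈ Set.range (algebraMap L K))
    (hKb : IntermediateField.adjoin Lb (Set.range (algebraMap K Kb)) = ⊤) (hb : Bas L t b)
    {f : Kb} (hf : ∀ O : ValuationSubring Kb, AtInf Lb (fun i => emb A K Kb (x i)) O → f ∈ O) :
    IsIntegral (Rinf Lb (emb A K Kb t)) f := by
  refine integ_of _ f fun V hV => ?_
  by_cases hall : ∀ i, emb A K Kb (x i) ∈ V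
  · have hc : ∀ c : Lb, algebraMap Lb Kb c ∈ V := fun c => hV _ (integ_const _ c)
    have hA : ∀ a : A, emb A K Kb a ∈ V := by
      intro a
      have ha : a ∈ Algebra.adjoin L (Set.range x) := by
        rw [hx]
        exact Algebra.mem_top
      induction ha using Algebra.adjoin_induction with
      | mem a ha =>
        obtain ⟨i, rfl⟩ := ha
        exact hall i
      | algebraMap r =>
        have e : emb A K Kb (algebraMap L A r) = algebraMap Lb Kb (algebraMap L Lb r) := by
          rw [RingHom.comp_apply, ← IsScalarTower.algebraMap_apply L A K,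
            ← IsScalarTower.algebraMap_apply L K Kb, ← IsScalarTower.algebraMap_apply L Lb Kb]
        rw [e]
        exact hc _
      | add a b _ _ ha hb =>
        rw [map_add]
        exact add_mem ha hb
      | mul a b _ _ ha hb =>
        rw [map_mul]
        exact mul_mem ha hb
    have hAb : ∀ y ∈ Ab A K Lb Kb, y ∈ V := by
      intro y hy
      induction hy using Algebra.adjoin_induction with
      | mem a ha =>
        obtain ⟨a, rfl⟩ := ha
        exact hA a
      | algebraMap r => exact hc r
      | add a b _ _ ha hb => exact add_mem ha hb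
      | mul a b _ _ ha hb => exact mul_mem ha hb
    obtain ⟨y, hy, q, -, hq, rfl⟩ := kb_frac (A := A) hgeo hKb hb f
    rw [div_eq_mul_inv]
    exact mul_mem (hAb y hy) (hV _ (integ_inv _ q hq))
  · push Not at hall
    exact hf V ⟨fun c => hV _ (integ_const _ c), hall⟩

theorem exists_atInf (hx : Algebra.adjoin L (Set.range x) = ⊤)
    (hgeo : ∀ z : K, IsAlgebraic L z → z ∈ Set.range (algebraMap L K))
    (hKb : IntermediateField.adjoin Lb (Set.range (algebraMap K Kb)) = ⊤) (hb : Bas L t b) :
    ∃ O : ValuationSubring Kb, AtInf Lb (fun i => emb A K Kb (x i)) O := by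
  by_contra hno
  have hint : IsIntegral (Rinf Lb (emb A K Kb t)) (emb A K Kb t) :=
    integ hx hgeo hKb hb (fun O hO => absurd ⟨O, hO⟩ hno)
  have htr := t_transc (Lb := Lb) (A := A) (K := K) (Kb := Kb) hgeo hb
  set τ : Kb := emb A K Kb t with hτ
  have hτ0 : τ ≠ 0 := by
    intro h0
    exact htr ⟨X, X_ne_zero, by rw [aeval_X, h0]⟩
  have hinv : τ⁻¹ ∈ Rinf Lb τ := by
    have h1 := integ_inv (Lb := Lb) τ X (by rwa [aeval_X])
    rwa [aeval_X] at h1
  have hmem : τ ∈ Rinf Lb τ := integ_mem _ τ hint hτ0 hinv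
  obtain ⟨p, q, hq, hpq, he⟩ := hmem
  have he2 : aeval τ (X * q - p) = 0 := by
    rw [map_sub, map_mul, aeval_X]
    have h3 : τ * aeval τ q = aeval τ p := by
      rw [eq_div_iff hq] at he
      exact he
    rw [h3, sub_self]
  have h4 : X * q - p = 0 := by
    by_contra h5
    exact htr ⟨_, h5, he2⟩
  have h6 : X * q = p := sub_eq_zero.mp h4
  have hq0 : q ≠ 0 := fun h => hq (by rw [h, map_zero])
  rw [← h6, natDegree_X_mul hq0] at hpq
  omega

end Pool.Agent.Work.MP_50269c_nt
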