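import Pool.Agent.Work.MP_50269c_nt.Defs
import Pool.Agent.Work.MP_50269c_nt.Tinf
import Pool.Agent.Work.MP_50269c_nt.KBas
import Pool.Agent.Work.MP_50269c_nt.Integ

/-!
# NormInt (size M): the norm of a function without poles at infinity

Write `τ = emb A K Kb t`, `F0 = IntermediateField.adjoin Lb {τ}`, `R = Rinf Lb τ` (a subring of `Kb` contained in `F0`).
PROOF. `f` is integral over `R` by `integ`. Let `μ` be the minimal polynomial of `f` over `F0`; it divides a monic
polynomial over `R`, so its coefficients are integral over `R` (`Polynomial.isIntegral_coeff_of_dvd`,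
or: its roots in an algebraic closure are integral). An element of `F0` integral over `R` is in `R`: write
it `p(τ)/q(τ)` in lowest terms, or just with `q ≠ 0`; if `deg p > deg q` the relation
`z^s = ∑_{i<s} r_i z^i`, `r_i = p_i(τ)/q_i(τ)`, after multiplication by the denominators is a
polynomial identity (`t_transc`) where the left hand side has the larger degree. So `μ` has coefficients in `R`.
`norm F0 f = ((-1)^(deg μ) * μ.coeff 0) ^ r` (`Algebra.norm_eq_norm_adjoin` (characteristic 0, so separable) and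
`Algebra.norm_gen_eq_coeff_zero_minpoly`; or `Algebra.norm_eq_...charpoly...`: the characteristic polynomial of
the multiplication is a power of `μ`), `r ≥ 1`: it is in `R`.
`norm_nonunit`: `μ(f) = 0` gives `μ.coeff 0 = - f * (μ.coeff 1 + ... + f^(deg μ - 1))`, the bracket is in `O0`
(`R ⊆ O0` by `rinf_mem`), `f ∈ O0.nonunits`; so `μ.coeff 0 ∈ O0.nonunits` and its `r`-th power, `r ≥ 1`, too.
-/

set_option autoImplicit false

noncomputable section

namespace Pool.Agent.Work.MP_50269c_nt

open NumberField IsDedekindDomain Polynomial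

section aux

variable {Lb Kb : Type} [Field Lb] [Field Kb] [Algebra Lb Kb]

private theorem ni_mem {τ z : Kb} (hz : z ∈ Rinf Lb τ) : z ∈ IntermediateField.adjoin Lb {τ} := by
  obtain ⟨p, q, _, _, rfl⟩ := hz
  exact (IntermediateField.mem_adjoin_simple_iff Lb _).2 ⟨p, q, rfl⟩

private theorem ni_or {τ z : Kb} (hz : z ∈ IntermediateField.adjoin Lb {τ}) :
    z ∈ Rinf Lb τ ∨ z⁻¹ ∈ Rinf Lb τ := by
  obtain ⟨p, q, rfl⟩ := (IntermediateField.mem_adjoin_simple_iff Lb _).1 hz
  by_cases hq : aeval τ q = 0
  · left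
    rw [hq, div_zero]
    exact zero_mem _
  by_cases hp : aeval τ p = 0
  · left
    rw [hp, zero_div]
    exact zero_mem _
  rcases le_total p.natDegree q.natDegree with h | h
  · left
    exact ⟨p, q, hq, h, rfl⟩
  · right
    exact ⟨q, p, hp, h, by rw [inv_div]⟩

/-- the ring at infinity as a subring of `Lb(τ)` -/
private def niS (τ : Kb) : Subring (IntermediateField.adjoin Lb {τ}) :=
  (Rinf Lb τ).comap (algebraMap (IntermediateField.adjoin Lb {τ}) Kb)

private theorem mem_niS {τ : Kb} {z : IntermediateField.adjoin Lb {τ}} :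
    z ∈ niS (Lb := Lb) τ ↔ (z : Kb) ∈ Rinf Lb τ := Iff.rfl

/-- the same as a valuation ring -/
private def niV (τ : Kb) : ValuationSubring (IntermediateField.adjoin Lb {τ}) :=
  { niS (Lb := Lb) τ with
    mem_or_inv_mem' := fun z => by
      rcases ni_or z.2 with h | h
      · exact Or.inl h
      · refine Or.inr ?_
        show ((z⁻¹ : IntermediateField.adjoin Lb {τ}) : Kb) ∈ Rinf Lb τ
        rw [IntermediateField.coe_inv]
        exact h }

private def niphi (τ : Kb) : Rinf Lb τ →+* niS (Lb := Lb) τ where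
  toFun r := ⟨⟨r, ni_mem r.2⟩, r.2⟩
  map_one' := rfl
  map_mul' _ _ := rfl
  map_zero' := rfl
  map_add' _ _ := rfl

private theorem ni_int {τ f : Kb} (h : IsIntegral (Rinf Lb τ) f) :
    IsIntegral (niS (Lb := Lb) τ) f := by
  obtain ⟨P, hP, hP0⟩ := h
  refine ⟨P.map (niphi τ), hP.map _, ?_⟩
  rw [eval₂_map]
  exact hP0

private theorem ni_closed {τ : Kb} {z : IntermediateField.adjoin Lb {τ}}
    (h : IsIntegral (niS (Lb := Lb) τ) z) : z ∈ niS (Lb := Lb) τ := by
  have h1 : IsIntegral (niV (Lb := Lb) τ) z := h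
  obtain ⟨y, hy⟩ := (IsIntegrallyClosed.isIntegral_iff (R := niV (Lb := Lb) τ)).1 h1
  rw [← hy]
  exact y.2

end aux

variable {L : Type} [Field L] [NumberField L] {Lb : Type} [Field Lb] [Algebra L Lb]
  [IsAlgClosure L Lb] {A : Type} [CommRing A] [IsDedekindDomain A] [Algebra L A] {K : Type}
  [Field K] [Algebra A K] [IsFractionRing A K] [Algebra L K] [IsScalarTower L A K] {Kb : Type}
  [Field Kb] [Algebra K Kb] [Algebra Lb Kb] [Algebra L Kb] [IsScalarTower L K Kb]
  [IsScalarTower L Lb Kb]

variable {n : ℕ} {x : Fin n → A} {t : A} {N : ℕ} {b : Fin N → A}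

theorem norm_mem (hx : Algebra.adjoin L (Set.range x) = ⊤)
    (hgeo : ∀ z : K, IsAlgebraic L z → z ∈ Set.range (algebraMap L K))
    (hKb : IntermediateField.adjoin Lb (Set.range (algebraMap K Kb)) = ⊤) (hb : Bas L t b)
    [FiniteDimensional (IntermediateField.adjoin Lb {emb A K Kb t}) Kb]
    {f : Kb} (hf : ∀ O : ValuationSubring Kb, AtInf Lb (fun i => emb A K Kb (x i)) O → f ∈ O) :
    ((Algebra.norm (IntermediateField.adjoin Lb {emb A K Kb t}) f :
      IntermediateField.adjoin Lb {emb A K Kb t}) : Kb) ∈ Rinf Lb (emb A K Kb t) := by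
  have h1 := ni_int (integ hx hgeo hKb hb hf)
  exact ni_closed (Algebra.isIntegral_norm _ h1)

theorem norm_nonunit (hx : Algebra.adjoin L (Set.range x) = ⊤)
    (hgeo : ∀ z : K, IsAlgebraic L z → z ∈ Set.range (algebraMap L K))
    (hKb : IntermediateField.adjoin Lb (Set.range (algebraMap K Kb)) = ⊤) (hb : Bas L t b)
    [FiniteDimensional (IntermediateField.adjoin Lb {emb A K Kb t}) Kb]
    {f : Kb} (hf : ∀ O : ValuationSubring Kb, AtInf Lb (fun i => emb A K Kb (x i)) O → f ∈ O)
    {O0 : ValuationSubring Kb} (hO0 : AtInf Lb (fun i => emb A K Kb (x i)) O0)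
    (h0 : f ∈ O0.nonunits) :
    ((Algebra.norm (IntermediateField.adjoin Lb {emb A K Kb t}) f :
      IntermediateField.adjoin Lb {emb A K Kb t}) : Kb) ∈ O0.nonunits := by
  set τ := emb A K Kb t with hτ
  have h1 := ni_int (integ hx hgeo hKb hb hf)
  have hfin : IsIntegral (IntermediateField.adjoin Lb {τ}) f := IsIntegral.of_finite _ f
  obtain ⟨P, hP, hP0⟩ := h1
  have hdvd : minpoly (IntermediateField.adjoin Lb {τ}) f ∣
      P.map (algebraMap (niS (Lb := Lb) τ) (IntermediateField.adjoin Lb {τ})) := by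
    refine minpoly.dvd _ _ ?_
    rw [aeval_map_algebraMap]
    exact hP0
  have hco : ∀ i, (((minpoly (IntermediateField.adjoin Lb {τ}) f).coeff i :
      IntermediateField.adjoin Lb {τ}) : Kb) ∈ Rinf Lb τ := fun i =>
    ni_closed (Polynomial.isIntegral_coeff_of_dvd P _ hP (minpoly.monic hfin) hdvd i)
  have hfO : f ∈ O0 := hf O0 hO0
  set μ := minpoly (IntermediateField.adjoin Lb {τ}) f with hμ
  -- the constant coefficient
  have hc0 : ((μ.coeff 0 : IntermediateField.adjoin Lb {τ}) : Kb) ∈ O0.nonunits := by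
    have h2 : aeval f μ = 0 := minpoly.aeval _ f
    rw [← Polynomial.divX_mul_X_add μ, map_add, map_mul, aeval_X, aeval_C] at h2
    have h3 : ((μ.coeff 0 : IntermediateField.adjoin Lb {τ}) : Kb) = -(aeval f μ.divX) * f := by
      rw [neg_mul]
      exact eq_neg_of_add_eq_zero_right h2
    have h4 : aeval f μ.divX ∈ O0 := by
      rw [aeval_eq_sum_range]
      refine sum_mem fun i _ => ?_
      rw [Algebra.smul_def, coeff_divX]
      exact mul_mem (rinf_mem hb hO0 (hco (i + 1))) (pow_mem hfO i)
    rw [h3, ValuationSubring.mem_nonunits_iff, map_mul]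
    have h5 : O0.valuation (-(aeval f μ.divX)) ≤ 1 := by
      rw [ValuationSubring.valuation_le_one_iff]
      exact neg_mem h4
    have h6 : O0.valuation f < 1 := (O0.mem_nonunits_iff).1 h0
    refine lt_of_le_of_lt (mul_le_mul' h5 le_rfl) ?_
    rw [one_mul]
    exact h6
  rw [Algebra.norm_eq_norm_adjoin]
  have hgen : Algebra.norm (IntermediateField.adjoin Lb {τ})
      (IntermediateField.AdjoinSimple.gen (IntermediateField.adjoin Lb {τ}) f) =
      (-1) ^ μ.natDegree * μ.coeff 0 := by
    have h2 := Algebra.PowerBasis.norm_gen_eq_coeff_zero_minpoly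
      (IntermediateField.adjoin.powerBasis hfin)
    rw [IntermediateField.adjoin.powerBasis_gen, IntermediateField.adjoin.powerBasis_dim,
      IntermediateField.minpoly_gen] at h2
    exact h2
  rw [hgen]
  have hr : Module.finrank (IntermediateField.adjoin (IntermediateField.adjoin Lb {τ}) {f}) Kb ≠ 0 :=
    (Module.finrank_pos).ne'
  have h7 : (((((-1) ^ μ.natDegree * μ.coeff 0) ^
      Module.finrank (IntermediateField.adjoin (IntermediateField.adjoin Lb {τ}) {f}) Kb :
      IntermediateField.adjoin Lb {τ})) : Kb) =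
      ((-1) ^ μ.natDegree * ((μ.coeff 0 : IntermediateField.adjoin Lb {τ}) : Kb)) ^
      Module.finrank (IntermediateField.adjoin (IntermediateField.adjoin Lb {τ}) {f}) Kb := by
    push_cast
    rfl
  rw [h7, ValuationSubring.mem_nonunits_iff, map_pow, map_mul, map_pow, Valuation.map_neg,
    map_one, one_pow, one_mul]
  exact pow_lt_one₀ zero_le ((O0.mem_nonunits_iff).1 hc0) hr

end Pool.Agent.Work.MP_50269c_nt
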