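import Pool.Agent.Work.MP_50269c_nt.Defs
import Pool.Agent.Work.MP_50269c_nt.Tinf
import Pool.Agent.Work.MP_50269c_nt.KBas
import Pool.Agent.Work.MP_50269c_nt.NormF
import Pool.Agent.Work.MP_50269c_nt.NormInt

/-!
# Deg (size S-M): the degree of the determinant

Write `τ = emb A K Kb t`, `f = (∑ a_k emb (h k)) / D(τ)`, `Δ = Dl Lb M a`. `norm_eq` says that the norm of `f` is
`Δ(τ)/D(τ)^N`, `τ` is transcendental over `Lb` (`t_transc`). PROOFS.
`deg_le`: by `norm_mem`, `Δ(τ)/D(τ)^N = p(τ)/q(τ)` with `deg p ≤ deg q`; so `Δ q = D^N p`,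
`deg Δ + deg q ≤ N deg D + deg p` (if `Δ ≠ 0`; `natDegree_mul`, `natDegree_pow`).
`coeff_zero`: if the coefficient is not `0` then by `deg_le` the degree of `Δ` is `N deg D = deg D^N` and `rinf_unit`
says that the norm is not a nonunit of `O0`; but it is by `norm_nonunit`.
`coeff_ne`: `norm (f⁻¹) = (norm f)⁻¹ = D(τ)^N/Δ(τ)` is in `Rinf` by `norm_mem` for `f⁻¹`, so
`deg D^N ≤ deg Δ` (`Δ ≠ 0` as `f ≠ 0`, the norm of a nonzero element is nonzero); with `deg_le` the degree is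
exactly `N deg D`, the coefficient is the leading one.
-/

set_option autoImplicit false

noncomputable section

namespace Pool.Agent.Work.MP_50269c_nt

open NumberField IsDedekindDomain Polynomial

variable {L : Type} [Field L] [NumberField L] {Lb : Type} [Field Lb] [Algebra L Lb]
  [IsAlgClosure L Lb] {A : Type} [CommRing A] [IsDedekindDomain A] [Algebra L A] {K : Type}
  [Field K] [Algebra A K] [IsFractionRing A K] [Algebra L K] [IsScalarTower L A K] {Kb : Type}
  [Field Kb] [Algebra K Kb] [Algebra Lb Kb] [Algebra L Kb] [IsScalarTower L K Kb]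
  [IsScalarTower L Lb Kb]

variable {n : ℕ} {x : Fin n → A} {t : A} {N : ℕ} {b : Fin N → A}

private theorem deg_ne (hgeo : ∀ z : K, IsAlgebraic L z → z ∈ Set.range (algebraMap L K))
    (hb : Bas L t b) {p : Lb[X]} (hp : p ≠ 0) : aeval (emb A K Kb t) p ≠ 0 := by
  intro h
  exact hp ((transcendental_iff.1 (t_transc (Lb := Lb) (Kb := Kb) hgeo hb)) p h)

private theorem deg_inj (hgeo : ∀ z : K, IsAlgebraic L z → z ∈ Set.range (algebraMap L K))
    (hb : Bas L t b) {p q : Lb[X]} (h : aeval (emb A K Kb t) p = aeval (emb A K Kb t) q) :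
    p = q := by
  have h1 : aeval (emb A K Kb t) (p - q) = 0 := by rw [map_sub, h, sub_self]
  exact sub_eq_zero.1 ((transcendental_iff.1 (t_transc (Lb := Lb) (Kb := Kb) hgeo hb)) _ h1)

theorem deg_le (hx : Algebra.adjoin L (Set.range x) = ⊤)
    (hgeo : ∀ z : K, IsAlgebraic L z → z ∈ Set.range (algebraMap L K))
    (hKb : IntermediateField.adjoin Lb (Set.range (algebraMap K Kb)) = ⊤) (hb : Bas L t b)
    {m : ℕ} {h : Fin m → A} {M : Fin m → Matrix (Fin N) (Fin N) L[X]}
    (hM : ∀ k, IsMat L t b (h k) (M k)) (a : Fin m → Lb) {D : Lb[X]} (hD : D ≠ 0)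
    (hf : ∀ O : ValuationSubring Kb, AtInf Lb (fun i => emb A K Kb (x i)) O →
      (∑ k, algebraMap Lb Kb (a k) * emb A K Kb (h k)) / aeval (emb A K Kb t) D ∈ O) :
    (Dl Lb M a).natDegree ≤ N * D.natDegree := by
  haveI := norm_finite (Lb := Lb) (Kb := Kb) hgeo hKb hb
  obtain ⟨p, q, hq, hpq, he⟩ := norm_mem hx hgeo hKb hb hf
  rw [norm_eq hgeo hKb hb hM a hD] at he
  have hD' := deg_ne (Kb := Kb) hgeo hb hD
  have hq0 : q ≠ 0 := fun h => hq (by rw [h, map_zero])
  rw [div_eq_div_iff (pow_ne_zero _ hD') hq, ← map_pow, ← map_mul, ← map_mul] at he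
  have h1 := deg_inj hgeo hb he
  by_cases h0 : Dl Lb M a = 0
  · rw [h0, natDegree_zero]
    exact Nat.zero_le _
  · have hp0 : p ≠ 0 := by
      intro h
      rw [h, zero_mul] at h1
      exact mul_ne_zero h0 hq0 h1
    have h2 := congrArg natDegree h1
    rw [natDegree_mul h0 hq0, natDegree_mul hp0 (pow_ne_zero _ hD), natDegree_pow] at h2
    omega

theorem coeff_zero (hx : Algebra.adjoin L (Set.range x) = ⊤)
    (hgeo : ∀ z : K, IsAlgebraic L z → z ∈ Set.range (algebraMap L K))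
    (hKb : IntermediateField.adjoin Lb (Set.range (algebraMap K Kb)) = ⊤) (hb : Bas L t b)
    {m : ℕ} {h : Fin m → A} {M : Fin m → Matrix (Fin N) (Fin N) L[X]}
    (hM : ∀ k, IsMat L t b (h k) (M k)) (a : Fin m → Lb) {D : Lb[X]} (hD : D ≠ 0)
    (hf : ∀ O : ValuationSubring Kb, AtInf Lb (fun i => emb A K Kb (x i)) O →
      (∑ k, algebraMap Lb Kb (a k) * emb A K Kb (h k)) / aeval (emb A K Kb t) D ∈ O)
    {O0 : ValuationSubring Kb} (hO0 : AtInf Lb (fun i => emb A K Kb (x i)) O0)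
    (h0 : (∑ k, algebraMap Lb Kb (a k) * emb A K Kb (h k)) / aeval (emb A K Kb t) D ∈
      O0.nonunits) :
    (Dl Lb M a).coeff (N * D.natDegree) = 0 := by
  by_contra hc
  haveI := norm_finite (Lb := Lb) (Kb := Kb) hgeo hKb hb
  have h1 := deg_le hx hgeo hKb hb hM a hD hf
  have h2 := le_natDegree_of_ne_zero hc
  have h3 : Dl Lb M a ≠ 0 := by
    intro h
    rw [h, Polynomial.coeff_zero] at hc
    exact hc rfl
  have h4 := norm_nonunit hx hgeo hKb hb hf hO0 h0
  rw [norm_eq hgeo hKb hb hM a hD, ← map_pow] at h4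
  refine rinf_unit hb hO0 h3 (pow_ne_zero N hD) ?_ h4
  rw [natDegree_pow]
  omega

theorem coeff_ne (hx : Algebra.adjoin L (Set.range x) = ⊤)
    (hgeo : ∀ z : K, IsAlgebraic L z → z ∈ Set.range (algebraMap L K))
    (hKb : IntermediateField.adjoin Lb (Set.range (algebraMap K Kb)) = ⊤) (hb : Bas L t b)
    {m : ℕ} {h : Fin m → A} {M : Fin m → Matrix (Fin N) (Fin N) L[X]}
    (hM : ∀ k, IsMat L t b (h k) (M k)) (a : Fin m → Lb) {D : Lb[X]} (hD : D ≠ 0)
    (hf : ∀ O : ValuationSubring Kb, AtInf Lb (fun i => emb A K Kb (x i)) O →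
      (∑ k, algebraMap Lb Kb (a k) * emb A K Kb (h k)) / aeval (emb A K Kb t) D ∈ O)
    (hne : ∑ k, algebraMap Lb Kb (a k) * emb A K Kb (h k) ≠ 0)
    (hf' : ∀ O : ValuationSubring Kb, AtInf Lb (fun i => emb A K Kb (x i)) O →
      ((∑ k, algebraMap Lb Kb (a k) * emb A K Kb (h k)) / aeval (emb A K Kb t) D)⁻¹ ∈ O) :
    (Dl Lb M a).coeff (N * D.natDegree) ≠ 0 := by
  haveI := norm_finite (Lb := Lb) (Kb := Kb) hgeo hKb hb
  have h1 := deg_le hx hgeo hKb hb hM a hD hf
  have hD' := deg_ne (Kb := Kb) hgeo hb hD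
  have hf0 : (∑ k, algebraMap Lb Kb (a k) * emb A K Kb (h k)) / aeval (emb A K Kb t) D ≠ 0 :=
    div_ne_zero hne hD'
  have hnn := norm_eq hgeo hKb hb hM a hD
  obtain ⟨p, q, hq, hpq, he⟩ := norm_mem hx hgeo hKb hb hf'
  generalize (∑ k, algebraMap Lb Kb (a k) * emb A K Kb (h k)) / aeval (emb A K Kb t) D = f at *
  have hmul : Algebra.norm (IntermediateField.adjoin Lb {emb A K Kb t}) f *
      Algebra.norm (IntermediateField.adjoin Lb {emb A K Kb t}) f⁻¹ = 1 := by
    rw [← map_mul, mul_inv_cancel₀ hf0, map_one]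
  have hmul' : ((Algebra.norm (IntermediateField.adjoin Lb {emb A K Kb t}) f :
      IntermediateField.adjoin Lb {emb A K Kb t}) : Kb) *
      ((Algebra.norm (IntermediateField.adjoin Lb {emb A K Kb t}) f⁻¹ :
      IntermediateField.adjoin Lb {emb A K Kb t}) : Kb) = 1 := by
    rw [← IntermediateField.coe_mul, hmul]
    rfl
  rw [hnn, he] at hmul'
  have hq0 : q ≠ 0 := fun h => hq (by rw [h, map_zero])
  have h0 : Dl Lb M a ≠ 0 := by
    intro h
    rw [h, map_zero, zero_div, zero_mul] at hmul'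
    exact zero_ne_one hmul'
  have hp0 : p ≠ 0 := by
    intro h
    rw [h, map_zero, zero_div, mul_zero] at hmul'
    exact zero_ne_one hmul'
  rw [div_mul_div_comm, div_eq_one_iff_eq (mul_ne_zero (pow_ne_zero _ hD') hq), ← map_pow,
    ← map_mul, ← map_mul] at hmul'
  have h2 := congrArg natDegree (deg_inj hgeo hb hmul')
  rw [natDegree_mul h0 hp0, natDegree_mul (pow_ne_zero _ hD) hq0, natDegree_pow] at h2
  have h3 : N * D.natDegree = (Dl Lb M a).natDegree := by omega
  rw [h3]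
  exact leadingCoeff_ne_zero.2 h0

end Pool.Agent.Work.MP_50269c_nt
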