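import Pool.Agent.Work.MP_50269c_nt.Defs
import Pool.Agent.Work.MP_50269c_nt.KBas

/-!
# DetNe (size S-M): the determinant of a nonzero element is nonzero

PROOF. Let `M = ∑ k, C (a k) • (M k).map ...` over `Lb[X]` and `h = ∑ a_k emb (h k) ∈ Kb`. From `hM`, mapped to
`Kb`: `h * emb (b j) = ∑ i, aeval τ (M i j) * emb (b i)`. If `det M = 0` there is `v ≠ 0` in `Lb[X]^N` with
`M.mulVec v = 0` (`Matrix.exists_mulVec_eq_zero_iff`), so `h * ∑_j v_j(τ) emb (b j) = 0`. The second factor is
nonzero by `kbas_ind`, so `h = 0`, contradiction with `hne`.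
-/

set_option autoImplicit false

noncomputable section

namespace Pool.Agent.Work.MP_50269c_nt

open NumberField IsDedekindDomain Polynomial

variable {L : Type} [Field L] [NumberField L] {Lb : Type} [Field Lb] [Algebra L Lb]
  [IsAlgClosure L Lb] {A : Type} [CommRing A] [IsDedekindDomain A] [Algebra L A] {K : Type}
  [Field K] [Algebra A K] [IsFractionRing A K] [Algebra L K] [IsScalarTower L A K] {Kb : Type}
  [Field Kb] [Algebra K Kb] [Algebra Lb Kb] [Algebra L Kb] [IsScalarTower L K Kb]
  [IsScalarTower L Lb Kb]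

variable {t : A} {N : ℕ} {b : Fin N → A}

omit [NumberField L] [IsAlgClosure L Lb] [IsDedekindDomain A] [IsFractionRing A K] in
private theorem emb_aeval (p : L[X]) : emb A K Kb (aeval t p) =
    aeval (emb A K Kb t) (p.map (algebraMap L Lb)) := by
  have hcomp : (emb A K Kb).comp (algebraMap L A) = (algebraMap Lb Kb).comp (algebraMap L Lb) := by
    ext c
    change algebraMap K Kb (algebraMap A K (algebraMap L A c)) =
      algebraMap Lb Kb (algebraMap L Lb c)
    rw [← IsScalarTower.algebraMap_apply L A K, ← IsScalarTower.algebraMap_apply L K Kb,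
      ← IsScalarTower.algebraMap_apply L Lb Kb]
  rw [Polynomial.aeval_def, Polynomial.hom_eval₂, hcomp, Polynomial.aeval_def,
    Polynomial.eval₂_map]

theorem det_ne (hgeo : ∀ z : K, IsAlgebraic L z → z ∈ Set.range (algebraMap L K))
    (hb : Bas L t b) {m : ℕ} {h : Fin m → A} {M : Fin m → Matrix (Fin N) (Fin N) L[X]}
    (hM : ∀ k, IsMat L t b (h k) (M k)) (a : Fin m → Lb)
    (hne : ∑ k, algebraMap Lb Kb (a k) * emb A K Kb (h k) ≠ 0) : Dl Lb M a ≠ 0 := by
  intro hdet
  unfold Dl at hdet
  set MM : Matrix (Fin N) (Fin N) Lb[X] :=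
    ∑ k, (C (a k)) • (M k).map (Polynomial.map (algebraMap L Lb)) with hMM
  obtain ⟨v, hv0, hv⟩ := Matrix.exists_mulVec_eq_zero_iff.2 hdet
  have hent : ∀ i j, MM i j = ∑ k, C (a k) * (M k i j).map (algebraMap L Lb) := by
    intro i j
    rw [hMM, Matrix.sum_apply]
    rfl
  set H : Kb := ∑ k, algebraMap Lb Kb (a k) * emb A K Kb (h k) with hH
  have key : ∀ j, H * emb A K Kb (b j) =
      ∑ i, aeval (emb A K Kb t) (MM i j) * emb A K Kb (b i) := by
    intro j
    have h1 : ∀ k, emb A K Kb (h k) * emb A K Kb (b j) =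
        ∑ i, aeval (emb A K Kb t) ((M k i j).map (algebraMap L Lb)) * emb A K Kb (b i) := by
      intro k
      rw [← map_mul, hM k j, map_sum]
      refine Finset.sum_congr rfl fun i _ => ?_
      rw [map_mul, emb_aeval (Lb := Lb)]
    rw [hH, Finset.sum_mul]
    simp_rw [mul_assoc, h1, hent, map_sum, map_mul, Finset.mul_sum, Finset.sum_mul]
    rw [Finset.sum_comm]
    refine Finset.sum_congr rfl fun i _ => Finset.sum_congr rfl fun k _ => ?_
    rw [Polynomial.aeval_C, mul_assoc]
  have hz : H * ∑ j, aeval (emb A K Kb t) (v j) * emb A K Kb (b j) = 0 := by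
    rw [Finset.mul_sum]
    have h2 : ∀ j, H * (aeval (emb A K Kb t) (v j) * emb A K Kb (b j)) =
        ∑ i, aeval (emb A K Kb t) (MM i j * v j) * emb A K Kb (b i) := by
      intro j
      rw [mul_left_comm, key j, Finset.mul_sum]
      refine Finset.sum_congr rfl fun i _ => ?_
      rw [map_mul]
      ring
    simp_rw [h2]
    rw [Finset.sum_comm]
    refine Finset.sum_eq_zero fun i _ => ?_
    rw [← Finset.sum_mul, ← map_sum]
    have h3 : ∑ j, MM i j * v j = 0 := by
      have := congrFun hv i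
      simpa [Matrix.mulVec, dotProduct] using this
    rw [h3, map_zero, zero_mul]
  rcases mul_eq_zero.1 hz with h4 | h4
  · exact hne h4
  · exact hv0 (kbas_ind hgeo hb h4)

end Pool.Agent.Work.MP_50269c_nt
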