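import Pool.Agent.Work.MP_50269c_nt.Defs

/-!
# Forms (size M): the coefficients of `det (∑ a_k M_k)` are forms in the `a_k`

PROOFS. `forms`: let `R = MvPolynomial (Fin m) L` and let `Mu` be the matrix over `R[X]` which is
`∑ k, C (X k) • (M k).map (Polynomial.map (MvPolynomial.C))`; put `G l = Mu.det.coeff l`. For `F`, `a` apply the
ring homomorphism `Polynomial.mapRingHom (MvPolynomial.aeval a)` to the determinant (`RingHom.map_det`): the
entries match, so `Dl F M a` is the image of `Mu.det`; compare coefficients. Homogeneity: every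
coefficient of every entry of `Mu` is homogeneous of degree 1 in `R` (a sum of `c * X k`); a coefficient of a product of
`N` entries is a sum of products of `N` of those (`Polynomial.coeff_prod...`, or prove by induction on
the finite set: if all coefficients of `P`, `Q` are homogeneous of degrees `i`, `j` then those of `P Q` are
homogeneous of degree `i + j`, by `Polynomial.coeff_mul`); the determinant is a signed sum of such products.
`exists_mat`: `hb (h * b j)`. `isMat_sum`: compute. `Dl_map`: `RingHom.map_det` and the tower.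
`Dl_self`: over `F = L` the maps are identities.
-/

set_option autoImplicit false

noncomputable section

namespace Pool.Agent.Work.MP_50269c_nt

open Polynomial

private theorem sum_entry {R : Type} [CommRing R] {L : Type} [Field L] {m N : ℕ}
    (M : Fin m → Matrix (Fin N) (Fin N) L[X]) (c : Fin m → R[X]) (f : L[X] → R[X]) (i j : Fin N) :
    (∑ k, c k • (M k).map f) i j = ∑ k, c k * f (M k i j) := by
  rw [Matrix.sum_apply]
  rfl

private theorem hom_prod {L : Type} [Field L] {m : ℕ} {ι : Type} (s : Finset ι)
    (P : ι → (MvPolynomial (Fin m) L)[X]) (hP : ∀ i l, ((P i).coeff l).IsHomogeneous 1) :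
    ∀ l, ((∏ i ∈ s, P i).coeff l).IsHomogeneous s.card := by
  classical
  induction s using Finset.induction_on with
  | empty =>
    intro l
    rw [Finset.prod_empty, Finset.card_empty, Polynomial.coeff_one]
    split_ifs
    · exact MvPolynomial.isHomogeneous_one _ _
    · exact MvPolynomial.isHomogeneous_zero _ _ _
  | insert a s ha ih =>
    intro l
    rw [Finset.prod_insert ha, Finset.card_insert_of_notMem ha, Polynomial.coeff_mul, add_comm]
    refine MvPolynomial.IsHomogeneous.sum _ _ _ fun x _ => ?_
    exact (hP a x.1).mul (ih x.2)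

theorem forms {L : Type} [Field L] {m N : ℕ} (M : Fin m → Matrix (Fin N) (Fin N) L[X]) :
    ∃ G : ℕ → MvPolynomial (Fin m) L, (∀ l, (G l).IsHomogeneous N) ∧
      ∀ (F : Type) [Field F] [Algebra L F] (a : Fin m → F) (l : ℕ),
        (Dl F M a).coeff l = MvPolynomial.aeval a (G l) := by
  classical
  let f : L[X] → (MvPolynomial (Fin m) L)[X] := Polynomial.map MvPolynomial.C
  let Mu : Matrix (Fin N) (Fin N) (MvPolynomial (Fin m) L)[X] :=
    ∑ k, (C (MvPolynomial.X k : MvPolynomial (Fin m) L)) • (M k).map f
  have hent : ∀ i j, Mu i j = ∑ k, C (MvPolynomial.X k : MvPolynomial (Fin m) L) * f (M k i j) :=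
    fun i j => sum_entry M (fun k => C (MvPolynomial.X k : MvPolynomial (Fin m) L)) f i j
  refine ⟨fun l => Mu.det.coeff l, ?_, ?_⟩
  · intro l
    have h1 : ∀ i j l, ((Mu i j).coeff l).IsHomogeneous 1 := by
      intro i j l
      rw [hent, Polynomial.finset_sum_coeff]
      refine MvPolynomial.IsHomogeneous.sum _ _ _ fun k _ => ?_
      rw [Polynomial.coeff_C_mul]
      have h2 : (f (M k i j)).coeff l = MvPolynomial.C ((M k i j).coeff l) := Polynomial.coeff_map _ _
      rw [h2]
      exact (MvPolynomial.isHomogeneous_X L k).mul (MvPolynomial.isHomogeneous_C _ _)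
    change (Mu.det.coeff l).IsHomogeneous N
    rw [Matrix.det_apply, Polynomial.finset_sum_coeff]
    refine MvPolynomial.IsHomogeneous.sum _ _ _ fun σ _ => ?_
    have h3 := hom_prod Finset.univ (fun i => Mu (σ i) i) (fun i l => h1 (σ i) i l) l
    rw [Finset.card_univ, Fintype.card_fin] at h3
    rw [← MvPolynomial.mem_homogeneousSubmodule] at h3 ⊢
    rcases Int.units_eq_one_or (Equiv.Perm.sign σ) with hs | hs
    · rw [hs, one_smul]
      exact h3
    · rw [hs, Units.neg_smul, one_smul, Polynomial.coeff_neg]
      exact Submodule.neg_mem _ h3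
  · intro F _ _ a l
    change (Dl F M a).coeff l = MvPolynomial.aeval a (Mu.det.coeff l)
    let φ : MvPolynomial (Fin m) L →+* F := (MvPolynomial.aeval a : MvPolynomial (Fin m) L →ₐ[L] F)
    have h4 : Dl F M a = Polynomial.mapRingHom φ Mu.det := by
      rw [RingHom.map_det]
      unfold Dl
      congr 1
      ext1 i j
      rw [RingHom.mapMatrix_apply, Matrix.map_apply, hent,
        sum_entry M (fun k => C (a k)) (Polynomial.map (algebraMap L F)) i j, map_sum]
      refine Finset.sum_congr rfl fun k _ => ?_
      rw [map_mul, Polynomial.coe_mapRingHom, Polynomial.map_C]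
      have h5 : φ (MvPolynomial.X k) = a k := MvPolynomial.aeval_X _ _
      have h6 : Polynomial.map φ (f (M k i j)) = Polynomial.map (algebraMap L F) (M k i j) := by
        change Polynomial.map φ (Polynomial.map MvPolynomial.C (M k i j)) = _
        rw [Polynomial.map_map]
        congr 1
        ext c
        exact MvPolynomial.aeval_C _ _
      rw [h5, h6]
    rw [h4, Polynomial.coe_mapRingHom, Polynomial.coeff_map]
    rfl

theorem exists_mat {L : Type} [Field L] {A : Type} [CommRing A] [Algebra L A] {t : A} {N : ℕ}
    {b : Fin N → A} (hb : Bas L t b) (h : A) :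
    ∃ M : Matrix (Fin N) (Fin N) L[X], IsMat L t b h M := by
  choose c hc using fun j => (hb (h * b j)).exists
  exact ⟨fun i j => c j i, fun j => hc j⟩

theorem isMat_sum {L : Type} [Field L] {A : Type} [CommRing A] [Algebra L A] {t : A} {m N : ℕ}
    {b : Fin N → A} {h : Fin m → A} {M : Fin m → Matrix (Fin N) (Fin N) L[X]}
    (hM : ∀ k, IsMat L t b (h k) (M k)) (a : Fin m → L) :
    IsMat L t b (∑ k, algebraMap L A (a k) * h k)
      (∑ k, (C (a k)) • (M k).map (Polynomial.map (algebraMap L L))) := by
  intro j
  have h1 : ∀ i, aeval t ((∑ k, (C (a k)) • (M k).map (Polynomial.map (algebraMap L L))) i j) =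
      ∑ k, algebraMap L A (a k) * aeval t (M k i j) := by
    intro i
    rw [sum_entry M (fun k => C (a k)) (Polynomial.map (algebraMap L L)) i j, map_sum]
    refine Finset.sum_congr rfl fun k _ => ?_
    rw [map_mul, aeval_C, Algebra.algebraMap_self, Polynomial.map_id]
  simp only [h1]
  rw [Finset.sum_mul]
  simp only [Finset.sum_mul]
  rw [Finset.sum_comm]
  refine Finset.sum_congr rfl fun k _ => ?_
  rw [mul_assoc, hM k j, Finset.mul_sum]
  exact Finset.sum_congr rfl fun i _ => (mul_assoc _ _ _).symm

theorem Dl_map {L : Type} [Field L] {E F : Type} [Field E] [Field F] [Algebra L E] [Algebra L F]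
    [Algebra E F] [IsScalarTower L E F] {m N : ℕ} (M : Fin m → Matrix (Fin N) (Fin N) L[X])
    (a : Fin m → E) :
    (Dl E M a).map (algebraMap E F) = Dl F M (fun k => algebraMap E F (a k)) := by
  unfold Dl
  rw [← Polynomial.coe_mapRingHom, RingHom.map_det]
  congr 1
  ext1 i j
  rw [RingHom.mapMatrix_apply, Matrix.map_apply,
    sum_entry M (fun k => C (a k)) (Polynomial.map (algebraMap L E)) i j,
    sum_entry M (fun k => C (algebraMap E F (a k))) (Polynomial.map (algebraMap L F)) i j, map_sum]
  refine Finset.sum_congr rfl fun k _ => ?_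
  rw [map_mul, Polynomial.coe_mapRingHom, Polynomial.map_C, Polynomial.map_map,
    ← IsScalarTower.algebraMap_eq]

end Pool.Agent.Work.MP_50269c_nt
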