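import Pool.Agent.Work.MP_50269c_nt.Defs

/-!
# IntR (size S): points with the same kernel are integral together; change of the ring

PROOFS. `int_root`: let `Q` be monic over `S.integer L` with `Q(P y) = 0`, then `P (Q(y)) = 0` (`aeval` commutes
with the `L`-algebra map `P`; map `Q` to `L[X]`), so `P' (Q(y)) = 0`, i.e. `Q(P' y) = 0`.
`int_up`: map the coefficients of the monic polynomial from `S.integer L` to `T.integer E` (`hST`, and
`tint_iff` written out: membership in `T.integer E` for `algebraMap L E z`).
`int_poly`: `P y = aeval (fun i => P (x i)) F`-type computation: `y` is a polynomial in the `x i` with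
coefficients in `L`; here `F : MvPolynomial (Fin n) L` with `aeval x F = y`, `P y = aeval (P ∘ x) F`, a sum of
products of coefficients (integral, in `T.integer E`) and integral elements.
-/

set_option autoImplicit false

noncomputable section

namespace Pool.Agent.Work.MP_50269c_nt

open NumberField IsDedekindDomain Polynomial

theorem int_root {L : Type} [Field L] [NumberField L] {Lb : Type} [Field Lb] [Algebra L Lb]
    {A : Type} [CommRing A] [Algebra L A] (S : Finset (HeightOneSpectrum (𝓞 L)))
    {P P' : A →ₐ[L] Lb} (hker : ∀ y, P y = 0 → P' y = 0) {y : A}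
    (hP : IsIntegral ((S : Set (HeightOneSpectrum (𝓞 L))).integer L) (P y)) :
    IsIntegral ((S : Set (HeightOneSpectrum (𝓞 L))).integer L) (P' y) := by
  obtain ⟨Q, hQ, h⟩ := hP
  refine ⟨Q, hQ, ?_⟩
  have key : ∀ R : A →ₐ[L] Lb, eval₂ (algebraMap ((S : Set (HeightOneSpectrum (𝓞 L))).integer L) Lb)
      (R y) Q = R (aeval y (Q.map
        (algebraMap ((S : Set (HeightOneSpectrum (𝓞 L))).integer L) L))) := by
    intro R
    rw [← aeval_algHom_apply, aeval_def, eval₂_map]
    rfl
  rw [key] at h ⊢
  exact hker _ h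

theorem int_up {L : Type} [Field L] [NumberField L] {Lb : Type} [Field Lb] [Algebra L Lb]
    {E : Type} [Field E] [NumberField E] [Algebra L E] [Algebra E Lb] [IsScalarTower L E Lb]
    (S : Finset (HeightOneSpectrum (𝓞 L))) (T : Finset (HeightOneSpectrum (𝓞 E)))
    (hST : ∀ z : L, z ∈ (S : Set (HeightOneSpectrum (𝓞 L))).integer L →
      algebraMap L E z ∈ (T : Set (HeightOneSpectrum (𝓞 E))).integer E) {z : Lb}
    (hz : IsIntegral ((S : Set (HeightOneSpectrum (𝓞 L))).integer L) z) :
    IsIntegral ((T : Set (HeightOneSpectrum (𝓞 E))).integer E) z := by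
  obtain ⟨Q, hQ, h⟩ := hz
  let φ : (S : Set (HeightOneSpectrum (𝓞 L))).integer L →+*
      (T : Set (HeightOneSpectrum (𝓞 E))).integer E :=
    { toFun := fun w => ⟨algebraMap L E w, hST w w.2⟩
      map_one' := by ext; simp
      map_mul' := by intro a b; ext; simp
      map_zero' := by ext; simp
      map_add' := by intro a b; ext; simp }
  refine ⟨Q.map φ, hQ.map φ, ?_⟩
  rw [eval₂_map]
  have hφ : (algebraMap ((T : Set (HeightOneSpectrum (𝓞 E))).integer E) Lb).comp φ =
      algebraMap ((S : Set (HeightOneSpectrum (𝓞 L))).integer L) Lb := by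
    ext w
    exact (IsScalarTower.algebraMap_apply L E Lb (w : L)).symm
  rw [hφ]
  exact h

theorem int_poly {L : Type} [Field L] [NumberField L] {Lb : Type} [Field Lb] [Algebra L Lb]
    {E : Type} [Field E] [NumberField E] [Algebra L E] [Algebra E Lb] [IsScalarTower L E Lb]
    {A : Type} [CommRing A] [Algebra L A] {n : ℕ} {x : Fin n → A} {t : A}
    (T : Finset (HeightOneSpectrum (𝓞 E))) {F : MvPolynomial (Fin n) L}
    (hF : MvPolynomial.aeval x F = t)
    (hFT : ∀ s, algebraMap L E (F.coeff s) ∈ (T : Set (HeightOneSpectrum (𝓞 E))).integer E)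
    {P : A →ₐ[L] Lb}
    (hP : ∀ i, IsIntegral ((T : Set (HeightOneSpectrum (𝓞 E))).integer E) (P (x i))) :
    IsIntegral ((T : Set (HeightOneSpectrum (𝓞 E))).integer E) (P t) := by
  have h1 : P t = ∑ s ∈ F.support, algebraMap L Lb (F.coeff s) * ∏ i, P (x i) ^ s i := by
    rw [← hF, MvPolynomial.aeval_def, MvPolynomial.eval₂_eq', map_sum]
    refine Finset.sum_congr rfl fun s _ => ?_
    rw [map_mul, map_prod, AlgHom.commutes]
    refine congrArg _ (Finset.prod_congr rfl fun i _ => ?_)
    rw [map_pow]
  rw [h1]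
  refine IsIntegral.sum _ fun s _ => ?_
  refine IsIntegral.mul ?_ (IsIntegral.prod _ fun i _ => (hP i).pow _)
  have h2 : algebraMap L Lb (F.coeff s) =
      algebraMap ((T : Set (HeightOneSpectrum (𝓞 E))).integer E) Lb
        ⟨algebraMap L E (F.coeff s), hFT s⟩ :=
    IsScalarTower.algebraMap_apply L E Lb (F.coeff s)
  rw [h2]
  exact isIntegral_algebraMap

end Pool.Agent.Work.MP_50269c_nt
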