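import Pool.Agent.Work.MP_50269c_nt.Defs

/-!
# LinDiv (size M): a polynomial vanishing on a hyperplane is divisible by the linear form

PROOF. Let `c k0 ≠ 0` and `Λ = ∑ k, C (c k) * X k`. Modulo `Λ` the variable `X k0` is congruent to
`Y = C (c k0)⁻¹ * (X k0 * C (c k0) - Λ) = - ∑_{k ≠ k0} C (c k / c k0) * X k`. So `G` is congruent modulo `Λ` to
`G' = bind₁ (fun k => if k = k0 then Y else X k) G` (the difference is in the ideal `(Λ)`: the two
`F`-algebra maps `MvPolynomial → MvPolynomial ⧸ (Λ)` agree on the variables). Evaluate `G'` at any `a`: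
it is `G` at the point `a'` with `a'_k = a_k` for `k ≠ k0` and
`a'_{k0} = - ∑_{k ≠ k0} (c k / c k0) a_k`, which is on the hyperplane, so `G'` vanishes everywhere and is `0`
(`MvPolynomial.funext`, `F` infinite). So `Λ ∣ G`.
-/

set_option autoImplicit false

noncomputable section

namespace Pool.Agent.Work.MP_50269c_nt

open Polynomial

theorem linDiv {F : Type} [Field F] [Infinite F] {m : ℕ} {c : Fin m → F} (hc : c ≠ 0)
    {G : MvPolynomial (Fin m) F}
    (h : ∀ a : Fin m → F, ∑ k, c k * a k = 0 → MvPolynomial.eval a G = 0) :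
    (∑ k, MvPolynomial.C (c k) * MvPolynomial.X k) ∣ G := by
  classical
  obtain ⟨k0, hk0⟩ : ∃ k, c k ≠ 0 := by
    by_contra hcon
    push Not at hcon
    exact hc (funext hcon)
  set L : MvPolynomial (Fin m) F := ∑ k, MvPolynomial.C (c k) * MvPolynomial.X k with hL
  set f : Fin m → MvPolynomial (Fin m) F := fun k =>
    MvPolynomial.X k - (if k = k0 then MvPolynomial.C (c k0)⁻¹ * L else 0) with hf
  have h1 : L ∣ G - MvPolynomial.aeval f G := by
    have h2 : (Ideal.Quotient.mkₐ F (Ideal.span {L})).comp (MvPolynomial.aeval f) =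
        Ideal.Quotient.mkₐ F (Ideal.span {L}) := by
      apply MvPolynomial.algHom_ext
      intro k
      rw [AlgHom.comp_apply, MvPolynomial.aeval_X]
      rw [Ideal.Quotient.mkₐ_eq_mk, Ideal.Quotient.mk_eq_mk_iff_sub_mem, Ideal.mem_span_singleton]
      simp only [hf]
      split_ifs with hk
      · have : MvPolynomial.X k - MvPolynomial.C (c k0)⁻¹ * L - MvPolynomial.X k =
            L * (- MvPolynomial.C (c k0)⁻¹) := by ring
        rw [this]
        exact dvd_mul_right _ _
      · simp
    have h3 : Ideal.Quotient.mk (Ideal.span {L}) G =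
        Ideal.Quotient.mk (Ideal.span {L}) (MvPolynomial.aeval f G) := by
      have := AlgHom.congr_fun h2 G
      rw [AlgHom.comp_apply, Ideal.Quotient.mkₐ_eq_mk] at this
      exact this.symm
    rw [Ideal.Quotient.mk_eq_mk_iff_sub_mem, Ideal.mem_span_singleton] at h3
    exact h3
  have h4 : MvPolynomial.aeval f G = 0 := by
    apply MvPolynomial.funext
    intro a
    rw [map_zero]
    have key : ∀ P : MvPolynomial (Fin m) F, MvPolynomial.eval a (MvPolynomial.aeval f P) =
        MvPolynomial.eval (fun k => MvPolynomial.eval a (f k)) P := by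
      intro P
      induction P using MvPolynomial.induction_on with
      | C x => simp
      | add p q hp hq => rw [map_add, map_add, map_add, hp, hq]
      | mul_X p i hp => rw [map_mul, map_mul, map_mul, hp, MvPolynomial.aeval_X, MvPolynomial.eval_X]
    rw [key]
    apply h
    have hLa : MvPolynomial.eval a L = ∑ k, c k * a k := by
      rw [hL, map_sum]
      exact Finset.sum_congr rfl (fun k _ => by simp)
    have h5 : ∀ k, c k * MvPolynomial.eval a (f k) =
        c k * a k - (if k = k0 then c k0 * ((c k0)⁻¹ * ∑ k, c k * a k) else 0) := by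
      intro k
      simp only [hf]
      split_ifs with hk
      · rw [map_sub, map_mul, MvPolynomial.eval_X, MvPolynomial.eval_C, hLa, hk]
        ring
      · rw [sub_zero, sub_zero, MvPolynomial.eval_X]
    rw [Finset.sum_congr rfl (fun k _ => h5 k), Finset.sum_sub_distrib, Finset.sum_ite_eq',
      if_pos (Finset.mem_univ k0), ← mul_assoc, mul_inv_cancel₀ hk0, one_mul, sub_self]
  rw [h4, sub_zero] at h1
  exact h1

end Pool.Agent.Work.MP_50269c_nt
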