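import Mathlib

/-!
# Nu: nonunits of valuation rings
-/

set_option autoImplicit false

noncomputable section

namespace Pool.Agent.Work.MP_50269c_nt

theorem nu_mul {F : Type} [Field F] {O : ValuationSubring F} {a b : F} (ha : a ∈ O)
    (hb : b ∈ O.nonunits) : a * b ∈ O.nonunits := by
  rw [ValuationSubring.mem_nonunits_iff] at hb ⊢
  rw [map_mul]
  have h1 : O.valuation a ≤ 1 := (ValuationSubring.valuation_le_one_iff O a).mpr ha
  calc O.valuation a * O.valuation b ≤ 1 * O.valuation b := by gcongr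
    _ < 1 := by rwa [one_mul]

theorem nu_sum {F : Type} [Field F] {O : ValuationSubring F} {ι : Type} (s : Finset ι)
    {f : ι → F} (h : ∀ i ∈ s, f i ∈ O.nonunits) : ∑ i ∈ s, f i ∈ O.nonunits := by
  rw [ValuationSubring.mem_nonunits_iff]
  exact Valuation.map_sum_lt _ one_ne_zero fun i hi => (ValuationSubring.mem_nonunits_iff O).mp (h i hi)

theorem nu_sub {F : Type} [Field F] {O : ValuationSubring F} {a b : F} (ha : a ∈ O.nonunits)
    (hb : b ∈ O.nonunits) : a - b ∈ O.nonunits := by
  rw [ValuationSubring.mem_nonunits_iff] at ha hb ⊢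
  exact (Valuation.map_sub _ _ _).trans_lt (max_lt ha hb)

theorem nu_add {F : Type} [Field F] {O : ValuationSubring F} {a b : F} (ha : a ∈ O.nonunits)
    (hb : b ∈ O.nonunits) : a + b ∈ O.nonunits := by
  rw [ValuationSubring.mem_nonunits_iff] at ha hb ⊢
  exact (Valuation.map_add _ _ _).trans_lt (max_lt ha hb)

theorem nu_mem {F : Type} [Field F] {O : ValuationSubring F} {a : F} (ha : a ∈ O.nonunits) :
    a ∈ O := by
  rw [ValuationSubring.mem_nonunits_iff] at ha
  exact (ValuationSubring.valuation_le_one_iff O a).mp ha.le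

theorem nu_inv {F : Type} [Field F] {O : ValuationSubring F} {a : F} (ha : a ≠ 0)
    (h : a ∈ O.nonunits) : a⁻¹ ∉ O := by
  intro h1
  have h2 := nu_mul h1 h
  rw [inv_mul_cancel₀ ha, ValuationSubring.mem_nonunits_iff, map_one] at h2
  exact lt_irrefl _ h2

theorem not_nu {F : Type} [Field F] {O : ValuationSubring F} {a : F}
    (h : a ∉ O.nonunits) : a⁻¹ ∈ O := by
  rw [ValuationSubring.mem_nonunits_iff, not_lt] at h
  rw [← ValuationSubring.valuation_le_one_iff, map_inv₀]
  exact inv_le_one_of_one_le₀ h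
end Pool.Agent.Work.MP_50269c_nt
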