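import Pool.Agent.Work.MP_50269c_nt.Defs

/-!
# Null (size S-M): Nullstellensatz for forms

PROOF. Let `I` be the ideal generated by the `G l`. Every `X k` vanishes on `zeroLocus Lb I` (a point of it is a common
zero of the `G l`, so `0` by `hz`), so `X k ∈ I.radical` by
`MvPolynomial.vanishingIdeal_zeroLocus_eq_radical` (it holds for the algebraically closed extension `Lb` of
`L`; `IsAlgClosure.isAlgClosed L`). So `X k ^ N_k ∈ I`, `N' = max N_k` works for all `k`, and membership
in `Ideal.span (Set.range G)` gives the `H k l` (`Ideal.mem_span_range_iff_exists_fun`).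
-/

set_option autoImplicit false

noncomputable section

namespace Pool.Agent.Work.MP_50269c_nt

open Polynomial

theorem null {L : Type} [Field L] {Lb : Type} [Field Lb] [Algebra L Lb] [IsAlgClosure L Lb]
    {m r : ℕ} (G : Fin r → MvPolynomial (Fin m) L)
    (hz : ∀ a : Fin m → Lb, (∀ l, MvPolynomial.aeval a (G l) = 0) → a = 0) :
    ∃ (e : ℕ) (H : Fin m → Fin r → MvPolynomial (Fin m) L),
      ∀ k, (MvPolynomial.X k : MvPolynomial (Fin m) L) ^ e = ∑ l, H k l * G l := by
  have : IsAlgClosed Lb := IsAlgClosure.isAlgClosed L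
  set I : Ideal (MvPolynomial (Fin m) L) := Ideal.span (Set.range G) with hI
  have h1 : ∀ k, (MvPolynomial.X k : MvPolynomial (Fin m) L) ∈ I.radical := by
    intro k
    rw [← MvPolynomial.vanishingIdeal_zeroLocus_eq_radical (K := Lb), hI,
      MvPolynomial.zeroLocus_span, MvPolynomial.mem_vanishingIdeal_iff]
    intro a ha
    have := hz a (fun l => ha _ ⟨l, rfl⟩)
    rw [this, MvPolynomial.aeval_X]
    rfl
  have h2 : ∀ k, ∃ n : ℕ, (MvPolynomial.X k : MvPolynomial (Fin m) L) ^ n ∈ I := by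
    intro k
    exact Ideal.mem_radical_iff.1 (h1 k)
  choose N hN using h2
  have h3 : ∀ k, (MvPolynomial.X k : MvPolynomial (Fin m) L) ^ (∑ k, N k) ∈ I := by
    intro k
    have hle : N k ≤ ∑ k, N k := Finset.single_le_sum (fun _ _ => Nat.zero_le _) (Finset.mem_univ k)
    obtain ⟨j, hj⟩ := Nat.exists_eq_add_of_le hle
    rw [hj, pow_add]
    exact Ideal.mul_mem_right _ _ (hN k)
  have h4 : ∀ k, ∃ c : Fin r → MvPolynomial (Fin m) L,
      (MvPolynomial.X k : MvPolynomial (Fin m) L) ^ (∑ k, N k) = ∑ l, c l * G l := by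
    intro k
    obtain ⟨c, hc⟩ := Ideal.mem_span_range_iff_exists_fun.1 (h3 k)
    exact ⟨c, hc.symm⟩
  choose H hH using h4
  exact ⟨∑ k, N k, H, hH⟩

end Pool.Agent.Work.MP_50269c_nt
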