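import Pool.Agent.Work.MP_50269c_nt.Defs

/-!
# Root (size M): a root of the determinant comes from a common zero

PROOF. Let `μ = minpoly L τ0 ∈ L[X]`, irreducible, `μ ∣ M.det` (`minpoly.dvd`). CLAIM: the ideal `I` of `A` generated by `h`
and `aeval t μ` is proper. Otherwise `1 = h u + μ(t) v`. Let `κ = L[X] ⧸ (μ)` (a field). By `hb`, `A` is free
over `L[X]` (via `aeval t`) with basis `b`. Let `u b_j = ∑ U_ij(t) b_i` and `v b_j = ∑ V_ij(t) b_i` (use `hb`
for each `j`). Then `h u b_j + μ(t) v b_j = b_j` and uniqueness in `hb` give the matrix identity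
`M * U + μ • V = 1` over `L[X]`. Reduce modulo `μ`: `M̄ Ū = 1` over `κ`, so `det M̄ ≠ 0`, but
`det M̄` is the class of `M.det`, divisible by `μ`: contradiction. (Or apply the ring homomorphism
`aeval τ0 : L[X] → Lb` directly to `M * U + μ • V = 1`: `M(τ0) U(τ0) = 1`, so `det (M(τ0)) ≠ 0`, but
`det (M(τ0)) = aeval τ0 M.det = 0`. This is shorter.)
Let `m ≥ I` be a maximal ideal of `A`. The field `A ⧸ m` is integral over `L` (generated by the classes of the `b i`
over the classes of `L[t]`, and the class of `t` is algebraic since `μ(t) ∈ m`; or: finite dimensional over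
`L`). Let `k0 = L⟮t̄⟯ ⊆ A ⧸ m`. As `μ(t̄) = 0` and `μ` is irreducible, there is `k0 →ₐ[L] Lb` with `t̄ ↦ τ0`
(`IntermediateField.adjoin` simple, `AdjoinRoot.liftAlgHom`, `minpoly L t̄ = μ`), and it extends to
`A ⧸ m →ₐ[L] Lb` because `Lb` is algebraically closed and `A ⧸ m` algebraic over `k0`
(`IntermediateField.exists_algHom_of_adjoin_splits`, `IsAlgClosed.lift`,
`IntermediateField.exists_algHom_adjoin_of_splits` or similar: there is a lemma
`exists_algHom_of_splits_of_aeval`: for `S`, algebraic `K/F` with minimal polynomials that split and `aeval y (minpoly F x) = 0`,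
there is `φ : K →ₐ[F] L` with `φ x = y`). Compose with `A → A ⧸ m`.
-/

set_option autoImplicit false

noncomputable section

namespace Pool.Agent.Work.MP_50269c_nt

open Polynomial

private theorem rt_integral {L : Type} [Field L] {A : Type} [CommRing A] [Algebra L A] {t : A}
    {N : ℕ} {b : Fin N → A} (hb : Bas L t b) (x : A) :
    ∃ p : L[X][X], p.Monic ∧ Polynomial.eval₂ (aeval t : L[X] →ₐ[L] A).toRingHom x p = 0 := by
  let _ : Algebra L[X] A := (aeval t : L[X] →ₐ[L] A).toRingHom.toAlgebra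
  have hfin : Module.Finite L[X] A := by
    classical
    refine ⟨⟨Finset.univ.image b, ?_⟩⟩
    rw [eq_top_iff]
    intro a _
    obtain ⟨c, hc, _⟩ := hb a
    rw [hc]
    refine Submodule.sum_mem _ fun i _ => ?_
    have e : aeval t (c i) * b i = (c i) • b i := rfl
    rw [e]
    exact Submodule.smul_mem _ _ (Submodule.subset_span (by simp))
  have := Algebra.IsIntegral.isIntegral (R := L[X]) x
  obtain ⟨p, hp, hp0⟩ := this
  exact ⟨p, hp, hp0⟩

private theorem rt_proper {L : Type} [Field L] {Lb : Type} [Field Lb] [Algebra L Lb]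
    {A : Type} [CommRing A] [Algebra L A] {t : A} {N : ℕ} {b : Fin N → A} (hb : Bas L t b)
    {h : A} {M : Matrix (Fin N) (Fin N) L[X]} (hM : IsMat L t b h M) {τ0 : Lb}
    (hr : aeval τ0 M.det = 0) (μ : L[X]) (hμ : aeval τ0 μ = 0) (u v : A) :
    h * u + aeval t μ * v ≠ 1 := by
  classical
  intro h1
  have hU : ∀ j, ∃ c : Fin N → L[X], u * b j = ∑ i, aeval t (c i) * b i := fun j =>
    (hb (u * b j)).exists
  have hV : ∀ j, ∃ c : Fin N → L[X], v * b j = ∑ i, aeval t (c i) * b i := fun j =>
    (hb (v * b j)).exists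
  choose U' hU' using hU
  choose V' hV' using hV
  set U : Matrix (Fin N) (Fin N) L[X] := Matrix.of fun i j => U' j i with hUd
  set V : Matrix (Fin N) (Fin N) L[X] := Matrix.of fun i j => V' j i with hVd
  have key : M * U + μ • V = 1 := by
    ext1 k j
    have hun := (hb (b j)).unique (y₁ := fun k => (M * U + μ • V) k j)
      (y₂ := fun k => (1 : Matrix (Fin N) (Fin N) L[X]) k j) ?_ ?_
    · exact congrFun hun k
    · have e1 : b j = h * (u * b j) + aeval t μ * (v * b j) := by
        rw [← mul_assoc, ← mul_assoc, ← add_mul, h1, one_mul]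
      have e2 : ∀ k, aeval t ((M * U + μ • V) k j) * b k =
          (∑ i, aeval t (U' j i) * (aeval t (M k i) * b k)) +
            aeval t μ * (aeval t (V' j k) * b k) := by
        intro k
        rw [Matrix.add_apply, Matrix.smul_apply, Matrix.mul_apply, map_add, add_mul, map_sum,
          Finset.sum_mul, smul_eq_mul, map_mul]
        congr 1
        · refine Finset.sum_congr rfl fun i _ => ?_
          rw [map_mul, hUd, Matrix.of_apply]
          ring
        · rw [hVd, Matrix.of_apply]
          ring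
      have e3 : (∑ k, aeval t ((M * U + μ • V) k j) * b k) =
          (∑ i, aeval t (U' j i) * (h * b i)) + aeval t μ * (v * b j) := by
        rw [Finset.sum_congr rfl fun k _ => e2 k, Finset.sum_add_distrib, ← Finset.mul_sum, ← hV' j,
          Finset.sum_comm]
        congr 1
        refine Finset.sum_congr rfl fun i _ => ?_
        rw [← Finset.mul_sum, ← hM i]
      have e4 : h * (u * b j) = ∑ i, aeval t (U' j i) * (h * b i) := by
        rw [hU' j, Finset.mul_sum]
        refine Finset.sum_congr rfl fun i _ => ?_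
        ring
      show b j = ∑ k, aeval t ((M * U + μ • V) k j) * b k
      rw [e3, ← e4]
      exact e1
    · show b j = ∑ k, aeval t ((1 : Matrix (Fin N) (Fin N) L[X]) k j) * b k
      rw [Finset.sum_eq_single j]
      · rw [Matrix.one_apply_eq, map_one, one_mul]
      · intro k _ hk
        rw [Matrix.one_apply_ne hk, map_zero, zero_mul]
      · intro hj
        exact absurd (Finset.mem_univ j) hj
  have h2 := congrArg (fun Z : Matrix (Fin N) (Fin N) L[X] =>
    (Z.map (aeval τ0 : L[X] →ₐ[L] Lb).toRingHom)) key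
  have h3 : (M.map (aeval τ0 : L[X] →ₐ[L] Lb).toRingHom) *
      (U.map (aeval τ0 : L[X] →ₐ[L] Lb).toRingHom) = 1 := by
    have e5 : ((μ • V).map (aeval τ0 : L[X] →ₐ[L] Lb).toRingHom) = 0 := by
      ext i j
      rw [Matrix.map_apply, Matrix.smul_apply, smul_eq_mul, Matrix.zero_apply, map_mul]
      have : (aeval τ0 : L[X] →ₐ[L] Lb).toRingHom μ = 0 := hμ
      rw [this, zero_mul]
    have e6 : ((M * U + μ • V).map (aeval τ0 : L[X] →ₐ[L] Lb).toRingHom) =
        (M.map (aeval τ0 : L[X] →ₐ[L] Lb).toRingHom) *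
        (U.map (aeval τ0 : L[X] →ₐ[L] Lb).toRingHom) +
          ((μ • V).map (aeval τ0 : L[X] →ₐ[L] Lb).toRingHom) := by
      rw [Matrix.map_add _ (fun a b => map_add _ a b), Matrix.map_mul]
    have e7 : ((1 : Matrix (Fin N) (Fin N) L[X]).map (aeval τ0 : L[X] →ₐ[L] Lb).toRingHom) = 1 :=
      Matrix.map_one _ (map_zero _) (map_one _)
    have h4 : ((M * U + μ • V).map (aeval τ0 : L[X] →ₐ[L] Lb).toRingHom) =
        ((1 : Matrix (Fin N) (Fin N) L[X]).map (aeval τ0 : L[X] →ₐ[L] Lb).toRingHom) := h2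
    rw [e6, e5, add_zero, e7] at h4
    exact h4
  have h5 := congrArg Matrix.det h3
  rw [Matrix.det_mul, Matrix.det_one] at h5
  have h6 : (M.map (aeval τ0 : L[X] →ₐ[L] Lb).toRingHom).det = 0 := by
    have := RingHom.map_det (aeval τ0 : L[X] →ₐ[L] Lb).toRingHom M
    rw [RingHom.mapMatrix_apply] at this
    rw [← this]
    exact hr
  rw [h6, zero_mul] at h5
  exact zero_ne_one h5

theorem root {L : Type} [Field L] {Lb : Type} [Field Lb] [Algebra L Lb] [IsAlgClosure L Lb]
    {A : Type} [CommRing A] [Algebra L A] {t : A} {N : ℕ} {b : Fin N → A} (hb : Bas L t b)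
    {h : A} {M : Matrix (Fin N) (Fin N) L[X]} (hM : IsMat L t b h M) {τ0 : Lb}
    (hr : aeval τ0 M.det = 0) : ∃ P : A →ₐ[L] Lb, P t = τ0 ∧ P h = 0 := by
  have hcl : IsAlgClosed Lb := IsAlgClosure.isAlgClosed L
  have halg : Algebra.IsAlgebraic L Lb := IsAlgClosure.isAlgebraic
  have hτ : IsIntegral L τ0 := (halg.isAlgebraic τ0).isIntegral
  set μ : L[X] := minpoly L τ0 with hμd
  have hμ0 : aeval τ0 μ = 0 := minpoly.aeval L τ0
  have hμm : μ.Monic := minpoly.monic hτ
  have hμi : Irreducible μ := minpoly.irreducible hτ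
  have hI : Ideal.span {h, aeval t μ} ≠ ⊤ := by
    intro h1
    rw [Ideal.eq_top_iff_one, Ideal.mem_span_pair] at h1
    obtain ⟨u, v, huv⟩ := h1
    apply rt_proper hb hM hr μ hμ0 u v
    rw [← huv]
    ring
  obtain ⟨m, hm, hIm⟩ := Ideal.exists_le_maximal _ hI
  let _ : Field (A ⧸ m) := Ideal.Quotient.field m
  set t' : A ⧸ m := Ideal.Quotient.mk m t with ht'
  have hmk : ∀ c : L[X], Ideal.Quotient.mk m (aeval t c) = aeval t' c := by
    intro c
    have := Polynomial.aeval_algHom_apply (Ideal.Quotient.mkₐ L m) t c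
    rw [Ideal.Quotient.mkₐ_eq_mk] at this
    exact this.symm
  have ht'0 : aeval t' μ = 0 := by
    rw [← hmk, Ideal.Quotient.eq_zero_iff_mem]
    exact hIm (Ideal.subset_span (by simp))
  have hh0 : Ideal.Quotient.mk m h = 0 := by
    rw [Ideal.Quotient.eq_zero_iff_mem]
    exact hIm (Ideal.subset_span (by simp))
  have hmin : minpoly L t' = μ :=
    (minpoly.eq_of_irreducible_of_monic hμi ht'0 hμm).symm
  have ht'i : IsIntegral L t' := ⟨μ, hμm, ht'0⟩
  have hint : ∀ y : A ⧸ m, IsIntegral L y := by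
    intro y
    obtain ⟨x, rfl⟩ := Ideal.Quotient.mk_surjective y
    obtain ⟨p, hp, hp0⟩ := rt_integral hb x
    let S := integralClosure L (A ⧸ m)
    let f : L[X] →+* S := (aeval (⟨t', ht'i⟩ : S) : L[X] →ₐ[L] S).toRingHom
    have hf : ∀ c : L[X], ((f c : S) : A ⧸ m) = aeval t' c := by
      intro c
      have := Polynomial.aeval_algHom_apply S.val (⟨t', ht'i⟩ : S) c
      exact this.symm
    have hS : IsIntegral S (Ideal.Quotient.mk m x) := by
      refine ⟨p.map f, hp.map f, ?_⟩
      rw [Polynomial.eval₂_map]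
      have e : (algebraMap S (A ⧸ m)).comp f =
          (Ideal.Quotient.mk m).comp (aeval t : L[X] →ₐ[L] A).toRingHom := by
        refine RingHom.ext fun c => ?_
        show ((f c : S) : A ⧸ m) = Ideal.Quotient.mk m (aeval t c)
        rw [hf, hmk]
      rw [e, ← Polynomial.hom_eval₂, hp0, map_zero]
    exact isIntegral_trans (R := L) (A := S) _ hS
  obtain ⟨φ, hφ⟩ := IntermediateField.exists_algHom_of_splits_of_aeval (F := L) (E := A ⧸ m)
    (K := Lb) (x := t') (y := τ0) (fun s => ⟨hint s, IsAlgClosed.splits _⟩) (by rw [hmin]; exact hμ0)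
  refine ⟨φ.comp (Ideal.Quotient.mkₐ L m), ?_, ?_⟩
  · exact hφ
  · show φ (Ideal.Quotient.mk m h) = 0
    rw [hh0, map_zero]

end Pool.Agent.Work.MP_50269c_nt
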