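import Pool.Agent.Work.MP_50269c_nt.Defs
import Pool.Agent.Work.MP_50269c_nt.Deg
import Pool.Agent.Work.MP_50269c_nt.DetNe
import Pool.Agent.Work.MP_50269c_nt.Forms
import Pool.Agent.Work.MP_50269c_nt.LinDiv
import Pool.Agent.Work.MP_50269c_nt.Null
import Pool.Agent.Work.MP_50269c_nt.Root
import Pool.Agent.Work.MP_50269c_nt.IntR
import Pool.Agent.Work.MP_50269c_nt.Disj
import Pool.Agent.Work.MP_50269c_nt.Nu

/-!
# Asm: the leading form and the linear forms at infinity
-/

set_option autoImplicit false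

noncomputable section

namespace Pool.Agent.Work.MP_50269c_nt

open NumberField IsDedekindDomain Polynomial

variable {L : Type} [Field L] [NumberField L] {Lb : Type} [Field Lb] [Algebra L Lb]
  [IsAlgClosure L Lb] {A : Type} [CommRing A] [IsDedekindDomain A] [Algebra L A] {K : Type}
  [Field K] [Algebra A K] [IsFractionRing A K] [Algebra L K] [IsScalarTower L A K] {Kb : Type}
  [Field Kb] [Algebra K Kb] [Algebra Lb Kb] [Algebra L Kb] [IsScalarTower L K Kb]
  [IsScalarTower L Lb Kb]

variable (L Lb K Kb) in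
/-- The data of the proof and their properties. -/
structure St {n : ℕ} (x : Fin n → A) (t : A) {N : ℕ} (b : Fin N → A) {m : ℕ} (e : Fin m → K)
    (D0 : L[X]) (h : Fin m → A) (M : Fin m → Matrix (Fin N) (Fin N) L[X])
    (G : ℕ → MvPolynomial (Fin m) L) : Prop where
  hx : Algebra.adjoin L (Set.range x) = ⊤
  hgeo : ∀ z : K, IsAlgebraic L z → z ∈ Set.range (algebraMap L K)
  hKb : IntermediateField.adjoin Lb (Set.range (algebraMap K Kb)) = ⊤
  hb : Bas L t b
  he : LinearIndependent L e
  hei : ∀ k, ∀ O : ValuationSubring Kb, AtInf Lb (fun i => emb A K Kb (x i)) O →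
    algebraMap K Kb (e k) ∈ O
  hD0 : D0 ≠ 0
  hh : ∀ k, algebraMap A K (h k) = algebraMap A K (aeval t D0) * e k
  hM : ∀ k, IsMat L t b (h k) (M k)
  hGh : ∀ l, (G l).IsHomogeneous N
  hG : ∀ (F : Type) [Field F] [Algebra L F] (a : Fin m → F) (l : ℕ),
        (Dl F M a).coeff l = MvPolynomial.aeval a (G l)

variable {n : ℕ} {x : Fin n → A} {t : A} {N : ℕ} {b : Fin N → A} {m : ℕ} {e : Fin m → K}
  {D0 : L[X]} {h : Fin m → A} {M : Fin m → Matrix (Fin N) (Fin N) L[X]}
  {G : ℕ → MvPolynomial (Fin m) L}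

theorem St.t_ne (s : St L Lb K Kb x t b e D0 h M G) : Transcendental Lb (emb A K Kb t) :=
  t_transc s.hgeo s.hb

theorem St.emb_D0 (s : St L Lb K Kb x t b e D0 h M G) :
    emb A K Kb (aeval t D0) = aeval (emb A K Kb t) (D0.map (algebraMap L Lb)) := by
  have h1 : ∀ a : L, algebraMap K Kb (algebraMap A K (algebraMap L A a)) =
      algebraMap Lb Kb (algebraMap L Lb a) := by
    intro a
    rw [← IsScalarTower.algebraMap_apply L A K, ← IsScalarTower.algebraMap_apply L K Kb,
      ← IsScalarTower.algebraMap_apply L Lb Kb]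
  rw [Polynomial.aeval_def, Polynomial.aeval_def, Polynomial.hom_eval₂, Polynomial.eval₂_map]
  congr 1
  ext a
  simp only [RingHom.coe_comp, Function.comp_apply, emb]
  exact h1 a

theorem St.D0_ne (s : St L Lb K Kb x t b e D0 h M G) :
    aeval (emb A K Kb t) (D0.map (algebraMap L Lb)) ≠ 0 := by
  intro h0
  have h1 := (transcendental_iff.mp s.t_ne) _ h0
  exact s.hD0 ((Polynomial.map_eq_zero _).mp h1)

theorem St.quot (s : St L Lb K Kb x t b e D0 h M G) (a : Fin m → Lb) :
    (∑ k, algebraMap Lb Kb (a k) * emb A K Kb (h k)) /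
      aeval (emb A K Kb t) (D0.map (algebraMap L Lb)) =
      ∑ k, algebraMap Lb Kb (a k) * algebraMap K Kb (e k) := by
  rw [div_eq_iff s.D0_ne, Finset.sum_mul]
  refine Finset.sum_congr rfl fun k _ => ?_
  rw [← s.emb_D0]
  have h1 : emb A K Kb (h k) = emb A K Kb (aeval t D0) * algebraMap K Kb (e k) := by
    simp only [emb, RingHom.coe_comp, Function.comp_apply]
    rw [s.hh k, map_mul]
  rw [h1]
  ring

theorem St.mem (s : St L Lb K Kb x t b e D0 h M G) (a : Fin m → Lb) (O : ValuationSubring Kb)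
    (hO : AtInf Lb (fun i => emb A K Kb (x i)) O) :
    ∑ k, algebraMap Lb Kb (a k) * algebraMap K Kb (e k) ∈ O :=
  sum_mem fun k _ => mul_mem (hO.1 _) (s.hei k O hO)

theorem St.ne_zero (s : St L Lb K Kb x t b e D0 h M G) {a : Fin m → Lb} (ha : a ≠ 0) :
    ∑ k, algebraMap Lb Kb (a k) * algebraMap K Kb (e k) ≠ 0 := by
  intro h0
  apply ha
  have h1 : LinearIndependent Lb (fun k => algebraMap K Kb (e k)) := disj s.hgeo s.he
  rw [Fintype.linearIndependent_iff] at h1
  funext k
  refine h1 a ?_ k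
  simpa [Algebra.smul_def] using h0

theorem St.natDeg (s : St L Lb K Kb x t b e D0 h M G) (a : Fin m → Lb) :
    (Dl Lb M a).natDegree ≤ N * D0.natDegree := by
  have := deg_le (K := K) (Kb := Kb) s.hx s.hgeo s.hKb s.hb s.hM a
    (D := D0.map (algebraMap L Lb)) (by simpa using s.hD0) (by
      intro O hO
      rw [s.quot]
      exact s.mem a O hO)
  simpa using this

theorem St.coeff_zero (s : St L Lb K Kb x t b e D0 h M G) {a : Fin m → Lb}
    {O : ValuationSubring Kb} (hO : AtInf Lb (fun i => emb A K Kb (x i)) O)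
    (h0 : ∑ k, algebraMap Lb Kb (a k) * algebraMap K Kb (e k) ∈ O.nonunits) :
    MvPolynomial.aeval a (G (N * D0.natDegree)) = 0 := by
  have := MP_50269c_nt.coeff_zero (K := K) (Kb := Kb) s.hx s.hgeo s.hKb s.hb s.hM a
    (D := D0.map (algebraMap L Lb)) (by simpa using s.hD0) (by
      intro O hO
      rw [s.quot]
      exact s.mem a O hO) hO (by rw [s.quot]; exact h0)
  rw [← s.hG Lb a]
  simpa using this

theorem St.coeff_ne (s : St L Lb K Kb x t b e D0 h M G) {a : Fin m → Lb} (ha : a ≠ 0)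
    (h0 : ∀ O : ValuationSubring Kb, AtInf Lb (fun i => emb A K Kb (x i)) O →
      (∑ k, algebraMap Lb Kb (a k) * algebraMap K Kb (e k))⁻¹ ∈ O) :
    MvPolynomial.aeval a (G (N * D0.natDegree)) ≠ 0 := by
  have := MP_50269c_nt.coeff_ne (K := K) (Kb := Kb) s.hx s.hgeo s.hKb s.hb s.hM a
    (D := D0.map (algebraMap L Lb)) (by simpa using s.hD0) (by
      intro O hO
      rw [s.quot]
      exact s.mem a O hO) (by
      intro h1
      apply s.ne_zero ha
      rw [← s.quot, h1, zero_div]) (by
      intro O hO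
      rw [s.quot]
      exact h0 O hO)
  rw [← s.hG Lb a]
  simpa using this

/-- the forms up to the degree `N deg D0` have only the common zero `0` -/
theorem St.common (s : St L Lb K Kb x t b e D0 h M G) {a : Fin m → Lb}
    (h0 : ∀ l : Fin (N * D0.natDegree + 1), MvPolynomial.aeval a (G l) = 0) : a = 0 := by
  by_contra ha
  have h1 : Dl Lb M a = 0 := by
    ext l
    rw [Polynomial.coeff_zero]
    by_cases hl : l < N * D0.natDegree + 1
    · rw [s.hG Lb a]
      exact h0 ⟨l, hl⟩
    · exact Polynomial.coeff_eq_zero_of_natDegree_lt (by have := s.natDeg a; omega)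
  refine det_ne (K := K) (Kb := Kb) s.hgeo s.hb s.hM a ?_ h1
  intro h2
  apply s.ne_zero ha
  rw [← s.quot, h2, zero_div]

/-- the linear form of a place divides the leading form -/
theorem St.div (s : St L Lb K Kb x t b e D0 h M G) {O : ValuationSubring Kb}
    (hO : AtInf Lb (fun i => emb A K Kb (x i)) O) {c : Fin m → Lb} (hc : c ≠ 0)
    (hco : ∀ k, algebraMap K Kb (e k) - algebraMap Lb Kb (c k) ∈ O.nonunits) :
    (∑ k, MvPolynomial.C (c k) * MvPolynomial.X k) ∣
      MvPolynomial.map (algebraMap L Lb) (G (N * D0.natDegree)) := by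
  haveI : IsAlgClosed Lb := IsAlgClosure.isAlgClosed L
  haveI : Infinite Lb := IsAlgClosed.instInfinite
  refine linDiv hc fun a ha => ?_
  rw [MvPolynomial.eval_map, ← MvPolynomial.aeval_def]
  refine s.coeff_zero hO ?_
  have h1 : ∑ k, algebraMap Lb Kb (a k) * algebraMap K Kb (e k) =
      ∑ k, algebraMap Lb Kb (a k) * (algebraMap K Kb (e k) - algebraMap Lb Kb (c k)) := by
    have h2 : ∑ k, algebraMap Lb Kb (a k) * algebraMap Lb Kb (c k) = 0 := by
      rw [← map_zero (algebraMap Lb Kb), ← ha, map_sum]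
      exact Finset.sum_congr rfl fun k _ => by rw [map_mul, mul_comm]
    simp only [mul_sub, Finset.sum_sub_distrib, h2, sub_zero]
  rw [h1]
  exact nu_sum _ fun k _ => nu_mul (hO.1 _) (hco k)

end Pool.Agent.Work.MP_50269c_nt
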