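import Pool.Agent.Work.MP_50269c_nt.Defs
import Pool.Agent.Work.MP_50269c_nt.Disj

/-!
# BasV (size S-M): a basis of the span of the `f j`, and places of `Kb` restricted to `K`

PROOFS. `place_down`: let `O' = O.comap (algebraMap K Kb)` (`ValuationSubring.comap`). It is `AtInf` for `L` and the
`x i`: constants of `L` map to constants of `Lb` (tower), `x i` with `emb (x i) ∉ O` is not in `O'`. So `f ∈ O'`.
`basis_exists`: let `V = span L (range f) ⊆ K`. Every finite family in `V` independent over `L` is mapped to a family in
`W` (the images of the `f j` are in `W`, `L`-combinations of them too) independent over `Lb` by `disj`, so its size is at most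
`finrank Lb W`. So `V` is finite dimensional (`Module.rank` bound), take a basis.
-/

set_option autoImplicit false

noncomputable section

namespace Pool.Agent.Work.MP_50269c_nt

open NumberField IsDedekindDomain Polynomial

variable {L : Type} [Field L] [NumberField L] {Lb : Type} [Field Lb] [Algebra L Lb]
  [IsAlgClosure L Lb] {A : Type} [CommRing A] [IsDedekindDomain A] [Algebra L A] {K : Type}
  [Field K] [Algebra A K] [IsFractionRing A K] [Algebra L K] [IsScalarTower L A K] {Kb : Type}
  [Field Kb] [Algebra K Kb] [Algebra Lb Kb] [Algebra L Kb] [IsScalarTower L K Kb]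
  [IsScalarTower L Lb Kb]

variable {n : ℕ} {x : Fin n → A}

theorem place_down {f : K} (hf : ∀ O : ValuationSubring K,
      AtInf L (fun i => algebraMap A K (x i)) O → f ∈ O) {O : ValuationSubring Kb}
    (hO : AtInf Lb (fun i => emb A K Kb (x i)) O) : algebraMap K Kb f ∈ O := by
  have h : f ∈ O.comap (algebraMap K Kb) := by
    refine hf _ ⟨fun c => ?_, ?_⟩
    · change algebraMap K Kb (algebraMap L K c) ∈ O
      rw [← IsScalarTower.algebraMap_apply L K Kb, IsScalarTower.algebraMap_apply L Lb Kb]
      exact hO.1 _
    · obtain ⟨i, hi⟩ := hO.2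
      exact ⟨i, hi⟩
  exact h

theorem basis_exists (hgeo : ∀ z : K, IsAlgebraic L z → z ∈ Set.range (algebraMap L K))
    (f : ℕ → K) (W : Submodule Lb Kb) (hfin : Module.Finite Lb W)
    (hW : ∀ j, algebraMap K Kb (f j) ∈ W) :
    ∃ (m : ℕ) (e : Fin m → K), LinearIndependent L e ∧
      (∀ k, e k ∈ Submodule.span L (Set.range f)) ∧
      ∃ a : ℕ → Fin m → L, ∀ j, f j = ∑ k, algebraMap L K (a j k) * e k := by
  have hmem : ∀ y ∈ Submodule.span L (Set.range f), algebraMap K Kb y ∈ W := by
    intro y hy
    induction hy using Submodule.span_induction with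
    | mem y h =>
      obtain ⟨j, rfl⟩ := h
      exact hW j
    | zero =>
      rw [map_zero]
      exact zero_mem _
    | add y z _ _ hy hz =>
      rw [map_add]
      exact add_mem hy hz
    | smul c y _ hy =>
      have h1 : algebraMap K Kb (c • y) = algebraMap L Lb c • algebraMap K Kb y := by
        rw [Algebra.smul_def, map_mul, ← IsScalarTower.algebraMap_apply L K Kb,
          IsScalarTower.algebraMap_apply L Lb Kb, Algebra.smul_def]
      rw [h1]
      exact W.smul_mem _ hy
  let B := Module.Basis.ofVectorSpace L (Submodule.span L (Set.range f))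
  have hli : LinearIndependent L (fun i => ((B i : Submodule.span L (Set.range f)) : K)) :=
    B.linearIndependent.map' (Submodule.subtype _) (Submodule.ker_subtype _)
  have hli2 : LinearIndependent Lb
      (fun i => algebraMap K Kb ((B i : Submodule.span L (Set.range f)) : K)) :=
    disj hgeo hli
  have hli3 : LinearIndependent Lb
      (fun i => (⟨algebraMap K Kb ((B i : Submodule.span L (Set.range f)) : K),
        hmem _ (B i).2⟩ : W)) := by
    refine LinearIndependent.of_comp W.subtype ?_
    exact hli2
  have : Finite (Module.Basis.ofVectorSpaceIndex L (Submodule.span L (Set.range f))) := hli3.finite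
  have := Fintype.ofFinite (Module.Basis.ofVectorSpaceIndex L (Submodule.span L (Set.range f)))
  let ε := Fintype.equivFin (Module.Basis.ofVectorSpaceIndex L (Submodule.span L (Set.range f)))
  refine ⟨_, fun k => ((B (ε.symm k) : Submodule.span L (Set.range f)) : K),
    hli.comp _ ε.symm.injective, fun k => (B (ε.symm k)).2,
    fun j k => B.repr ⟨f j, Submodule.subset_span ⟨j, rfl⟩⟩ (ε.symm k), fun j => ?_⟩
  have h1 := B.sum_repr ⟨f j, Submodule.subset_span ⟨j, rfl⟩⟩
  have h2 := congrArg (Submodule.subtype _) h1
  rw [map_sum] at h2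
  rw [← ε.symm.sum_comp] at h2
  refine h2.symm.trans (Finset.sum_congr rfl fun k _ => ?_)
  rw [map_smul, Algebra.smul_def]
  rfl

end Pool.Agent.Work.MP_50269c_nt
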