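import Pool.Agent.Work.MP_50269c_nt.Asm

/-!
# CoreA: roots of the determinants, lifting of polynomials, monic polynomials with integral coefficients
-/

set_option autoImplicit false

noncomputable section

namespace Pool.Agent.Work.MP_50269c_nt

open NumberField IsDedekindDomain Polynomial

variable {L : Type} [Field L] [NumberField L] {Lb : Type} [Field Lb] [Algebra L Lb]
  [IsAlgClosure L Lb] {A : Type} [CommRing A] [IsDedekindDomain A] [Algebra L A] {K : Type}
  [Field K] [Algebra A K] [IsFractionRing A K] [Algebra L K] [IsScalarTower L A K] {Kb : Type}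
  [Field Kb] [Algebra K Kb] [Algebra Lb Kb] [Algebra L Kb] [IsScalarTower L K Kb]
  [IsScalarTower L Lb Kb]

variable {n : ℕ} {x : Fin n → A} {t : A} {N : ℕ} {b : Fin N → A} {m : ℕ} {e : Fin m → K}
  {D0 : L[X]} {h : Fin m → A} {M : Fin m → Matrix (Fin N) (Fin N) L[X]}
  {G : ℕ → MvPolynomial (Fin m) L}

theorem St.roots (s : St L Lb K Kb x t b e D0 h M G) {p0 : Ideal A} {f : K} {a : Fin m → L}
    (hfa : f = ∑ k, algebraMap L K (a k) * e k) {P : A →ₐ[L] Lb}
    (hpf : (fun y => f * algebraMap A K y) '' (p0 : Set A) =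
      algebraMap A K '' (RingHom.ker P : Set A)) {z : Lb} (hz : aeval z (Dl L M a) = 0) :
    aeval z D0 = 0 ∨ ∃ P' : A →ₐ[L] Lb, P' t = z ∧ ∀ y, P y = 0 → P' y = 0 := by
  by_cases h0 : aeval z D0 = 0
  · exact Or.inl h0
  refine Or.inr ?_
  obtain ⟨P', hP1, hP2⟩ := root (Lb := Lb) s.hb (isMat_sum s.hM a) (τ0 := z) hz
  refine ⟨P', hP1, fun y hy => ?_⟩
  have hy' : algebraMap A K y ∈ algebraMap A K '' (RingHom.ker P : Set A) :=
    ⟨y, by simpa [RingHom.mem_ker] using hy, rfl⟩
  rw [← hpf] at hy'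
  obtain ⟨w, hw, hwy⟩ := hy'
  have h1 : aeval t D0 * y = (∑ k, algebraMap L A (a k) * h k) * w := by
    apply IsFractionRing.injective A K
    rw [map_mul, map_mul, ← hwy, map_sum, hfa]
    simp only [Finset.sum_mul, Finset.mul_sum, map_mul, s.hh]
    refine Finset.sum_congr rfl fun k _ => ?_
    rw [← IsScalarTower.algebraMap_apply L A K]
    ring
  have h2 : P' (aeval t D0) * P' y = 0 := by
    rw [← map_mul, h1, map_mul, hP2, zero_mul]
  have h3 : P' (aeval t D0) = aeval z D0 := by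
    rw [← hP1, Polynomial.aeval_algHom_apply]
  rw [h3] at h2
  exact (mul_eq_zero.mp h2).resolve_left h0

theorem Ne_zero_of_bas {L : Type} [Field L] {A : Type} [CommRing A] [Nontrivial A] [Algebra L A]
    {t : A} {N : ℕ} {b : Fin N → A} (hb : Bas L t b) : N ≠ 0 := by
  rintro rfl
  obtain ⟨c, hc, -⟩ := hb 1
  simp at hc

theorem lift_mv {E : Type} [Field E] [NumberField E] {Lb : Type} [Field Lb] [Algebra E Lb]
    {m : ℕ} (T : Finset (HeightOneSpectrum (𝓞 E))) (g : MvPolynomial (Fin m) Lb)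
    (hg : ∀ s ∈ g.support, ∃ w : E, algebraMap E Lb w = g.coeff s ∧ TInt T w) :
    ∃ g' : MvPolynomial (Fin m) E, MvPolynomial.map (algebraMap E Lb) g' = g ∧
      ∀ s, TInt T (g'.coeff s) := by
  classical
  have h1 : ∀ s, ∃ w : E, algebraMap E Lb w = g.coeff s ∧ TInt T w := by
    intro s
    by_cases hs : s ∈ g.support
    · exact hg s hs
    · refine ⟨0, ?_, fun p _ => ?_⟩
      · rw [map_zero]
        exact (MvPolynomial.notMem_support_iff.mp hs).symm
      · rw [map_zero]
        exact zero_le_one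
  choose w hw1 hw2 using h1
  have h2 : ∀ s, (∑ s' ∈ g.support, MvPolynomial.monomial s' (w s') :
      MvPolynomial (Fin m) E).coeff s = w s := by
    intro s
    rw [MvPolynomial.coeff_sum]
    simp only [MvPolynomial.coeff_monomial]
    rw [Finset.sum_ite_eq']
    split_ifs with hs
    · rfl
    · have h3 := hw1 s
      rw [MvPolynomial.notMem_support_iff.mp hs] at h3
      exact ((map_eq_zero _).mp h3).symm
  refine ⟨∑ s' ∈ g.support, MvPolynomial.monomial s' (w s'), ?_, ?_⟩
  · ext s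
    rw [MvPolynomial.coeff_map, h2, hw1]
  · intro s
    rw [h2]
    exact hw2 s

theorem int_monic {E : Type} [Field E] [NumberField E] {Lb : Type} [Field Lb] [Algebra E Lb]
    (T : Finset (HeightOneSpectrum (𝓞 E))) {D : E[X]} (hD : D.Monic)
    (hDT : ∀ l, D.coeff l ∈ (T : Set (HeightOneSpectrum (𝓞 E))).integer E) {z : Lb}
    (hz : aeval z D = 0) :
    IsIntegral ((T : Set (HeightOneSpectrum (𝓞 E))).integer E) z := by
  have h1 : D ∈ Polynomial.lifts
      (algebraMap ((T : Set (HeightOneSpectrum (𝓞 E))).integer E) E) := by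
    rw [Polynomial.lifts_iff_coeff_lifts]
    intro l
    exact ⟨⟨D.coeff l, hDT l⟩, rfl⟩
  obtain ⟨q, hq1, -, hq3⟩ := Polynomial.lifts_and_degree_eq_and_monic h1 hD
  refine ⟨q, hq3, ?_⟩
  rw [← hz, ← hq1, Polynomial.aeval_def, Polynomial.eval₂_map]
  rfl

end Pool.Agent.Work.MP_50269c_nt
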