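import Pool.Agent.Work.MP_50269c_nt.Defs

/-!
# NF (size M): a number field containing finitely many algebraic numbers, and a set of places

PROOF. Let `E = IntermediateField.adjoin L (B : Set Lb)`: finite over `L` (`IntermediateField.finiteDimensional_adjoin`,
elements of `Lb` are algebraic over `L` because `IsAlgClosure L Lb`), so a number field
(`NumberField.of_module_finite L E`). `T` = the finite set of the primes `p` of `𝓞 E` where some `w` (the element of `E`
belonging to some `z ∈ B`) has `FinitePlace.mk p w > 1` (finitely many primes for each `w`, e.g.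
`HeightOneSpectrum.Support.finite`, `FinitePlace.mulSupport_finite`, or write `w = u/v` with `u, v ∈ 𝓞 E` and
take the primes containing `v`), together with the primes of `𝓞 E` containing the nonzero integer `M`, where `M`
is a positive integer which lies in all primes `q ∈ S` of `𝓞 L` (e.g. the product of the absolute norms
`Ideal.absNorm q.asIdeal ∈ q`). For `z ∈ S.integer L`: CLAIM `M^k z ∈ 𝓞 L` for some `k`: for each
`q ∈ S` the valuation of `M` at `q` is `< 1`, so for large `k` the valuation of `M^k z` at the finitely many `q ∈ S`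
is `≤ 1`, and at the `q ∉ S` it is `≤ 1` since that holds for `z` and `M`; an element with all valuations
`≤ 1` is in `𝓞 L` (`HeightOneSpectrum.mem_integers_of_valuation_le_one`). So `M^k z` is integral, its
image in `E` is in `𝓞 E`, and at `p ∉ T` we have `|M|_p = 1`, so `|z|_p = |M^k z|_p ≤ 1`.
(`FinitePlace` lemmas: `FinitePlace.norm_le_one` for integers, `FinitePlace.norm_eq_one_iff_notMem`.)
-/

set_option autoImplicit false

noncomputable section

namespace Pool.Agent.Work.MP_50269c_nt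

open NumberField IsDedekindDomain Polynomial

private theorem nf_le {E : Type} [Field E] [NumberField E] (p : HeightOneSpectrum (𝓞 E)) (w : E)
    (a s : 𝓞 E) (hs : s ∉ p.asIdeal) (h : w * algebraMap (𝓞 E) E s = algebraMap (𝓞 E) E a) :
    FinitePlace.mk p w ≤ 1 := by
  have h1 : FinitePlace.mk p (algebraMap (𝓞 E) E s) = 1 := by
    rw [FinitePlace.mk_apply]
    exact (FinitePlace.norm_eq_one_iff_notMem E p s).mpr hs
  have h2 : FinitePlace.mk p (algebraMap (𝓞 E) E a) ≤ 1 := by
    rw [FinitePlace.mk_apply]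
    exact FinitePlace.norm_le_one E p a
  rw [← h, map_mul, h1, mul_one] at h2
  exact h2

private theorem nf_under {L E : Type} [Field L] [NumberField L] [Field E] [NumberField E]
    [Algebra L E] (S : Finset (HeightOneSpectrum (𝓞 L))) (M : 𝓞 L)
    (hM : ∀ q ∈ S, M ∈ q.asIdeal) (p : HeightOneSpectrum (𝓞 E))
    (hp : algebraMap (𝓞 L) (𝓞 E) M ∉ p.asIdeal) (z : L)
    (hz : z ∈ (S : Set (HeightOneSpectrum (𝓞 L))).integer L) :
    FinitePlace.mk p (algebraMap L E z) ≤ 1 := by
  have hprime : (p.asIdeal.comap (algebraMap (𝓞 L) (𝓞 E))).IsPrime :=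
    Ideal.comap_isPrime _ _
  have hbot : p.asIdeal.comap (algebraMap (𝓞 L) (𝓞 E)) ≠ ⊥ :=
    Ideal.IsIntegral.comap_ne_bot (𝓞 L) p.ne_bot
  let q : HeightOneSpectrum (𝓞 L) := ⟨_, hprime, hbot⟩
  have hq : q ∉ (S : Set (HeightOneSpectrum (𝓞 L))) := by
    intro h
    exact hp (Ideal.mem_comap.mp (hM q (Finset.mem_coe.mp h)))
  have hv : q.valuation L z ≤ 1 := Set.integer_valuation_le_one _ L ⟨z, hz⟩ hq
  obtain ⟨n, d, hnd⟩ := HeightOneSpectrum.exists_primeCompl_mul_eq_of_integer q z hv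
  refine nf_le p _ (algebraMap (𝓞 L) (𝓞 E) n) (algebraMap (𝓞 L) (𝓞 E) d) ?_ ?_
  · intro h
    exact d.2 (Ideal.mem_comap.mpr h)
  · rw [← IsScalarTower.algebraMap_apply (𝓞 L) (𝓞 E) E,
      ← IsScalarTower.algebraMap_apply (𝓞 L) (𝓞 E) E,
      IsScalarTower.algebraMap_apply (𝓞 L) L E, IsScalarTower.algebraMap_apply (𝓞 L) L E,
      ← map_mul, hnd]

private theorem nf_main {L E : Type} [Field L] [NumberField L] [Field E] [NumberField E]
    [Algebra L E] {Lb : Type} [Field Lb] [Algebra E Lb]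
    (S : Finset (HeightOneSpectrum (𝓞 L))) (B : Finset Lb)
    (hB : ∀ z ∈ B, ∃ w : E, algebraMap E Lb w = z) :
    ∃ T : Finset (HeightOneSpectrum (𝓞 E)),
      (∀ z ∈ B, ∃ w : E, algebraMap E Lb w = z ∧ TInt T w) ∧
      ∀ z : L, z ∈ (S : Set (HeightOneSpectrum (𝓞 L))).integer L →
        TInt T (algebraMap L E z) := by
  classical
  have hb : ∀ z : Lb, ∃ b : 𝓞 E, b ≠ 0 ∧ (z ∈ B → ∃ (w : E) (a : 𝓞 E),
      algebraMap E Lb w = z ∧ w * algebraMap (𝓞 E) E b = algebraMap (𝓞 E) E a) := by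
    intro z
    by_cases hz : z ∈ B
    · obtain ⟨w, hw⟩ := hB z hz
      obtain ⟨a, b, hb, hab⟩ := IsFractionRing.div_surjective (A := 𝓞 E) w
      have hb0 : b ≠ 0 := nonZeroDivisors.ne_zero hb
      have hb1 : algebraMap (𝓞 E) E b ≠ 0 := by
        rw [Ne, FaithfulSMul.algebraMap_eq_zero_iff]
        exact hb0
      refine ⟨b, hb0, fun _ ↦ ⟨w, a, hw, ?_⟩⟩
      rw [← hab, div_mul_cancel₀ _ hb1]
    · exact ⟨1, one_ne_zero, fun h ↦ absurd h hz⟩
  choose b hb0 hbw using hb
  have hm : ∀ q : HeightOneSpectrum (𝓞 L), ∃ m : 𝓞 L, m ∈ q.asIdeal ∧ m ≠ 0 :=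
    fun q ↦ Submodule.exists_mem_ne_zero_of_ne_bot q.ne_bot
  choose m hmq hm0 using hm
  obtain ⟨M, hMdef⟩ : ∃ M, M = ∏ q ∈ S, m q := ⟨_, rfl⟩
  have hM0 : M ≠ 0 := by
    rw [hMdef]
    exact Finset.prod_ne_zero_iff.mpr fun q _ ↦ hm0 q
  have hMS : ∀ q ∈ S, M ∈ q.asIdeal := by
    intro q hq
    rw [hMdef]
    exact Ideal.mem_of_dvd _ (Finset.dvd_prod_of_mem m hq) (hmq q)
  obtain ⟨N, hNdef⟩ : ∃ N, N = algebraMap (𝓞 L) (𝓞 E) M * ∏ z ∈ B, b z := ⟨_, rfl⟩
  have hN0 : N ≠ 0 := by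
    rw [hNdef]
    refine mul_ne_zero ?_ (Finset.prod_ne_zero_iff.mpr fun z _ ↦ hb0 z)
    rw [Ne, FaithfulSMul.algebraMap_eq_zero_iff]
    exact hM0
  have hfinT : {p : HeightOneSpectrum (𝓞 E) | N ∈ p.asIdeal}.Finite := by
    have h1 : {p : HeightOneSpectrum (𝓞 E) | p.asIdeal ∣ Ideal.span {N}}.Finite := by
      apply Ideal.finite_factors
      simp only [Submodule.zero_eq_bot, ne_eq, Ideal.span_singleton_eq_bot, hN0,
        not_false_eq_true]
    refine h1.subset ?_
    intro p hp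
    exact Ideal.dvd_span_singleton.mpr hp
  have hT : ∀ p : HeightOneSpectrum (𝓞 E), p ∉ hfinT.toFinset → N ∉ p.asIdeal := by
    intro p hp h
    exact hp (hfinT.mem_toFinset.mpr h)
  refine ⟨hfinT.toFinset, ?_, ?_⟩
  · intro z hz
    obtain ⟨w, a, hw, hwa⟩ := hbw z hz
    refine ⟨w, hw, ?_⟩
    intro p hp
    refine nf_le p w a (b z) ?_ hwa
    intro h
    apply hT p hp
    rw [hNdef]
    exact Ideal.mul_mem_left _ _ (Ideal.mem_of_dvd _ (Finset.dvd_prod_of_mem b hz) h)
  · intro z hz p hp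
    refine nf_under S M hMS p ?_ z hz
    intro h
    apply hT p hp
    rw [hNdef]
    exact Ideal.mul_mem_right _ _ h

theorem exists_nf {L : Type} [Field L] [NumberField L] {Lb : Type} [Field Lb] [Algebra L Lb]
    [IsAlgClosure L Lb] (S : Finset (HeightOneSpectrum (𝓞 L))) (B : Finset Lb) :
    ∃ (E : Type) (_ : Field E) (_ : NumberField E) (_ : Algebra L E) (_ : Algebra E Lb)
      (_ : IsScalarTower L E Lb) (T : Finset (HeightOneSpectrum (𝓞 E))),
      (∀ z ∈ B, ∃ w : E, algebraMap E Lb w = z ∧ TInt T w) ∧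
      ∀ z : L, z ∈ (S : Set (HeightOneSpectrum (𝓞 L))).integer L → TInt T (algebraMap L E z) := by
  have : Algebra.IsAlgebraic L Lb := IsAlgClosure.isAlgebraic
  have hfin : FiniteDimensional L (IntermediateField.adjoin L (B : Set Lb)) :=
    IntermediateField.finiteDimensional_adjoin fun x _ ↦
      (Algebra.IsAlgebraic.isAlgebraic x).isIntegral
  have hnf : NumberField (IntermediateField.adjoin L (B : Set Lb)) :=
    NumberField.of_module_finite L _
  obtain ⟨T, h1, h2⟩ := nf_main (E := IntermediateField.adjoin L (B : Set Lb)) S B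
    fun z hz ↦ ⟨⟨z, IntermediateField.subset_adjoin L _ (Finset.mem_coe.mpr hz)⟩, rfl⟩
  exact ⟨IntermediateField.adjoin L (B : Set Lb), inferInstance, hnf, inferInstance,
    inferInstance, inferInstance, T, h1, h2⟩

end Pool.Agent.Work.MP_50269c_nt
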