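import Pool.Agent.Work.MP_50269c_nt.Defs
import Pool.Agent.Work.UP.GDefs

/-!
# TIntL (size M): elements integral outside `T`

PROOFS. `tint_iff`: `FinitePlace.mk p z ≤ 1` is `p.valuation E z ≤ 1` (`FinitePlace` norm lemmas:
`FinitePlace.mk_apply`, `FinitePlace.norm_embedding'`, `toNNReal ... ≤ 1 ↔ ... ≤ 1`; see also how
`Pool/Agent/Work/UP/UBas.lean` and `SUB` files handle it, e.g. grep `norm_le_one_iff` in Mathlib), and
membership in `Set.integer` is the same condition for all `p ∉ T`.
`tint_closed`: if `z` is integral over `T.integer E`, then for each `p ∉ T` it is integral over the valuation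
ring of `p`, which is integrally closed: from `z^s = ∑_{i<s} c_i z^i` with `|c_i| ≤ 1` and `|z| > 1` we
get `|z|^s ≤ |z|^(s-1)`, contradiction.
`coeffs`: over `Lb`, `Δ.map = C c * ∏ (X - ρ)` over the roots `ρ` (`Lb` algebraically closed), so the
coefficients of `Δ/c` are up to sign elementary symmetric functions of the roots, integral over
`T.integer E` (or: the monic polynomial `∏ (X - ρ)` has coefficients in the integral closure of
`T.integer E` in `Lb` as that is a subring containing the `ρ`). An element of `E` whose image in `Lb` is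
integral over `T.integer E` is integral over it, so TInt by `tint_closed` and `tint_iff`.
-/

set_option autoImplicit false

noncomputable section

namespace Pool.Agent.Work.MP_50269c_nt

open NumberField IsDedekindDomain Polynomial

variable {E : Type} [Field E] [NumberField E]

theorem tint_iff (T : Finset (HeightOneSpectrum (𝓞 E))) (z : E) :
    TInt T z ↔ z ∈ (T : Set (HeightOneSpectrum (𝓞 E))).integer E := by
  have h1 : ∀ p : HeightOneSpectrum (𝓞 E), FinitePlace.mk p z ≤ 1 ↔ p.valuation E z ≤ 1 := by
    intro p
    rw [FinitePlace.mk_apply, FinitePlace.norm_embedding']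
    have h2 := WithZeroMulInt.toNNReal_le_one_iff (m := p.valuation E z)
      (HeightOneSpectrum.one_lt_absNorm_nnreal p)
    rw [← h2]
    norm_cast
  constructor
  · intro h p hp
    exact (h1 p).1 (h p hp)
  · intro h p hp
    exact (h1 p).2 (h p hp)

theorem tint_closed (T : Finset (HeightOneSpectrum (𝓞 E))) {z : E}
    (hz : IsIntegral ((T : Set (HeightOneSpectrum (𝓞 E))).integer E) z) : TInt T z := by
  rw [tint_iff]
  intro p hp
  obtain ⟨q, hq, hq0⟩ := hz
  let V := (p.valuation E).valuationSubring
  let f : ((T : Set (HeightOneSpectrum (𝓞 E))).integer E) →+* V :=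
    { toFun := fun x => ⟨(x : E), x.2 p hp⟩
      map_one' := rfl
      map_mul' := fun _ _ => rfl
      map_zero' := rfl
      map_add' := fun _ _ => rfl }
  have hV : IsIntegral V z := by
    refine ⟨q.map f, hq.map f, ?_⟩
    rw [Polynomial.eval₂_map]
    exact hq0
  obtain ⟨y, hy⟩ := (IsIntegrallyClosed.isIntegral_iff (R := V) (K := E)).1 hV
  rw [← hy]
  exact y.2

theorem coeffs {Lb : Type} [Field Lb] [IsAlgClosed Lb] [Algebra E Lb]
    (T : Finset (HeightOneSpectrum (𝓞 E))) {D : E[X]} (hD : D ≠ 0)
    (hr : ∀ z : Lb, aeval z D = 0 →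
      IsIntegral ((T : Set (HeightOneSpectrum (𝓞 E))).integer E) z) (l : ℕ) :
    TInt T (D.coeff l / D.leadingCoeff) := by
  apply tint_closed
  have hlc : D.leadingCoeff ≠ 0 := leadingCoeff_ne_zero.2 hD
  set q : Lb[X] := (C D.leadingCoeff⁻¹ * D).map (algebraMap E Lb) with hq
  have hmon : (C D.leadingCoeff⁻¹ * D).Monic := by
    rw [mul_comm]
    exact Polynomial.monic_mul_leadingCoeff_inv hD
  have h1 : IsIntegral ((T : Set (HeightOneSpectrum (𝓞 E))).integer E) (q.coeff l) := by
    refine Polynomial.isIntegral_coeff_of_factors q ?_ (IsAlgClosed.splits q) (fun x hx => hr x ?_) l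
    · rw [hq, (hmon.map _).leadingCoeff]
      exact isIntegral_one
    · rw [hq, Polynomial.IsRoot.def, Polynomial.eval_map_algebraMap, map_mul, aeval_C] at hx
      rcases mul_eq_zero.1 hx with h | h
      · exact absurd h ((_root_.map_ne_zero _).2 (inv_ne_zero hlc))
      · exact h
  rw [hq, Polynomial.coeff_map, Polynomial.coeff_C_mul] at h1
  rw [isIntegral_algebraMap_iff (algebraMap E Lb).injective] at h1
  rw [div_eq_inv_mul]
  exact h1

end Pool.Agent.Work.MP_50269c_nt
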