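import Pool.Agent.Work.MP_50269c_nt.Defs
import Pool.Agent.Work.UP.UCore

/-!
# UnitE (size S-M): the unit step (the Subspace Theorem for tuples of units)

PROOF. For `j ∈ J` the vector `u j` has `T`-units as entries and `∑ c_s u_s = 1`, a `T`-unit. By
`Pool.Agent.Work.UP.unitCore` (for `T`, the number of variables `r ≥ 2`, the coefficients `c_s ≠ 0`) there is a finite set of
proper subspaces of `Fin r → E` containing all `u j`, `j ∈ J`. By the pigeonhole principle (`J` infinite) one
proper subspace `U` contains `u j` for infinitely many `j ∈ J` (`Set.Infinite` and finite union). A proper subspace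
is killed by a nonzero linear form (`Submodule.exists_le_ker_of_lt_top`), which is `v ↦ ∑ b_s v_s` for some
`b ≠ 0`.
-/

set_option autoImplicit false

noncomputable section

namespace Pool.Agent.Work.MP_50269c_nt

open NumberField IsDedekindDomain Polynomial

theorem unitE {E : Type} [Field E] [NumberField E] (T : Finset (HeightOneSpectrum (𝓞 E)))
    {r : ℕ} (hr : 2 ≤ r) {c : Fin r → E} (hc : ∀ s, c s ≠ 0) {u : ℕ → Fin r → E} {J : Set ℕ}
    (hJ : J.Infinite) (hu : ∀ j ∈ J, ∀ s, Pool.Agent.Work.UP.IsU T (u j s))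
    (hsum : ∀ j ∈ J, ∑ s, c s * u j s = 1) :
    ∃ b : Fin r → E, b ≠ 0 ∧ ∃ J' ⊆ J, J'.Infinite ∧ ∀ j ∈ J', ∑ s, b s * u j s = 0 := by
  obtain ⟨Us, hfin, hproper, hcov⟩ := Pool.Agent.Work.UP.unitCore T hr c hc
  have h1 : ∀ j ∈ J, ∃ U ∈ Us, u j ∈ U := by
    intro j hj
    refine hcov (u j) (hu j hj) ?_
    rw [hsum j hj]
    exact ⟨one_ne_zero, fun p _ => map_one _⟩
  have h2 : ∃ U ∈ Us, {j ∈ J | u j ∈ U}.Infinite := by
    by_contra hcon
    push Not at hcon
    apply hJ
    refine (hfin.biUnion hcon).subset ?_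
    intro j hj
    obtain ⟨U, hU, hjU⟩ := h1 j hj
    simp only [Set.mem_iUnion]
    exact ⟨U, hU, hj, hjU⟩
  obtain ⟨U, hU, hinf⟩ := h2
  obtain ⟨g, hg0, hg⟩ := Submodule.exists_le_ker_of_lt_top U (lt_top_iff_ne_top.mpr (hproper U hU))
  refine ⟨fun s => g (Pi.single s 1), ?_, {j ∈ J | u j ∈ U}, fun j hj => hj.1, hinf, ?_⟩
  · intro h0
    apply hg0
    refine LinearMap.pi_ext fun s y => ?_
    have h3 : (Pi.single s y : Fin r → E) = y • Pi.single s (1 : E) := by
      rw [← Pi.single_smul, smul_eq_mul, mul_one]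
    rw [h3, map_smul, LinearMap.zero_apply]
    have h4 := congrFun h0 s
    simp only [Pi.zero_apply] at h4
    rw [h4, smul_zero]
  · intro j hj
    have h3 : g (u j) = 0 := hg hj.2
    rw [← h3]
    conv_rhs => rw [← Finset.univ_sum_single (u j)]
    rw [map_sum]
    refine Finset.sum_congr rfl fun s _ => ?_
    have h4 : (Pi.single s (u j s) : Fin r → E) = (u j s) • Pi.single s (1 : E) := by
      rw [← Pi.single_smul, smul_eq_mul, mul_one]
    rw [h4, map_smul, smul_eq_mul, mul_comm]

end Pool.Agent.Work.MP_50269c_nt
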