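import Pool.Agent.Work.MP_50269c_nt.Defs

/-!
# Val (size M): the values of a linear form dividing the leading coefficient

PROOF. Let `v = FinitePlace.mk p`, multiplicative, `v (y + z) ≤ max (v y) (v z)`, so `v ≤ 1` for sums and products of
elements with `v ≤ 1`, so `v (eval a' Q) ≤ 1` if all `v (coeff) ≤ 1` and all `v (a' k) ≤ 1`. Note `a ≠ 0`
because `eval a (G l0) ≠ 0` and `G l0` is homogeneous of degree `N ≥ 1` (`hN`); let `k0` be an index with
`v (a k)` maximal, `a' = a / a k0`, so `v (a' k) ≤ 1`, `a' k0 = 1`. By homogeneity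
(`MvPolynomial.IsHomogeneous.eval_smul`-type lemma or `MvPolynomial.IsHomogeneous` and `eval`):
`eval a (G l) = (a k0)^N eval a' (G l)`, so `eval a' (G l) / eval a' (G l0) = eval a (G l) / eval a (G l0)` has
`v ≤ 1`. Evaluate `hH k0` at `a'`: `1 = ∑ l, eval a' (H k0 l) * eval a' (G l)
= eval a' (G l0) * ∑ l, eval a' (H k0 l) * (eval a' (G l) / eval a' (G l0))`, so `1 ≤ v (eval a' (G l0))`.
By `hlg`: `eval a' (G l0) = (∑ k, c k * a' k) * eval a' g`, both factors have `v ≤ 1`, so
`v (∑ k, c k * a' k) = 1` (it is `≤ 1` and the product with something `≤ 1` is `≥ 1`). Multiply by `a k0`: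
`v (∑ k, c k * a k) = v (a k0)`.
-/

set_option autoImplicit false

noncomputable section

namespace Pool.Agent.Work.MP_50269c_nt

open NumberField IsDedekindDomain Polynomial

private theorem val_homog {E : Type} [Field E] {m N : ℕ} {Q : MvPolynomial (Fin m) E}
    (hQ : Q.IsHomogeneous N) (c : E) (a : Fin m → E) :
    MvPolynomial.eval (fun k => c * a k) Q = c ^ N * MvPolynomial.eval a Q := by
  rw [MvPolynomial.eval_eq', MvPolynomial.eval_eq', Finset.mul_sum]
  refine Finset.sum_congr rfl fun d hd => ?_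
  have h1 : ∑ i, d i = N := by
    have h2 := hQ (MvPolynomial.mem_support_iff.1 hd)
    rw [Finsupp.weight_apply, Finsupp.sum_fintype _ _ (by simp)] at h2
    simpa using h2
  have h3 : ∏ i, (c * a i) ^ d i = c ^ N * ∏ i, a i ^ d i := by
    simp_rw [mul_pow]
    rw [Finset.prod_mul_distrib, Finset.prod_pow_eq_pow_sum, h1]
  rw [h3]
  ring

/-- The valuation ring. -/
private def valR {E : Type} [Field E] [NumberField E] (v : FinitePlace E) : Subring E where
  carrier := {z | v z ≤ 1}
  mul_mem' := by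
    intro a b ha hb
    show v (a * b) ≤ 1
    rw [map_mul]
    exact mul_le_one₀ ha (apply_nonneg v b) hb
  one_mem' := by
    show v 1 ≤ 1
    rw [map_one]
  add_mem' := by
    intro a b ha hb
    exact (map_add_le_max v a b).trans (max_le ha hb)
  zero_mem' := by
    show v 0 ≤ 1
    rw [map_zero]
    exact zero_le_one
  neg_mem' := by
    intro a ha
    show v (-a) ≤ 1
    rw [map_neg_eq_map]
    exact ha

private theorem valR_eval {E : Type} [Field E] [NumberField E] (v : FinitePlace E) {m : ℕ}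
    {Q : MvPolynomial (Fin m) E} (hQ : ∀ s, v (Q.coeff s) ≤ 1) {a : Fin m → E}
    (ha : ∀ k, v (a k) ≤ 1) : v (MvPolynomial.eval a Q) ≤ 1 := by
  have h : MvPolynomial.eval a Q ∈ valR v := by
    rw [MvPolynomial.eval_eq']
    refine sum_mem fun d _ => mul_mem (hQ d) (prod_mem fun i _ => pow_mem (ha i) _)
  exact h

theorem val {E : Type} [Field E] [NumberField E] (T : Finset (HeightOneSpectrum (𝓞 E)))
    {m r N e : ℕ} (hN : N ≠ 0) {G : Fin r → MvPolynomial (Fin m) E}
    (hG : ∀ l, (G l).IsHomogeneous N) (l0 : Fin r) {H : Fin m → Fin r → MvPolynomial (Fin m) E}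
    (hH : ∀ k, (MvPolynomial.X k : MvPolynomial (Fin m) E) ^ e = ∑ l, H k l * G l)
    (hGT : ∀ l s, TInt T ((G l).coeff s)) (hHT : ∀ k l s, TInt T ((H k l).coeff s))
    {c : Fin m → E} {g : MvPolynomial (Fin m) E}
    (hlg : G l0 = (∑ k, MvPolynomial.C (c k) * MvPolynomial.X k) * g)
    (hc : ∀ k, TInt T (c k)) (hg : ∀ s, TInt T (g.coeff s)) {a : Fin m → E}
    (ha : MvPolynomial.eval a (G l0) ≠ 0)
    (hint : ∀ l, TInt T (MvPolynomial.eval a (G l) / MvPolynomial.eval a (G l0)))
    {p : HeightOneSpectrum (𝓞 E)} (hp : p ∉ T) :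
    ∃ k0, (∀ k, FinitePlace.mk p (a k) ≤ FinitePlace.mk p (a k0)) ∧
      FinitePlace.mk p (∑ k, c k * a k) = FinitePlace.mk p (a k0) := by
  set v : FinitePlace E := FinitePlace.mk p with hv
  have hne : ∃ k, a k ≠ 0 := by
    by_contra hcon
    push Not at hcon
    apply ha
    have h1 : a = fun k => (0 : E) * a k := by
      funext k
      rw [hcon k, zero_mul]
    rw [h1, val_homog (hG l0), zero_pow hN, zero_mul]
  obtain ⟨k1, hk1⟩ := hne
  haveI : Nonempty (Fin m) := ⟨k1⟩
  obtain ⟨k0, hk0⟩ := Finite.exists_max fun k => v (a k)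
  have hpos : 0 < v (a k0) := lt_of_lt_of_le (FinitePlace.pos_iff.2 hk1) (hk0 k1)
  have hak0 : a k0 ≠ 0 := FinitePlace.pos_iff.1 hpos
  refine ⟨k0, hk0, ?_⟩
  set a' : Fin m → E := fun k => a k / a k0 with ha'
  have haa : a = fun k => a k0 * a' k := by
    funext k
    rw [ha', mul_div_cancel₀ _ hak0]
  have hva' : ∀ k, v (a' k) ≤ 1 := by
    intro k
    rw [ha', map_div₀, div_le_one hpos]
    exact hk0 k
  have hev : ∀ l, MvPolynomial.eval a (G l) = a k0 ^ N * MvPolynomial.eval a' (G l) := by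
    intro l
    conv_lhs => rw [haa]
    exact val_homog (hG l) _ _
  have hcN : a k0 ^ N ≠ 0 := pow_ne_zero N hak0
  set γ := MvPolynomial.eval a' (G l0) with hγ
  have hγ0 : γ ≠ 0 := by
    intro h
    apply ha
    rw [hev l0, ← hγ, h, mul_zero]
  have hquo : ∀ l, v (MvPolynomial.eval a' (G l) / γ) ≤ 1 := by
    intro l
    have h1 := hint l p hp
    rw [hev l, hev l0, mul_div_mul_left _ _ hcN] at h1
    exact h1
  have hone : γ⁻¹ = ∑ l, MvPolynomial.eval a' (H k0 l) * (MvPolynomial.eval a' (G l) / γ) := by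
    have h1 := congrArg (MvPolynomial.eval a') (hH k0)
    rw [map_pow, MvPolynomial.eval_X, map_sum] at h1
    have h2 : a' k0 = 1 := by
      rw [ha']
      exact div_self hak0
    rw [h2, one_pow] at h1
    rw [← one_mul γ⁻¹, h1, Finset.sum_mul]
    refine Finset.sum_congr rfl fun l _ => ?_
    rw [map_mul, mul_assoc, div_eq_mul_inv]
  have hγi : v γ⁻¹ ≤ 1 := by
    have h : γ⁻¹ ∈ valR v := by
      rw [hone]
      exact sum_mem fun l _ => mul_mem (valR_eval v (fun s => hHT k0 l s p hp) hva') (hquo l)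
    exact h
  have hγv : 1 ≤ v γ := by
    rw [map_inv₀] at hγi
    exact (inv_le_one₀ (FinitePlace.pos_iff.2 hγ0)).1 hγi
  have hfac : γ = (∑ k, c k * a' k) * MvPolynomial.eval a' g := by
    rw [hγ, hlg, map_mul, map_sum]
    congr 1
    refine Finset.sum_congr rfl fun k _ => ?_
    rw [map_mul, MvPolynomial.eval_C, MvPolynomial.eval_X]
  have h1 : v (∑ k, c k * a' k) ≤ 1 := by
    have h : (∑ k, c k * a' k) ∈ valR v := sum_mem fun k _ => mul_mem (hc k p hp) (hva' k)
    exact h
  have h2 : v (MvPolynomial.eval a' g) ≤ 1 := valR_eval v (fun s => hg s p hp) hva'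
  have h3 : v (∑ k, c k * a' k) = 1 := by
    refine le_antisymm h1 ?_
    rw [hfac, map_mul] at hγv
    refine hγv.trans ?_
    exact mul_le_of_le_one_right (apply_nonneg v _) h2
  have h4 : ∑ k, c k * a k = a k0 * ∑ k, c k * a' k := by
    rw [Finset.mul_sum]
    refine Finset.sum_congr rfl fun k _ => ?_
    rw [ha']
    field_simp
  rw [h4, map_mul, h3, mul_one]

end Pool.Agent.Work.MP_50269c_nt
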