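import Pool.Agent.Work.MP_50269c_nt.CoreA
import Pool.Agent.Work.MP_50269c_nt.NF
import Pool.Agent.Work.MP_50269c_nt.TIntL
import Pool.Agent.Work.MP_50269c_nt.Val
import Pool.Agent.Work.MP_50269c_nt.UnitE

/-!
# CoreB: the ratios of the values of the linear forms are units
-/

set_option autoImplicit false

noncomputable section

namespace Pool.Agent.Work.MP_50269c_nt

open NumberField IsDedekindDomain Polynomial

variable {L : Type} [Field L] [NumberField L] {Lb : Type} [Field Lb] [Algebra L Lb]
  [IsAlgClosure L Lb] {A : Type} [CommRing A] [IsDedekindDomain A] [Algebra L A] {K : Type}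
  [Field K] [Algebra A K] [IsFractionRing A K] [Algebra L K] [IsScalarTower L A K] {Kb : Type}
  [Field Kb] [Algebra K Kb] [Algebra Lb Kb] [Algebra L Kb] [IsScalarTower L K Kb]
  [IsScalarTower L Lb Kb]

variable {n : ℕ} {x : Fin n → A} {t : A} {N : ℕ} {b : Fin N → A} {m : ℕ} {e : Fin m → K}
  {D0 : L[X]} {h : Fin m → A} {M : Fin m → Matrix (Fin N) (Fin N) L[X]}
  {G : ℕ → MvPolynomial (Fin m) L}

theorem units_core (s : St L Lb K Kb x t b e D0 h M G) (hmon : D0.Monic)
    {S : Finset (HeightOneSpectrum (𝓞 L))} {p0 : Ideal A} {f : ℕ → K} {a : ℕ → Fin m → L}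
    (hfa : ∀ j, f j = ∑ k, algebraMap L K (a j k) * e k) {P : ℕ → (A →ₐ[L] Lb)}
    (hP : ∀ j i, IsIntegral ((S : Set (HeightOneSpectrum (𝓞 L))).integer L) (P j (x i)))
    (hpf : ∀ j, (fun y => f j * algebraMap A K y) '' (p0 : Set A) =
      algebraMap A K '' (RingHom.ker (P j) : Set A))
    (hane : ∀ j, a j ≠ 0)
    (hfi : ∀ j, ∀ O : ValuationSubring Kb, AtInf Lb (fun i => emb A K Kb (x i)) O →
      (algebraMap K Kb (f j))⁻¹ ∈ O)
    {r : ℕ} (Os : Fin r → ValuationSubring Kb)
    (hOs : ∀ q, AtInf Lb (fun i => emb A K Kb (x i)) (Os q)) (ℓ : Fin r → Fin m → Lb)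
    (hℓ0 : ∀ q, ℓ q ≠ 0)
    (hℓ : ∀ q k, algebraMap K Kb (e k) - algebraMap Lb Kb (ℓ q k) ∈ (Os q).nonunits)
    (B0 : Finset Lb) :
    ∃ (E : Type) (_ : Field E) (_ : NumberField E) (_ : Algebra L E) (_ : Algebra E Lb)
      (_ : IsScalarTower L E Lb) (T : Finset (HeightOneSpectrum (𝓞 E))),
      (∀ z ∈ B0, ∃ w : E, algebraMap E Lb w = z) ∧
      (∀ j q, ∑ k, ℓ q k * algebraMap L Lb (a j k) ≠ 0) ∧
      ∀ j q q', ∃ u : E, Pool.Agent.Work.UP.IsU T u ∧
        algebraMap E Lb u * ∑ k, ℓ q' k * algebraMap L Lb (a j k) =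
          ∑ k, ℓ q k * algebraMap L Lb (a j k) := by
  classical
  have hN : N ≠ 0 := Ne_zero_of_bas s.hb
  -- the polynomials
  set δ := N * D0.natDegree with hδ
  have hnull := null (Lb := Lb) (fun l : Fin (δ + 1) => G l) (fun a ha => s.common ha)
  obtain ⟨ex, H, hH⟩ := hnull
  have hdiv : ∀ q, ∃ g : MvPolynomial (Fin m) Lb,
      MvPolynomial.map (algebraMap L Lb) (G δ) =
        (∑ k, MvPolynomial.C (ℓ q k) * MvPolynomial.X k) * g := fun q =>
    s.div (hOs q) (hℓ0 q) (hℓ q)
  choose g hg using hdiv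
  have hF : ∃ F : MvPolynomial (Fin n) L, MvPolynomial.aeval x F = t := by
    have h1 : t ∈ Algebra.adjoin L (Set.range x) := by
      rw [s.hx]
      trivial
    rw [Algebra.adjoin_range_eq_range_aeval] at h1
    exact h1
  obtain ⟨F, hF⟩ := hF
  -- the finite set of coefficients
  let cf : ∀ {k : ℕ}, MvPolynomial (Fin k) Lb → Finset Lb := fun g => g.support.image g.coeff
  let B : Finset Lb := B0 ∪ (Finset.univ.biUnion fun l : Fin (δ + 1) =>
      cf (MvPolynomial.map (algebraMap L Lb) (G l))) ∪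
    (Finset.univ.biUnion fun k => Finset.univ.biUnion fun l : Fin (δ + 1) =>
      cf (MvPolynomial.map (algebraMap L Lb) (H k l))) ∪
    (Finset.univ.biUnion fun q => Finset.univ.image (ℓ q)) ∪
    (Finset.univ.biUnion fun q => cf (g q)) ∪
    cf (MvPolynomial.map (algebraMap L Lb) F) ∪
    ((D0.map (algebraMap L Lb)).support.image (D0.map (algebraMap L Lb)).coeff)
  obtain ⟨E, iE1, iE2, iE3, iE4, iE5, T, hB, hST⟩ := exists_nf (L := L) S B
  refine ⟨E, iE1, iE2, iE3, iE4, iE5, T, ?_, ?_⟩
  · intro z hz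
    obtain ⟨w, hw, -⟩ := hB z (by simp only [B, Finset.mem_union]; tauto)
    exact ⟨w, hw⟩
  haveI : IsAlgClosed Lb := IsAlgClosure.isAlgClosed L
  have hLE : Function.Injective (algebraMap E Lb) := (algebraMap E Lb).injective
  -- elements of L in B
  have hLB : ∀ y : L, algebraMap L Lb y ∈ B → TInt T (algebraMap L E y) := by
    intro y hy
    obtain ⟨w, hw1, hw2⟩ := hB _ hy
    rw [IsScalarTower.algebraMap_apply L E Lb] at hw1
    rw [← hLE hw1]
    exact hw2
  have h0T : TInt T (0 : E) := fun p _ => by rw [map_zero]; exact zero_le_one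
  have hcf : ∀ {k : ℕ} (Q : MvPolynomial (Fin k) L),
      cf (MvPolynomial.map (algebraMap L Lb) Q) ⊆ B → ∀ v, TInt T (algebraMap L E (Q.coeff v)) := by
    intro k Q hQ v
    by_cases hv : Q.coeff v = 0
    · rw [hv, map_zero]
      exact h0T
    · apply hLB
      apply hQ
      refine Finset.mem_image.mpr ⟨v, ?_, ?_⟩
      · rw [MvPolynomial.mem_support_iff, MvPolynomial.coeff_map]
        exact fun h => hv ((map_eq_zero _).mp h)
      · rw [MvPolynomial.coeff_map]
  have hGT : ∀ l : Fin (δ + 1), ∀ v, TInt T (algebraMap L E ((G l).coeff v)) := by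
    intro l
    apply hcf
    intro z hz
    simp only [B, Finset.mem_union, Finset.mem_biUnion, Finset.mem_univ, true_and]
    exact Or.inl (Or.inl (Or.inl (Or.inl (Or.inl (Or.inr ⟨l, hz⟩)))))
  have hHT : ∀ k, ∀ l : Fin (δ + 1), ∀ v, TInt T (algebraMap L E ((H k l).coeff v)) := by
    intro k l
    apply hcf
    intro z hz
    simp only [B, Finset.mem_union, Finset.mem_biUnion, Finset.mem_univ, true_and]
    exact Or.inl (Or.inl (Or.inl (Or.inl (Or.inr ⟨k, l, hz⟩))))
  have hFT : ∀ v, TInt T (algebraMap L E (F.coeff v)) := by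
    apply hcf
    intro z hz
    simp only [B, Finset.mem_union]
    exact Or.inl (Or.inr hz)
  have hD0T : ∀ l, TInt T (algebraMap L E (D0.coeff l)) := by
    intro l
    by_cases hl : D0.coeff l = 0
    · rw [hl, map_zero]
      exact h0T
    · apply hLB
      simp only [B, Finset.mem_union]
      refine Or.inr (Finset.mem_image.mpr ⟨l, ?_, ?_⟩)
      · rw [Polynomial.mem_support_iff, Polynomial.coeff_map]
        exact fun h => hl ((map_eq_zero _).mp h)
      · rw [Polynomial.coeff_map]
  have hℓE : ∀ q k, ∃ w : E, algebraMap E Lb w = ℓ q k ∧ TInt T w := by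
    intro q k
    apply hB
    simp only [B, Finset.mem_union, Finset.mem_biUnion, Finset.mem_univ, true_and]
    exact Or.inl (Or.inl (Or.inl (Or.inr ⟨q, Finset.mem_image.mpr ⟨k, Finset.mem_univ _, rfl⟩⟩)))
  choose lE hlE1 hlE2 using hℓE
  have hgE : ∀ q, ∃ g' : MvPolynomial (Fin m) E, MvPolynomial.map (algebraMap E Lb) g' = g q ∧
      ∀ s, TInt T (g'.coeff s) := by
    intro q
    refine lift_mv T (g q) fun v hv => hB _ ?_
    simp only [B, Finset.mem_union, Finset.mem_biUnion, Finset.mem_univ, true_and]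
    exact Or.inl (Or.inl (Or.inr ⟨q, Finset.mem_image.mpr ⟨v, hv, rfl⟩⟩))
  choose gE hgE1 hgE2 using hgE
  -- the objects over E
  let GE : Fin (δ + 1) → MvPolynomial (Fin m) E := fun l => MvPolynomial.map (algebraMap L E) (G l)
  let HE : Fin m → Fin (δ + 1) → MvPolynomial (Fin m) E :=
    fun k l => MvPolynomial.map (algebraMap L E) (H k l)
  let aE : ℕ → Fin m → E := fun j k => algebraMap L E (a j k)
  have hlgE : ∀ q, GE (Fin.last δ) =
      (∑ k, MvPolynomial.C (lE q k) * MvPolynomial.X k) * gE q := by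
    intro q
    apply MvPolynomial.map_injective _ hLE
    rw [map_mul, hgE1, MvPolynomial.map_map, ← IsScalarTower.algebraMap_eq L E Lb, map_sum]
    rw [Fin.val_last, hg q]
    congr 1
    refine Finset.sum_congr rfl fun k _ => ?_
    rw [map_mul, MvPolynomial.map_C, MvPolynomial.map_X, hlE1]
  have hevE : ∀ j l, MvPolynomial.eval (aE j) (GE l) = algebraMap L E
      (MvPolynomial.aeval (a j) (G l)) := by
    intro j l
    simp only [GE, aE]
    rw [MvPolynomial.eval_map, ← MvPolynomial.aeval_def]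
    exact MvPolynomial.aeval_algebraMap_apply _ _ _
  have hlead : ∀ j, MvPolynomial.aeval (a j) (G δ) ≠ 0 := by
    intro j h0
    have h1 := s.coeff_ne (a := fun k => algebraMap L Lb (a j k)) (by
      intro h2
      apply hane j
      funext k
      have h3 := congrFun h2 k
      exact (map_eq_zero _).mp h3) (by
      intro O hO
      have h2 : ∑ k, algebraMap Lb Kb (algebraMap L Lb (a j k)) * algebraMap K Kb (e k) =
          algebraMap K Kb (f j) := by
        rw [hfa j, map_sum]
        refine Finset.sum_congr rfl fun k _ => ?_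
        rw [map_mul, ← IsScalarTower.algebraMap_apply L K Kb,
          ← IsScalarTower.algebraMap_apply L Lb Kb]
      rw [h2]
      exact hfi j O hO)
    apply h1
    have h3 : MvPolynomial.aeval (fun k => algebraMap L Lb (a j k)) (G δ) =
        algebraMap L Lb (MvPolynomial.aeval (a j) (G δ)) :=
      MvPolynomial.aeval_algebraMap_apply _ _ _
    rw [← hδ, h3, h0, map_zero]
  -- integrality of the coefficients
  have hSTm : ∀ z : L, z ∈ (S : Set (HeightOneSpectrum (𝓞 L))).integer L →
      algebraMap L E z ∈ (T : Set (HeightOneSpectrum (𝓞 E))).integer E := fun z hz =>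
    (tint_iff T _).mp (hST z hz)
  have hcoef : ∀ j, ∀ l : Fin (δ + 1), TInt T
      (MvPolynomial.eval (aE j) (GE l) / MvPolynomial.eval (aE j) (GE (Fin.last δ))) := by
    intro j l
    have hco : ∀ l, (Dl E M (aE j)).coeff l = algebraMap L E (MvPolynomial.aeval (a j) (G l)) := by
      intro l
      rw [s.hG E (aE j) l]
      exact MvPolynomial.aeval_algebraMap_apply _ _ _
    have hne : (Dl E M (aE j)).coeff δ ≠ 0 := by
      rw [hco]
      exact fun h => hlead j ((map_eq_zero _).mp h)
    have hD : Dl E M (aE j) ≠ 0 := by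
      intro h0
      rw [h0, Polynomial.coeff_zero] at hne
      exact hne rfl
    have hmapLb : (Dl E M (aE j)).map (algebraMap E Lb) =
        Dl Lb M (fun k => algebraMap L Lb (a j k)) := by
      rw [Dl_map]
      congr 1
      funext k
      exact (IsScalarTower.algebraMap_apply L E Lb _).symm
    have hdeg : (Dl E M (aE j)).natDegree = δ := by
      refine le_antisymm ?_ (Polynomial.le_natDegree_of_ne_zero hne)
      have h1 := s.natDeg (fun k => algebraMap L Lb (a j k))
      rw [← hmapLb, Polynomial.natDegree_map] at h1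
      exact h1
    have h2 := coeffs (Lb := Lb) T hD (by
      intro z hz
      have hz' : aeval z (Dl L M (a j)) = 0 := by
        have h3 : (Dl L M (a j)).map (algebraMap L E) = Dl E M (aE j) := Dl_map M (a j)
        rw [← h3, Polynomial.aeval_map_algebraMap] at hz
        exact hz
      rcases s.roots (hfa j) (hpf j) hz' with h4 | ⟨P', hP1, hP2⟩
      · refine int_monic T (D := D0.map (algebraMap L E)) (hmon.map _) ?_ ?_
        · intro l
          rw [Polynomial.coeff_map]
          exact (tint_iff T _).mp (hD0T l)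
        · rw [Polynomial.aeval_map_algebraMap]
          exact h4
      · rw [← hP1]
        refine int_poly T hF (fun v => (tint_iff T _).mp (hFT v)) fun i => ?_
        exact int_up S T hSTm (int_root S hP2 (hP j i))) l
    rw [Polynomial.leadingCoeff, hdeg, hco, hco] at h2
    rw [hevE, hevE, Fin.val_last]
    exact h2
  have hval : ∀ j q, ∀ p : HeightOneSpectrum (𝓞 E), p ∉ T →
      ∃ k0, (∀ k, FinitePlace.mk p (aE j k) ≤ FinitePlace.mk p (aE j k0)) ∧
      FinitePlace.mk p (∑ k, lE q k * aE j k) = FinitePlace.mk p (aE j k0) := by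
    intro j q p hp
    refine val T hN (e := ex) (G := GE) (fun l => (s.hGh l).map _) (Fin.last δ) (H := HE) ?_ ?_ ?_
      (hlgE q) (hlE2 q) (hgE2 q) ?_ (hcoef j) hp
    · intro k
      have h1 := congrArg (MvPolynomial.map (algebraMap L E)) (hH k)
      rw [map_pow, MvPolynomial.map_X, map_sum] at h1
      rw [h1]
      exact Finset.sum_congr rfl fun l _ => by rw [map_mul]
    · intro l v
      simp only [GE]
      rw [MvPolynomial.coeff_map]
      exact hGT l v
    · intro k l v
      simp only [HE]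
      rw [MvPolynomial.coeff_map]
      exact hHT k l v
    · rw [hevE]
      exact fun h => hlead j ((map_eq_zero _).mp h)
  have hne : ∀ j q, ∑ k, lE q k * aE j k ≠ 0 := by
    intro j q h0
    have h1 := hlgE q
    have h2 := congrArg (MvPolynomial.eval (aE j)) h1
    rw [map_mul, map_sum] at h2
    simp only [map_mul, MvPolynomial.eval_C, MvPolynomial.eval_X] at h2
    rw [h0, zero_mul, hevE] at h2
    exact hlead j ((map_eq_zero _).mp h2)
  have hlb : ∀ j q, algebraMap E Lb (∑ k, lE q k * aE j k) =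
      ∑ k, ℓ q k * algebraMap L Lb (a j k) := by
    intro j q
    rw [map_sum]
    refine Finset.sum_congr rfl fun k _ => ?_
    rw [map_mul, hlE1, IsScalarTower.algebraMap_apply L E Lb]
  refine ⟨fun j q => ?_, fun j q q' => ?_⟩
  · rw [← hlb]
    exact fun h => hne j q ((map_eq_zero _).mp h)
  · refine ⟨(∑ k, lE q k * aE j k) / ∑ k, lE q' k * aE j k,
      ⟨div_ne_zero (hne j q) (hne j q'), fun p hp => ?_⟩, ?_⟩
    · obtain ⟨k0, h1, h2⟩ := hval j q p hp
      obtain ⟨k1, h3, h4⟩ := hval j q' p hp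
      rw [map_div₀, h2, h4, le_antisymm (h3 k0) (h1 k1)]
      refine div_self ?_
      rw [← h4]
      exact fun h => hne j q' ((map_eq_zero _).mp h)
    · rw [← hlb, ← hlb, ← map_mul, div_mul_cancel₀ _ (hne j q')]

end Pool.Agent.Work.MP_50269c_nt
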