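import Mathlib

/-!
# Integral points of bounded degree on affine curves: definitions (fixed file)

`L` number field, `Lb` its algebraic closure, `A` the coordinate ring of the affine curve `C` with
coordinate functions `x i`, `K` the function field of `C` over `L`, `Kb` the function field over `Lb`.
-/

set_option autoImplicit false

noncomputable section

namespace Pool.Agent.Work.MP_50269c_nt

open NumberField IsDedekindDomain Polynomial

/-- `O` is a point at infinity of the curve with field of constants `k`, function field `F` and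
affine coordinate functions `x i`: a valuation subring of `F` containing `k` but not all `x i`. -/
def AtInf (k : Type) [Field k] {F : Type} [Field F] [Algebra k F] {n : ℕ} (x : Fin n → F)
    (O : ValuationSubring F) : Prop :=
  (∀ c : k, algebraMap k F c ∈ O) ∧ ∃ i, x i ∉ O

/-- The points `P` of `C` over `Lb` whose coordinates are integral over the ring of `S`-integers of
`L` and with `[L(P) : L] ≤ d`. -/
def IntPts (L : Type) [Field L] [NumberField L] (Lb : Type) [Field Lb] [Algebra L Lb]
    (S : Finset (HeightOneSpectrum (𝓞 L))) {A : Type} [CommRing A] [Algebra L A] {n : ℕ}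
    (x : Fin n → A) (d : ℕ) : Set (A →ₐ[L] Lb) :=
  {P | (∀ i, IsIntegral ((S : Set (HeightOneSpectrum (𝓞 L))).integer L) (P (x i))) ∧
    Module.finrank L (IntermediateField.adjoin L (Set.range fun i => P (x i))) ≤ d}

/-- `L(P_1, ..., P_q)`: the field generated over `L` by the values at the points at infinity (over
`Lb`) of the functions in `K` which are finite there. -/
def bdryField (L : Type) [Field L] (Lb : Type) [Field Lb] [Algebra L Lb] {A : Type} [CommRing A]
    {n : ℕ} (x : Fin n → A) (K : Type) [Field K] [Algebra A K] (Kb : Type) [Field Kb]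
    [Algebra K Kb] [Algebra Lb Kb] : IntermediateField L Lb :=
  IntermediateField.adjoin L {c : Lb | ∃ O : ValuationSubring Kb,
    AtInf Lb (fun i => algebraMap K Kb (algebraMap A K (x i))) O ∧
    ∃ y : K, algebraMap K Kb y - algebraMap Lb Kb c ∈ O.nonunits}

/-- `L(P)` for one point at infinity `P`, given by the place `O`: the field generated over `L` by the
values at `P` of the functions in `K` which are finite there. -/
def ptField (L : Type) [Field L] (Lb : Type) [Field Lb] [Algebra L Lb] (K : Type) [Field K]
    {Kb : Type} [Field Kb] [Algebra K Kb] [Algebra Lb Kb] (O : ValuationSubring Kb) :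
    IntermediateField L Lb :=
  IntermediateField.adjoin L {c : Lb | ∃ y : K, algebraMap K Kb y - algebraMap Lb Kb c ∈ O.nonunits}

/-- The ideals `p` and `q` of `A` (effective divisors on `C`) are linearly equivalent on the smooth
completion of `C`: for some `f` in `K` with neither zeros nor poles at infinity, `f q = p`. -/
def LinEq (L : Type) [Field L] {A : Type} [CommRing A] {n : ℕ} (x : Fin n → A) (K : Type) [Field K]
    [Algebra A K] [Algebra L K] (p q : Ideal A) : Prop :=
  ∃ f : K, (fun a => f * algebraMap A K a) '' (q : Set A) = algebraMap A K '' (p : Set A) ∧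
    ∀ O : ValuationSubring K, AtInf L (fun i => algebraMap A K (x i)) O → f ∈ O ∧ f⁻¹ ∈ O

/-! ### Auxiliary definitions (not part of the statement of the theorem) -/

/-- the inclusion of `A` in `Kb` -/
abbrev emb (A : Type) [CommRing A] (K : Type) [Field K] [Algebra A K] (Kb : Type) [Field Kb]
    [Algebra K Kb] : A →+* Kb := (algebraMap K Kb).comp (algebraMap A K)

/-- `b` is a basis of `A` over the polynomials in `t` -/
def Bas (L : Type) [Field L] {A : Type} [CommRing A] [Algebra L A] (t : A) {N : ℕ}
    (b : Fin N → A) : Prop :=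
  ∀ a : A, ∃! c : Fin N → L[X], a = ∑ i, aeval t (c i) * b i

/-- the ring `A` with constants extended to `Lb`, in `Kb` -/
def Ab (A : Type) [CommRing A] (K : Type) [Field K] [Algebra A K] (Lb : Type) [Field Lb]
    (Kb : Type) [Field Kb] [Algebra K Kb] [Algebra Lb Kb] : Subalgebra Lb Kb :=
  Algebra.adjoin Lb (Set.range (emb A K Kb))

/-- the ring of the quotients `p(τ) / q(τ)` with `deg p ≤ deg q` -/
def Rinf (Lb : Type) [Field Lb] {Kb : Type} [Field Kb] [Algebra Lb Kb] (τ : Kb) : Subring Kb where
  carrier := {z | ∃ p q : Lb[X], aeval τ q ≠ 0 ∧ p.natDegree ≤ q.natDegree ∧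
    z = aeval τ p / aeval τ q}
  mul_mem' := by
    rintro a b ⟨p, q, hq, hpq, rfl⟩ ⟨p', q', hq', hpq', rfl⟩
    refine ⟨p * p', q * q', ?_, ?_, ?_⟩
    · rw [map_mul]
      exact mul_ne_zero hq hq'
    · have h1 : q ≠ 0 := fun h => hq (by rw [h, map_zero])
      have h2 : q' ≠ 0 := fun h => hq' (by rw [h, map_zero])
      rw [Polynomial.natDegree_mul h1 h2]
      exact Polynomial.natDegree_mul_le.trans (add_le_add hpq hpq')
    · rw [map_mul, map_mul, div_mul_div_comm]
  one_mem' := ⟨1, 1, by simp, le_rfl, by simp⟩
  add_mem' := by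
    rintro a b ⟨p, q, hq, hpq, rfl⟩ ⟨p', q', hq', hpq', rfl⟩
    refine ⟨p * q' + q * p', q * q', ?_, ?_, ?_⟩
    · rw [map_mul]
      exact mul_ne_zero hq hq'
    · have h1 : q ≠ 0 := fun h => hq (by rw [h, map_zero])
      have h2 : q' ≠ 0 := fun h => hq' (by rw [h, map_zero])
      rw [Polynomial.natDegree_mul h1 h2]
      refine (Polynomial.natDegree_add_le _ _).trans (max_le ?_ ?_)
      · exact Polynomial.natDegree_mul_le.trans (add_le_add hpq le_rfl)
      · exact Polynomial.natDegree_mul_le.trans (add_le_add le_rfl hpq')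
    · rw [map_add, map_mul, map_mul, map_mul, div_add_div _ _ hq hq']
  zero_mem' := ⟨0, 1, by simp, by simp, by simp⟩
  neg_mem' := by
    rintro a ⟨p, q, hq, hpq, rfl⟩
    exact ⟨-p, q, hq, by rwa [Polynomial.natDegree_neg], by rw [map_neg, neg_div]⟩

/-- `M` is the matrix of the multiplication by `h` in the basis `b` over the polynomials in `t` -/
def IsMat (L : Type) [Field L] {A : Type} [CommRing A] [Algebra L A] (t : A) {N : ℕ}
    (b : Fin N → A) (h : A) (M : Matrix (Fin N) (Fin N) L[X]) : Prop :=
  ∀ j, h * b j = ∑ i, aeval t (M i j) * b i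

/-- the determinant of `∑ a_k M_k` -/
def Dl {L : Type} [Field L] (F : Type) [Field F] [Algebra L F] {m N : ℕ}
    (M : Fin m → Matrix (Fin N) (Fin N) L[X]) (a : Fin m → F) : F[X] :=
  Matrix.det (∑ k, (C (a k)) • (M k).map (Polynomial.map (algebraMap L F)))

/-- the functions in `Kb` with poles of order at most `m` at `p` and of order at most `C` (in units
of the poles of `τ`) at infinity -/
def XX {A : Type} [CommRing A] (K : Type) [Field K] [Algebra A K] (Lb : Type) [Field Lb]
    (Kb : Type) [Field Kb] [Algebra K Kb] [Algebra Lb Kb] {n : ℕ} (x : Fin n → A) (t : A)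
    (p : Ideal A) (m C : ℕ) : Submodule Lb Kb where
  carrier := {h | (∀ a ∈ p ^ m, h * emb A K Kb a ∈ Ab A K Lb Kb) ∧
    ∀ O : ValuationSubring Kb, AtInf Lb (fun i => emb A K Kb (x i)) O → h / emb A K Kb t ^ C ∈ O}
  add_mem' := by
    rintro a b ⟨h1, h2⟩ ⟨h3, h4⟩
    refine ⟨fun c hc => ?_, fun O hO => ?_⟩
    · rw [add_mul]
      exact add_mem (h1 c hc) (h3 c hc)
    · rw [add_div]
      exact add_mem (h2 O hO) (h4 O hO)
  zero_mem' := by
    refine ⟨fun c _ => ?_, fun O _ => ?_⟩
    · rw [zero_mul]
      exact zero_mem _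
    · rw [zero_div]
      exact zero_mem _
  smul_mem' := by
    rintro c a ⟨h1, h2⟩
    refine ⟨fun r hr => ?_, fun O hO => ?_⟩
    · rw [smul_mul_assoc]
      exact Subalgebra.smul_mem _ (h1 r hr) c
    · rw [Algebra.smul_def, mul_div_assoc]
      exact mul_mem (hO.1 c) (h2 O hO)

/-- `z` is integral outside the places in `T` -/
def TInt {E : Type} [Field E] [NumberField E] (T : Finset (HeightOneSpectrum (𝓞 E))) (z : E) :
    Prop := ∀ p : HeightOneSpectrum (𝓞 E), p ∉ T → FinitePlace.mk p z ≤ 1

end Pool.Agent.Work.MP_50269c_nt
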