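import Pool.Agent.Work.MP_50269c_nt.Defs
import Pool.Agent.Work.MP_50269c_nt.Tinf
import Pool.Agent.Work.MP_50269c_nt.KBas
import Pool.Agent.Work.MP_50269c_nt.Integ
import Pool.Agent.Work.MP_50269c_nt.Forms
import Pool.Agent.Work.MP_50269c_nt.DetNe
import Pool.Agent.Work.MP_50269c_nt.Deg

/-!
# XXfin (size M): functions with poles of bounded order at infinity

Write `τ = emb A K Kb t`. PROOFS.
`zero_of_zeros`: `z ∈ Ab` is a finite sum `∑ k, a k * emb (h k)`, `a k ∈ Lb`, `h k ∈ A` (`Ab` is the `Lb`-span of the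
image of `A`, see KBas; `kbas_repr` gives this too: the monomials `τ^s emb (b i)`). Let `M k` be the matrix of `h k`
(`exists_mat`) and `D = 1`. There is a place `O0` at infinity (`exists_atInf`). By `deg_le` the degree of
`Dl Lb M a` is `≤ N * 0 = 0`, by `coeff_zero` the coefficient of `X^0` is `0`; so `Dl Lb M a = 0` and `z = 0` by
`det_ne`.
`xx_fin`: as `p ^ 0 = ⊤` contains `1`, the elements of `XX .. p 0 c` are in `Ab`. By `kbas_repr`, `kbas_ind` each is
`∑ i, aeval τ (q i) * emb (b i)` with unique `q`, depending linearly on the element. The linear map to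
`Fin N → Fin (c+1) → Lb` given by the coefficients of degree `≤ c` of the `q i` is injective: if they all
vanish then `q i = X^(c+1) * q' i`, so `h = τ^(c+1) h'` with `h' ∈ Ab`, and at every place `O` at infinity
`h' = (h/τ^c) * τ⁻¹ ∈ O.nonunits` (`inv_t_nonunit`), so `h' = 0` by `zero_of_zeros`. So `XX` is
finite dimensional.
-/

set_option autoImplicit false

noncomputable section

namespace Pool.Agent.Work.MP_50269c_nt

open NumberField IsDedekindDomain Polynomial

variable {L : Type} [Field L] [NumberField L] {Lb : Type} [Field Lb] [Algebra L Lb]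
  [IsAlgClosure L Lb] {A : Type} [CommRing A] [IsDedekindDomain A] [Algebra L A] {K : Type}
  [Field K] [Algebra A K] [IsFractionRing A K] [Algebra L K] [IsScalarTower L A K] {Kb : Type}
  [Field Kb] [Algebra K Kb] [Algebra Lb Kb] [Algebra L Kb] [IsScalarTower L K Kb]
  [IsScalarTower L Lb Kb]

variable {n : ℕ} {x : Fin n → A} {t : A} {N : ℕ} {b : Fin N → A}

private theorem nonunits_mul {F : Type} [Field F] (O : ValuationSubring F) {a b : F} (ha : a ∈ O)
    (hb : b ∈ O.nonunits) : a * b ∈ O.nonunits := by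
  rw [ValuationSubring.mem_nonunits_iff] at hb ⊢
  rw [map_mul]
  have h1 : O.valuation a ≤ 1 := (O.valuation_le_one_iff a).mpr ha
  exact lt_of_le_of_lt (mul_le_of_le_one_left' h1) hb

private theorem mem_of_nonunits {F : Type} [Field F] (O : ValuationSubring F) {b : F}
    (hb : b ∈ O.nonunits) : b ∈ O := by
  rw [ValuationSubring.mem_nonunits_iff] at hb
  exact (O.valuation_le_one_iff b).mp hb.le

theorem zero_of_zeros (hx : Algebra.adjoin L (Set.range x) = ⊤)
    (hgeo : ∀ z : K, IsAlgebraic L z → z ∈ Set.range (algebraMap L K))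
    (hKb : IntermediateField.adjoin Lb (Set.range (algebraMap K Kb)) = ⊤) (hb : Bas L t b)
    {z : Kb} (hz : z ∈ Ab A K Lb Kb) (hO : ∀ O : ValuationSubring Kb,
      AtInf Lb (fun i => emb A K Kb (x i)) O → z ∈ O.nonunits) : z = 0 := by
  by_contra hne
  obtain ⟨q, hq⟩ := kbas_repr (N := N) (b := b) hb hz
  -- a common bound for the degrees
  obtain ⟨D, hD⟩ : ∃ D : ℕ, ∀ i, (q i).natDegree < D :=
    ⟨∑ i, (q i).natDegree + 1, fun i => Nat.lt_succ_of_le
      (Finset.single_le_sum (f := fun i => (q i).natDegree) (fun _ _ => Nat.zero_le _)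
        (Finset.mem_univ i))⟩
  let h : Fin (N * D) → A := fun k => t ^ ((finProdFinEquiv.symm k).2 : ℕ) * b (finProdFinEquiv.symm k).1
  let a : Fin (N * D) → Lb := fun k => (q (finProdFinEquiv.symm k).1).coeff ((finProdFinEquiv.symm k).2 : ℕ)
  have hz2 : z = ∑ k, algebraMap Lb Kb (a k) * emb A K Kb (h k) := by
    have e1 : ∑ k, algebraMap Lb Kb (a k) * emb A K Kb (h k) =
        ∑ ij : Fin N × Fin D, algebraMap Lb Kb ((q ij.1).coeff (ij.2 : ℕ)) *
          emb A K Kb (t ^ (ij.2 : ℕ) * b ij.1) :=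
      finProdFinEquiv.symm.sum_comp (fun ij : Fin N × Fin D =>
        algebraMap Lb Kb ((q ij.1).coeff (ij.2 : ℕ)) * emb A K Kb (t ^ (ij.2 : ℕ) * b ij.1))
    rw [e1, hq, Fintype.sum_prod_type]
    refine Finset.sum_congr rfl fun i _ => ?_
    rw [aeval_eq_sum_range' (hD i), Finset.sum_mul, Finset.sum_range]
    refine Finset.sum_congr rfl fun s _ => ?_
    rw [Algebra.smul_def, map_mul, map_pow, mul_assoc]
  have hM : ∀ k, ∃ M : Matrix (Fin N) (Fin N) L[X], IsMat L t b (h k) M := fun k => exists_mat hb _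
  choose M hM using hM
  have h1 : Dl Lb M a ≠ 0 := det_ne hgeo hb hM a (by rw [← hz2]; exact hne)
  have h2 : ∀ O : ValuationSubring Kb, AtInf Lb (fun i => emb A K Kb (x i)) O →
      (∑ k, algebraMap Lb Kb (a k) * emb A K Kb (h k)) / aeval (emb A K Kb t) (1 : Lb[X]) ∈
        O.nonunits := by
    intro O hOi
    rw [← hz2, map_one, div_one]
    exact hO O hOi
  obtain ⟨O0, hO0⟩ := exists_atInf (K := K) (Kb := Kb) (Lb := Lb) hx hgeo hKb hb
  have h3 := deg_le hx hgeo hKb hb hM a (one_ne_zero : (1 : Lb[X]) ≠ 0)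
    (fun O hOi => mem_of_nonunits O (h2 O hOi))
  have h4 := coeff_zero hx hgeo hKb hb hM a (one_ne_zero : (1 : Lb[X]) ≠ 0)
    (fun O hOi => mem_of_nonunits O (h2 O hOi)) hO0 (h2 O0 hO0)
  rw [natDegree_one, mul_zero] at h3 h4
  apply h1
  rw [eq_C_of_natDegree_le_zero h3, h4, C_0]

theorem xx_fin (hx : Algebra.adjoin L (Set.range x) = ⊤)
    (hgeo : ∀ z : K, IsAlgebraic L z → z ∈ Set.range (algebraMap L K))
    (hKb : IntermediateField.adjoin Lb (Set.range (algebraMap K Kb)) = ⊤) (hb : Bas L t b)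
    (p : Ideal A) (c : ℕ) : Module.Finite Lb (XX K Lb Kb x t p 0 c) := by
  have hτ : emb A K Kb t ∈ Ab A K Lb Kb := Algebra.subset_adjoin ⟨t, rfl⟩
  -- the linear map from the coefficients
  let Ψ : (Fin N → Lb[X]) →ₗ[Lb] Kb :=
    { toFun := fun q => ∑ i, aeval (emb A K Kb t) (q i) * emb A K Kb (b i)
      map_add' := by
        intro q q'
        rw [← Finset.sum_add_distrib]
        refine Finset.sum_congr rfl fun i _ => ?_
        rw [Pi.add_apply, map_add, add_mul]
      map_smul' := by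
        intro r q
        rw [Finset.smul_sum]
        refine Finset.sum_congr rfl fun i _ => ?_
        rw [Pi.smul_apply, map_smul, RingHom.id_apply, smul_mul_assoc] }
  have hΨ : ∀ q, Ψ q = ∑ i, aeval (emb A K Kb t) (q i) * emb A K Kb (b i) := fun _ => rfl
  have hΨmem : ∀ q, Ψ q ∈ Ab A K Lb Kb := by
    intro q
    rw [hΨ]
    refine sum_mem fun i _ => mul_mem ?_ (Algebra.subset_adjoin ⟨b i, rfl⟩)
    have e := (aeval (⟨emb A K Kb t, hτ⟩ : Ab A K Lb Kb) (q i)).2
    rw [← Subalgebra.aeval_coe] at e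
    exact e
  have hΨi : Function.Injective Ψ := by
    rw [← LinearMap.ker_eq_bot, LinearMap.ker_eq_bot']
    intro q hq
    exact kbas_ind hgeo hb hq
  obtain ⟨g, hg⟩ := Ψ.exists_leftInverse_of_injective (LinearMap.ker_eq_bot.mpr hΨi)
  have hgΨ : ∀ q, g (Ψ q) = q := fun q => LinearMap.congr_fun hg q
  let Φ : XX K Lb Kb x t p 0 c →ₗ[Lb] (Fin N → Fin (c + 1) → Lb) :=
    { toFun := fun h i s => (g (h : Kb) i).coeff (s : ℕ)
      map_add' := by
        intro h h'
        funext i s
        simp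
      map_smul' := by
        intro r h
        funext i s
        simp }
  have hΦ : Function.Injective Φ := by
    rw [← LinearMap.ker_eq_bot, LinearMap.ker_eq_bot']
    intro h hh
    have h1 : (h : Kb) ∈ Ab A K Lb Kb := by
      have := h.2.1 1 (by simp)
      rwa [map_one, mul_one] at this
    obtain ⟨q, hq⟩ := kbas_repr (N := N) (b := b) hb h1
    have hq' : (h : Kb) = Ψ q := hq
    have hgq : g (h : Kb) = q := by rw [hq', hgΨ]
    have hdvd : ∀ i, X ^ (c + 1) ∣ q i := by
      intro i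
      rw [X_pow_dvd_iff]
      intro d hd
      have e := congrFun (congrFun hh i) ⟨d, hd⟩
      change (g (h : Kb) i).coeff d = 0 at e
      rwa [hgq] at e
    choose r hr using hdvd
    have h2 : (h : Kb) = emb A K Kb t ^ (c + 1) * Ψ r := by
      rw [hq', hΨ, hΨ, Finset.mul_sum]
      refine Finset.sum_congr rfl fun i _ => ?_
      rw [hr i, map_mul, map_pow, aeval_X, mul_assoc]
    have h3 : Ψ r = 0 := by
      refine zero_of_zeros hx hgeo hKb hb (hΨmem r) fun O hO => ?_
      have hne : emb A K Kb t ≠ 0 := by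
        intro h0
        exact t_not_mem (K := K) hb hO (h0 ▸ O.zero_mem)
      have h4 : Ψ r = ((h : Kb) / emb A K Kb t ^ c) * (emb A K Kb t)⁻¹ := by
        rw [h2, eq_comm, mul_inv_eq_iff_eq_mul₀ hne, div_eq_iff (pow_ne_zero c hne)]
        ring
      rw [h4]
      exact nonunits_mul O (h.2.2 O hO) (inv_t_nonunit hb hO)
    apply Subtype.ext
    rw [h2, h3, mul_zero]
    rfl
  exact Module.Finite.of_injective Φ hΦ

end Pool.Agent.Work.MP_50269c_nt
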