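import Pool.Agent.Work.MP_50269c_nt.Defs

/-!
# XXstep (size M): one more pole at `p`

PROOF. Write `e` for `emb A K Kb`, `m' = m + 1`. As `A` is Dedekind and `p` is nonzero and proper, there is
`y ∈ p`, `y ∉ p ^ 2`; `(y) = p I` with `I` not in `p`, so `I ^ m'` is not in the maximal ideal `p`,
`I ^ m' ⊔ p = ⊤`, and so (*) `span {y ^ m'} ⊔ p ^ (m' + 1) = p ^ m'`. As `p` is invertible there are finitely many
`u_i ∈ K`, `v_i ∈ p` with `∑ u_i v_i = 1` and `u_i a ∈ A` for all `a ∈ p`
(`FractionalIdeal` inverse, `mul_inv_cancel₀`). Let `J` be the `Lb`-span in `Kb` of all `e a * w`,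
`a ∈ p`, `w ∈ Ab`; it is stable under multiplication by `Ab`, contained in `Ab`. If `r_1, ..., r_e` in `A` represent an `L`-basis
of `A ⧸ p` then `Ab` is contained in `J +` the `Lb`-span of the `e r_i` (`Ab` is spanned over `Lb` by the
`e a`, and `a - ∑ c_i r_i ∈ p`). So `Ab / J` has dimension `≤ finrank L (A ⧸ p)`.
Consider the linear map `h ↦ e y ^ m' * h` from `XX .. p m' c` to `Ab / J` (`y ^ m' ∈ p ^ m'`). CLAIM: its kernel is
contained in (the elements which are also in) `XX .. p m c`. Let `e y ^ m' * h ∈ J`. For `w ∈ p ^ m'`: by (*)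
`w = y ^ m' a + w'`, `w' = ∑ p_i w_i` with `p_i ∈ p`, `w_i ∈ p ^ m'`, so
`e w * h = e a * (e y ^ m' * h) + ∑ e p_i * (e w_i * h) ∈ J`. For `z ∈ p ^ m`:
`e z * h = ∑ u_i * (e (v_i z) * h)` with `v_i z ∈ p ^ m'`, so `e (v_i z) * h ∈ J`, and `u_i J ⊆ Ab`. So `e z * h ∈ Ab`.
The condition at infinity is the same. So the kernel is isomorphic to a subspace of `XX .. p m c`, and
rank-nullity gives both claims.
-/

set_option autoImplicit false

noncomputable section

namespace Pool.Agent.Work.MP_50269c_nt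

open NumberField IsDedekindDomain Polynomial

variable {L : Type} [Field L] [NumberField L] {Lb : Type} [Field Lb] [Algebra L Lb]
  [IsAlgClosure L Lb] {A : Type} [CommRing A] [IsDedekindDomain A] [Algebra L A] {K : Type}
  [Field K] [Algebra A K] [IsFractionRing A K] [Algebra L K] [IsScalarTower L A K] {Kb : Type}
  [Field Kb] [Algebra K Kb] [Algebra Lb Kb] [Algebra L Kb] [IsScalarTower L K Kb]
  [IsScalarTower L Lb Kb]

variable {n : ℕ} {x : Fin n → A} {t : A}

omit [NumberField L] [IsAlgClosure L Lb] [IsDedekindDomain A] [Algebra L A] [IsFractionRing A K]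
  [Algebra L K] [IsScalarTower L A K] [Algebra L Kb] [IsScalarTower L K Kb]
  [IsScalarTower L Lb Kb] [Algebra L Lb] in
private theorem ab_span : Subalgebra.toSubmodule (Ab A K Lb Kb) =
    Submodule.span Lb (Set.range (emb A K Kb)) := by
  rw [Ab, Algebra.adjoin_eq_span]
  have h0 : Set.range (emb A K Kb) =
      ((MonoidHom.mrange (emb A K Kb : A →* Kb) : Submonoid Kb) : Set Kb) := by
    rw [MonoidHom.coe_mrange]
    rfl
  rw [h0, Submonoid.closure_eq]

/-- the product of the ideal with the extended ring -/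
private def JJ (A : Type) [CommRing A] (K : Type) [Field K] [Algebra A K] (Lb : Type) [Field Lb]
    (Kb : Type) [Field Kb] [Algebra K Kb] [Algebra Lb Kb] (p : Ideal A) : Submodule Lb Kb :=
  Submodule.span Lb {z | ∃ a ∈ p, ∃ w ∈ Ab A K Lb Kb, z = emb A K Kb a * w}

omit [NumberField L] [IsAlgClosure L Lb] [IsDedekindDomain A] [Algebra L A] [IsFractionRing A K]
  [Algebra L K] [IsScalarTower L A K] [Algebra L Kb] [IsScalarTower L K Kb]
  [IsScalarTower L Lb Kb] [Algebra L Lb] in
private theorem jj_mul {p : Ideal A} {z j : Kb} (hz : z ∈ Ab A K Lb Kb)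
    (hj : j ∈ JJ A K Lb Kb p) : z * j ∈ JJ A K Lb Kb p := by
  induction hj using Submodule.span_induction with
  | mem y h =>
    obtain ⟨a, ha, w, hw, rfl⟩ := h
    exact Submodule.subset_span ⟨a, ha, z * w, mul_mem hz hw, by ring⟩
  | zero =>
    rw [mul_zero]
    exact zero_mem _
  | add y y' _ _ hy hy' =>
    rw [mul_add]
    exact add_mem hy hy'
  | smul c y _ hy =>
    rw [mul_smul_comm]
    exact Submodule.smul_mem _ _ hy

omit [NumberField L] [IsAlgClosure L Lb] [IsDedekindDomain A] [Algebra L A] [IsFractionRing A K]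
  [Algebra L K] [IsScalarTower L A K] [Algebra L Kb] [IsScalarTower L K Kb]
  [IsScalarTower L Lb Kb] [Algebra L Lb] in
private theorem inv_jj {p : Ideal A} {u : K} (hu : ∀ a ∈ p, ∃ a' : A, algebraMap A K a' =
    u * algebraMap A K a) {j : Kb} (hj : j ∈ JJ A K Lb Kb p) :
    algebraMap K Kb u * j ∈ Ab A K Lb Kb := by
  induction hj using Submodule.span_induction with
  | mem y h =>
    obtain ⟨a, ha, w, hw, rfl⟩ := h
    obtain ⟨a', ha'⟩ := hu a ha
    have h1 : algebraMap K Kb u * (emb A K Kb a * w) = emb A K Kb a' * w := by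
      rw [← mul_assoc, RingHom.comp_apply, RingHom.comp_apply, ← map_mul, ha']
    rw [h1]
    exact mul_mem (Algebra.subset_adjoin ⟨a', rfl⟩) hw
  | zero =>
    rw [mul_zero]
    exact zero_mem _
  | add y y' _ _ hy hy' =>
    rw [mul_add]
    exact add_mem hy hy'
  | smul c y _ hy =>
    rw [mul_smul_comm]
    exact Subalgebra.smul_mem _ hy c

omit [NumberField L] [IsAlgClosure L Lb] [IsDedekindDomain A] [IsFractionRing A K] in
private theorem emb_smul (c : L) (a : A) :
    emb A K Kb (c • a) = algebraMap L Lb c • emb A K Kb a := by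
  rw [Algebra.smul_def, Algebra.smul_def, map_mul]
  congr 1
  rw [RingHom.comp_apply, ← IsScalarTower.algebraMap_apply L A K,
    ← IsScalarTower.algebraMap_apply L K Kb, ← IsScalarTower.algebraMap_apply L Lb Kb]

/-- representatives of a basis of the residue ring span the extended ring modulo `JJ` -/
private theorem ab_le {p : Ideal A} (hfin : Module.Finite L (A ⧸ p)) :
    ∃ r : Fin (Module.finrank L (A ⧸ p)) → Kb,
      Subalgebra.toSubmodule (Ab A K Lb Kb) ≤
        JJ A K Lb Kb p ⊔ Submodule.span Lb (Set.range r) := by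
  let B := Module.finBasis L (A ⧸ p)
  have h1 : ∀ i, ∃ a : A, Ideal.Quotient.mk p a = B i := fun i => Ideal.Quotient.mk_surjective _
  choose r hr using h1
  refine ⟨fun i => emb A K Kb (r i), ?_⟩
  rw [ab_span, Submodule.span_le]
  rintro z ⟨a, rfl⟩
  have h2 : a - ∑ i, B.repr (Ideal.Quotient.mk p a) i • r i ∈ p := by
    rw [← Ideal.Quotient.eq_zero_iff_mem]
    have h3 := B.sum_repr (Ideal.Quotient.mk p a)
    have h4 : Ideal.Quotient.mkₐ L p (a - ∑ i, B.repr (Ideal.Quotient.mk p a) i • r i) = 0 := by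
      rw [map_sub, map_sum, sub_eq_zero]
      refine h3.symm.trans (Finset.sum_congr rfl fun i _ => ?_)
      rw [map_smul, ← hr i]
      rfl
    exact h4
  have h5 : emb A K Kb a = emb A K Kb (a - ∑ i, B.repr (Ideal.Quotient.mk p a) i • r i) * 1 +
      ∑ i, algebraMap L Lb (B.repr (Ideal.Quotient.mk p a) i) • emb A K Kb (r i) := by
    rw [mul_one, map_sub, map_sum]
    have h6 : ∑ i, emb A K Kb (B.repr (Ideal.Quotient.mk p a) i • r i) =
        ∑ i, algebraMap L Lb (B.repr (Ideal.Quotient.mk p a) i) • emb A K Kb (r i) :=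
      Finset.sum_congr rfl fun i _ => emb_smul _ _
    rw [h6, sub_add_cancel]
  rw [SetLike.mem_coe, h5]
  refine Submodule.add_mem_sup (Submodule.subset_span ⟨_, h2, 1, one_mem _, rfl⟩) ?_
  exact sum_mem fun i _ => Submodule.smul_mem _ _ (Submodule.subset_span ⟨i, rfl⟩)

theorem xx_step {p : Ideal A} (hp : p.IsMaximal) (hp0 : p ≠ ⊥) (hfin : Module.Finite L (A ⧸ p))
    (m c : ℕ) (hm : Module.Finite Lb (XX K Lb Kb x t p m c)) :
    Module.Finite Lb (XX K Lb Kb x t p (m + 1) c) ∧
      Module.finrank Lb (XX K Lb Kb x t p (m + 1) c) ≤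
        Module.finrank Lb (XX K Lb Kb x t p m c) + Module.finrank L (A ⧸ p) := by
  obtain ⟨y, hy, hy'⟩ := Ideal.exists_mem_pow_notMem_pow_succ p hp0 hp.ne_top (m + 1)
  obtain ⟨r, hr⟩ := ab_le (K := K) (Lb := Lb) (Kb := Kb) hfin
  -- the kernel
  have hker : ∀ h ∈ XX K Lb Kb x t p (m + 1) c, emb A K Kb y * h ∈ JJ A K Lb Kb p →
      h ∈ XX K Lb Kb x t p m c := by
    intro h hh hJ
    have h1 : ∀ w ∈ p ^ (m + 1), emb A K Kb w * h ∈ JJ A K Lb Kb p := by
      intro w hw
      have := hp.isPrime
      obtain ⟨d, e, he, hde⟩ := Ideal.exists_mul_add_mem_pow_succ hp0 y w hy hy' hw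
      have h2 : emb A K Kb e * h ∈ JJ A K Lb Kb p := by
        rw [pow_succ'] at he
        refine Submodule.mul_induction_on he (fun a ha b hb => ?_) fun a b ha hb => ?_
        · rw [map_mul, mul_assoc]
          refine Submodule.subset_span ⟨a, ha, emb A K Kb b * h, ?_, rfl⟩
          rw [mul_comm]
          exact hh.1 b hb
        · rw [map_add, add_mul]
          exact add_mem ha hb
      rw [← hde, map_add, add_mul, map_mul, mul_comm (emb A K Kb y), mul_assoc]
      exact add_mem (jj_mul (Algebra.subset_adjoin ⟨d, rfl⟩) hJ) h2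
    refine ⟨fun z hz => ?_, hh.2⟩
    have h3 : (1 : K) ∈ (p : FractionalIdeal (nonZeroDivisors A) K) *
        (p : FractionalIdeal (nonZeroDivisors A) K)⁻¹ := by
      rw [FractionalIdeal.coe_ideal_mul_inv p hp0]
      exact FractionalIdeal.one_mem_one _
    have h4 : algebraMap K Kb 1 * (emb A K Kb z * h) ∈ Ab A K Lb Kb := by
      refine FractionalIdeal.mul_induction_on
        (C := fun q => algebraMap K Kb q * (emb A K Kb z * h) ∈ Ab A K Lb Kb) h3
        (fun v hv u hu => ?_) fun a b ha hb => ?_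
      · rw [FractionalIdeal.mem_coeIdeal] at hv
        obtain ⟨v, hv, rfl⟩ := hv
        have h5 : ∀ a ∈ p, ∃ a' : A, algebraMap A K a' = u * algebraMap A K a := by
          intro a ha
          rw [FractionalIdeal.mem_inv_iff (FractionalIdeal.coeIdeal_ne_zero.mpr hp0)] at hu
          have := hu (algebraMap A K a) (FractionalIdeal.mem_coeIdeal_of_mem _ ha)
          rwa [FractionalIdeal.mem_one_iff] at this
        have h6 : algebraMap K Kb (algebraMap A K v * u) * (emb A K Kb z * h) =
            algebraMap K Kb u * (emb A K Kb (v * z) * h) := by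
          rw [map_mul, map_mul (emb A K Kb), RingHom.comp_apply, RingHom.comp_apply]
          ring
        rw [h6]
        refine inv_jj h5 (h1 _ ?_)
        rw [pow_succ']
        exact Ideal.mul_mem_mul hv hz
      · rw [map_add, add_mul]
        exact add_mem ha hb
    rw [map_one, one_mul, mul_comm] at h4
    exact h4
  -- the map
  let F : XX K Lb Kb x t p (m + 1) c →ₗ[Lb] Kb ⧸ JJ A K Lb Kb p :=
    (JJ A K Lb Kb p).mkQ ∘ₗ (LinearMap.mulLeft Lb (emb A K Kb y)) ∘ₗ
      (XX K Lb Kb x t p (m + 1) c).subtype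
  have hF : ∀ h, F h = (JJ A K Lb Kb p).mkQ (emb A K Kb y * (h : Kb)) := fun _ => rfl
  let R : Fin (Module.finrank L (A ⧸ p)) → Kb ⧸ JJ A K Lb Kb p := fun i => (JJ A K Lb Kb p).mkQ (r i)
  have hrange : LinearMap.range F ≤ Submodule.span Lb (Set.range R) := by
    rintro _ ⟨h, rfl⟩
    rw [hF]
    have h1 : emb A K Kb y * (h : Kb) ∈ JJ A K Lb Kb p ⊔ Submodule.span Lb (Set.range r) := by
      refine hr ?_
      rw [mul_comm]
      exact h.2.1 y hy
    obtain ⟨j, hj, w, hw, hjw⟩ := Submodule.mem_sup.mp h1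
    rw [← hjw, map_add]
    have h2 : (JJ A K Lb Kb p).mkQ j = 0 := by
      rw [Submodule.mkQ_apply]
      exact (Submodule.Quotient.mk_eq_zero _).mpr hj
    rw [h2, zero_add]
    have h3 : Set.range R = (JJ A K Lb Kb p).mkQ '' Set.range r := by
      rw [← Set.range_comp]
      rfl
    rw [h3, Submodule.span_image]
    exact Submodule.mem_map_of_mem hw
  have hspan : Module.Finite Lb (Submodule.span Lb (Set.range R)) :=
    Module.Finite.span_of_finite Lb (Set.finite_range R)
  have hrfin : Module.Finite Lb (LinearMap.range F) := Submodule.finiteDimensional_of_le hrange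
  have hrk : Module.finrank Lb (LinearMap.range F) ≤ Module.finrank L (A ⧸ p) := by
    refine (Submodule.finrank_mono hrange).trans ?_
    refine (finrank_range_le_card R).trans ?_
    rw [Fintype.card_fin]
  let G : LinearMap.ker F →ₗ[Lb] XX K Lb Kb x t p m c :=
    LinearMap.codRestrict _ ((XX K Lb Kb x t p (m + 1) c).subtype ∘ₗ (LinearMap.ker F).subtype)
      (fun h => hker _ (h : XX K Lb Kb x t p (m + 1) c).2 (by
        have h1 := LinearMap.mem_ker.mp h.2
        rw [hF, Submodule.mkQ_apply] at h1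
        exact (Submodule.Quotient.mk_eq_zero _).mp h1))
  have hG : Function.Injective G := by
    intro a b hab
    have h1 := congrArg (Submodule.subtype _) hab
    exact Subtype.ext (Subtype.ext h1)
  have hkfin : Module.Finite Lb (LinearMap.ker F) := Module.Finite.of_injective G hG
  have hkrk : Module.finrank Lb (LinearMap.ker F) ≤ Module.finrank Lb (XX K Lb Kb x t p m c) :=
    LinearMap.finrank_le_finrank_of_injective hG
  have hqfin : Module.Finite Lb (XX K Lb Kb x t p (m + 1) c ⧸ LinearMap.ker F) :=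
    Module.Finite.equiv F.quotKerEquivRange.symm
  have hX : Module.Finite Lb (XX K Lb Kb x t p (m + 1) c) :=
    Module.Finite.of_submodule_quotient (LinearMap.ker F)
  refine ⟨hX, ?_⟩
  rw [← LinearMap.finrank_range_add_finrank_ker F]
  omega

end Pool.Agent.Work.MP_50269c_nt
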