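import Pool.Agent.Work.MP_50269c_nt.Defs
import Pool.Agent.Work.MP_50269c_nt.Tinf
import Pool.Agent.Work.MP_50269c_nt.KBas
import Pool.Agent.Work.MP_50269c_nt.XXfin
import Pool.Agent.Work.MP_50269c_nt.XXstep

/-!
# DegB (size M): the degree of a quotient of two functions with a simple pole at `p`

Write `τ = emb A K Kb t`, `φ = f1 / f2`, `e = finrank L (A ⧸ p)`, `F = IntermediateField.adjoin Lb {φ}`. PROOF.
(1) `XX p m c` is finite dimensional of dimension `≤ D_c + m e`, `D_c = finrank (XX p 0 c)` (`xx_fin`, `xx_step`,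
induction on `m`). (2) products: `h ∈ XX p m c`, `h' ∈ XX p m' c'` gives `h h' ∈ XX p (m+m') (c+c')`: for `a ∈ p ^ m`,
`a' ∈ p ^ m'` use `(h h') e(a a') = (h e a)(h' e a')` and induction on the elements of the product ideal
`p ^ (m+m')`; at infinity divide by `τ^c τ^c'`. So `f1^i f2^(m-i) ∈ XX p m 0` (`1 ∈ XX p 0 0`).
(3) Suppose `u_0, ..., u_e ∈ Kb` are linearly independent over `F` (`e + 1` elements). Multiplying all by a common nonzero
`q(τ)` (`kb_frac`) we may assume `u_i ∈ Ab`, and by `pole_bound` there is `c` with `u_i / τ^c ∈ O` for all `i` and all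
places at infinity (increase `c`: `τ⁻¹ ∈ O`, `inv_t_nonunit`), so `u_i ∈ XX p 0 c`. For every `m` the
`(e+1)(m+1)` elements `u_i f1^j f2^(m-j)`, `0 ≤ j ≤ m`, are in `XX p m c`, and they are linearly independent over `Lb`:
`∑ c_ij u_i f1^j f2^(m-j) = f2^m ∑_i u_i (∑_j c_ij φ^j)`, so all `∑_j c_ij φ^j = 0`, and `φ` is
transcendental over `Lb` (not in `Lb`, which is algebraically closed: `IsAlgClosure.isAlgClosed L`). So
`(e+1)(m+1) ≤ D_c + m e` for all `m`, false for `m = D_c`. (4) So every family in `Kb` independent over `F` has at most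
`e` elements: `Kb` is finite dimensional over `F` of dimension `≤ e` (e.g. `Module.rank` via
`LinearIndependent` families / `Module.finite_of_rank_le`...).
-/

set_option autoImplicit false

noncomputable section

namespace Pool.Agent.Work.MP_50269c_nt

open NumberField IsDedekindDomain Polynomial

variable {L : Type} [Field L] [NumberField L] {Lb : Type} [Field Lb] [Algebra L Lb]
  [IsAlgClosure L Lb] {A : Type} [CommRing A] [IsDedekindDomain A] [Algebra L A] {K : Type}
  [Field K] [Algebra A K] [IsFractionRing A K] [Algebra L K] [IsScalarTower L A K] {Kb : Type}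
  [Field Kb] [Algebra K Kb] [Algebra Lb Kb] [Algebra L Kb] [IsScalarTower L K Kb]
  [IsScalarTower L Lb Kb]

variable {n : ℕ} {x : Fin n → A} {t : A} {N : ℕ} {b : Fin N → A}

theorem xx_dim (hx : Algebra.adjoin L (Set.range x) = ⊤)
    (hgeo : ∀ z : K, IsAlgebraic L z → z ∈ Set.range (algebraMap L K))
    (hKb : IntermediateField.adjoin Lb (Set.range (algebraMap K Kb)) = ⊤) (hb : Bas L t b)
    {p : Ideal A} (hp : p.IsMaximal) (hp0 : p ≠ ⊥) (hfin : Module.Finite L (A ⧸ p)) (m c : ℕ) :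
    Module.Finite Lb (XX K Lb Kb x t p m c) ∧
      Module.finrank Lb (XX K Lb Kb x t p m c) ≤
        Module.finrank Lb (XX K Lb Kb x t p 0 c) + m * Module.finrank L (A ⧸ p) := by
  induction m with
  | zero => exact ⟨xx_fin hx hgeo hKb hb p c, by omega⟩
  | succ m ih =>
    obtain ⟨h1, h2⟩ := xx_step (Lb := Lb) (K := K) (Kb := Kb) (x := x) (t := t) hp hp0 hfin m c ih.1
    refine ⟨h1, h2.trans ?_⟩
    have h3 := ih.2
    rw [Nat.succ_mul]
    omega

private theorem xx_mul {p : Ideal A} {m m' c c' : ℕ} {h h' : Kb}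
    (h1 : h ∈ XX K Lb Kb x t p m c) (h2 : h' ∈ XX K Lb Kb x t p m' c') :
    h * h' ∈ XX K Lb Kb x t p (m + m') (c + c') := by
  refine ⟨fun a ha => ?_, fun O hO => ?_⟩
  · rw [pow_add] at ha
    refine Submodule.mul_induction_on ha ?_ ?_
    · intro a1 ha1 a2 ha2
      have h3 := h1.1 a1 ha1
      have h4 := h2.1 a2 ha2
      have h5 : h * h' * emb A K Kb (a1 * a2) = (h * emb A K Kb a1) * (h' * emb A K Kb a2) := by
        rw [map_mul]; ring
      rw [h5]
      exact mul_mem h3 h4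
    · intro a1 a2 h3 h4
      rw [map_add, mul_add]
      exact add_mem h3 h4
  · have h5 : h * h' / emb A K Kb t ^ (c + c') =
        (h / emb A K Kb t ^ c) * (h' / emb A K Kb t ^ c') := by
      rw [pow_add, mul_div_mul_comm]
    rw [h5]
    exact mul_mem (h1.2 O hO) (h2.2 O hO)

private theorem xx_one {p : Ideal A} : (1 : Kb) ∈ XX K Lb Kb x t p 0 0 := by
  refine ⟨fun a _ => ?_, fun O _ => ?_⟩
  · rw [one_mul]
    exact Algebra.subset_adjoin ⟨a, rfl⟩
  · rw [pow_zero, div_one]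
    exact one_mem O

private theorem xx_pow {p : Ideal A} {f : Kb} (h1 : f ∈ XX K Lb Kb x t p 1 0) (i : ℕ) :
    f ^ i ∈ XX K Lb Kb x t p i 0 := by
  induction i with
  | zero => rw [pow_zero]; exact xx_one
  | succ i ih =>
    rw [pow_succ]
    exact xx_mul ih h1

private theorem transc_of_nc [IsAlgClosed Lb] {φ : Kb}
    (hnc : φ ∉ Set.range (algebraMap Lb Kb)) : Transcendental Lb φ := by
  intro hal
  apply hnc
  have hint : IsIntegral Lb φ := hal.isIntegral
  have hd : (minpoly Lb φ).degree = 1 :=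
    IsAlgClosed.degree_eq_one_of_irreducible Lb (minpoly.irreducible hint)
  exact minpoly.mem_range_of_degree_eq_one Lb φ hd

private theorem aeval_mem_Ab (q : Lb[X]) : aeval (emb A K Kb t) q ∈ Ab A K Lb Kb := by
  have ht : emb A K Kb t ∈ Ab A K Lb Kb := Algebra.subset_adjoin ⟨t, rfl⟩
  have h := Polynomial.aeval_subalgebra_coe q (Ab A K Lb Kb) ⟨_, ht⟩
  rw [← h]
  exact (aeval (⟨_, ht⟩ : Ab A K Lb Kb) q).2

/-- the key step: no `e + 1` independent elements -/
private theorem key (hx : Algebra.adjoin L (Set.range x) = ⊤)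
    (hgeo : ∀ z : K, IsAlgebraic L z → z ∈ Set.range (algebraMap L K))
    (hKb : IntermediateField.adjoin Lb (Set.range (algebraMap K Kb)) = ⊤) (hb : Bas L t b)
    {p : Ideal A} (hp : p.IsMaximal) (hp0 : p ≠ ⊥) (hfin : Module.Finite L (A ⧸ p))
    {f1 f2 : Kb} (h1 : f1 ∈ XX K Lb Kb x t p 1 0) (h2 : f2 ∈ XX K Lb Kb x t p 1 0)
    (hf2 : f2 ≠ 0) (hnc : f1 / f2 ∉ Set.range (algebraMap Lb Kb)) {e : ℕ}
    (he : Module.finrank L (A ⧸ p) = e) {F : IntermediateField Lb Kb}
    (hF : IntermediateField.adjoin Lb {f1 / f2} = F) (u : Fin (e + 1) → Kb)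
    (hu : LinearIndependent F u) : False := by
  classical
  choose y hy q hq0 hq hyq using fun i => kb_frac (L := L) hgeo hKb hb (u i)
  -- the common denominator
  set Q : Kb := ∏ i, aeval (emb A K Kb t) (q i) with hQ
  have hQ0 : Q ≠ 0 := Finset.prod_ne_zero_iff.2 fun i _ => hq i
  obtain ⟨w, hw⟩ : ∃ w : Fin (e + 1) → Kb, ∀ i, w i = Q * u i := ⟨_, fun _ => rfl⟩
  have hwAb : ∀ i, w i ∈ Ab A K Lb Kb := by
    intro i
    have h3 : Q = aeval (emb A K Kb t) (q i) * ∏ j ∈ Finset.univ.erase i,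
        aeval (emb A K Kb t) (q j) := (Finset.mul_prod_erase _ _ (Finset.mem_univ i)).symm
    have h4 : w i = (∏ j ∈ Finset.univ.erase i, aeval (emb A K Kb t) (q j)) * y i := by
      rw [hw i, h3, hyq i, mul_comm (aeval (emb A K Kb t) (q i)) _, mul_assoc,
        mul_div_cancel₀ _ (hq i)]
    rw [h4]
    exact mul_mem (prod_mem fun j _ => aeval_mem_Ab (q j)) (hy i)
  have hwu : LinearIndependent F w := by
    have h3 : LinearMap.ker (LinearMap.mulLeft F Q) = ⊥ := by
      rw [LinearMap.ker_eq_bot]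
      exact mul_right_injective₀ hQ0
    have h4 : w = (LinearMap.mulLeft F Q) ∘ u := funext hw
    rw [h4]
    exact hu.map' (LinearMap.mulLeft F Q) h3
  choose cc hcc using fun i => pole_bound (L := L) (x := x) hb (hwAb i)
  set c := ∑ i, cc i with hc
  have hwX : ∀ i, w i ∈ XX K Lb Kb x t p 0 c := by
    intro i
    refine ⟨fun a _ => mul_mem (hwAb i) (Algebra.subset_adjoin ⟨a, rfl⟩), fun O hO => ?_⟩
    have hci : cc i ≤ c := Finset.single_le_sum (fun _ _ => Nat.zero_le _) (Finset.mem_univ i)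
    have h3 : w i / emb A K Kb t ^ c =
        (w i / emb A K Kb t ^ (cc i)) * ((emb A K Kb t)⁻¹) ^ (c - cc i) := by
      have h3' : ((emb A K Kb t)⁻¹) ^ c =
          ((emb A K Kb t)⁻¹) ^ (cc i) * ((emb A K Kb t)⁻¹) ^ (c - cc i) := by
        rw [← pow_add, Nat.add_sub_cancel' hci]
      rw [div_eq_mul_inv, div_eq_mul_inv, ← inv_pow, ← inv_pow, h3', mul_assoc]
    rw [h3]
    exact mul_mem (hcc i O hO) (pow_mem (ValuationSubring.nonunits_subset
      (inv_t_nonunit (L := L) hb hO)) _)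
  -- powers of the quotient
  set φ := f1 / f2 with hφ
  have hac : IsAlgClosed Lb := IsAlgClosure.isAlgClosed L
  have htr : Transcendental Lb φ := transc_of_nc hnc
  have hφF : φ ∈ F := by
    rw [← hF]
    exact IntermediateField.mem_adjoin_simple_self Lb φ
  have htr' : Transcendental Lb (⟨φ, hφF⟩ : F) := by
    rintro ⟨r, hr0, hr⟩
    refine htr ⟨r, hr0, ?_⟩
    have h3 := Polynomial.aeval_algHom_apply F.val (⟨φ, hφF⟩ : F) r
    rw [hr, map_zero] at h3
    exact h3
  have hpow : LinearIndependent Lb (fun j : ℕ => (⟨φ, hφF⟩ : F) ^ j) := by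
    have h3 : Function.Injective (aeval (⟨φ, hφF⟩ : F) : Lb[X] →ₐ[Lb] F) :=
      transcendental_iff_injective.1 htr'
    have h4 := (Polynomial.basisMonomials Lb).linearIndependent.map'
      (aeval (⟨φ, hφF⟩ : F) : Lb[X] →ₐ[Lb] F).toLinearMap (LinearMap.ker_eq_bot.2 h3)
    have h5 : ((aeval (⟨φ, hφF⟩ : F) : Lb[X] →ₐ[Lb] F).toLinearMap ∘
        (Polynomial.basisMonomials Lb)) = fun j : ℕ => (⟨φ, hφF⟩ : F) ^ j := by
      funext j
      simp
    rwa [h5] at h4
  set D := Module.finrank Lb (XX K Lb Kb x t p 0 c) with hD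
  obtain ⟨hf, hle⟩ := xx_dim hx hgeo hKb hb hp hp0 hfin D c
  have hpowm : LinearIndependent Lb (fun j : Fin (D + 1) => (⟨φ, hφF⟩ : F) ^ (j : ℕ)) :=
    hpow.comp _ Fin.val_injective
  have hprod := linearIndependent_smul hpowm hwu
  have hf2D : LinearMap.ker (LinearMap.mulLeft Lb (f2 ^ D)) = ⊥ := by
    rw [LinearMap.ker_eq_bot]
    exact mul_right_injective₀ (pow_ne_zero _ hf2)
  have hfam := hprod.map' (LinearMap.mulLeft Lb (f2 ^ D)) hf2D
  have hmem : ∀ r : Fin (D + 1) × Fin (e + 1),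
      f2 ^ D * ((⟨φ, hφF⟩ : F) ^ (r.1 : ℕ) • w r.2) ∈ XX K Lb Kb x t p D c := by
    intro r
    have hr : (r.1 : ℕ) ≤ D := Nat.lt_succ_iff.1 r.1.2
    have h3 : f2 ^ D * ((⟨φ, hφF⟩ : F) ^ (r.1 : ℕ) • w r.2) =
        f1 ^ (r.1 : ℕ) * f2 ^ (D - r.1) * w r.2 := by
      have h4 : ((⟨φ, hφF⟩ : F) ^ (r.1 : ℕ) • w r.2) = φ ^ (r.1 : ℕ) * w r.2 := by
        rw [Algebra.smul_def]
        rfl
      have h5 : f2 ^ D = f2 ^ (D - (r.1 : ℕ)) * f2 ^ (r.1 : ℕ) := by
        rw [← pow_add, Nat.sub_add_cancel hr]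
      have h6 : f2 ^ (r.1 : ℕ) * φ ^ (r.1 : ℕ) = f1 ^ (r.1 : ℕ) := by
        rw [← mul_pow, hφ, mul_div_cancel₀ _ hf2]
      rw [h4, h5, mul_assoc, ← mul_assoc (f2 ^ (r.1 : ℕ)), h6]
      ring
    rw [h3]
    have h7 := xx_mul (xx_mul (xx_pow h1 (r.1 : ℕ)) (xx_pow h2 (D - (r.1 : ℕ)))) (hwX r.2)
    have h8 : (r.1 : ℕ) + (D - (r.1 : ℕ)) + 0 = D := by omega
    have h9 : 0 + 0 + c = c := by omega
    rw [h8, h9] at h7
    exact h7
  have hfam' : LinearIndependent Lb
      (fun r : Fin (D + 1) × Fin (e + 1) => (⟨_, hmem r⟩ : XX K Lb Kb x t p D c)) := by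
    refine LinearIndependent.of_comp (Submodule.subtype _) ?_
    exact hfam
  have := hf
  have hcard := hfam'.fintype_card_le_finrank
  rw [Fintype.card_prod, Fintype.card_fin, Fintype.card_fin] at hcard
  have h10 : (D + 1) * (e + 1) = D * e + D + e + 1 := by ring
  rw [he] at hle
  rw [h10] at hcard
  omega

theorem deg_bound (hx : Algebra.adjoin L (Set.range x) = ⊤)
    (hgeo : ∀ z : K, IsAlgebraic L z → z ∈ Set.range (algebraMap L K))
    (hKb : IntermediateField.adjoin Lb (Set.range (algebraMap K Kb)) = ⊤) (hb : Bas L t b)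
    {p : Ideal A} (hp : p.IsMaximal) (hp0 : p ≠ ⊥) (hfin : Module.Finite L (A ⧸ p))
    {f1 f2 : Kb} (h1 : f1 ∈ XX K Lb Kb x t p 1 0) (h2 : f2 ∈ XX K Lb Kb x t p 1 0)
    (hf2 : f2 ≠ 0) (hnc : f1 / f2 ∉ Set.range (algebraMap Lb Kb)) :
    FiniteDimensional (IntermediateField.adjoin Lb {f1 / f2}) Kb ∧
      Module.finrank (IntermediateField.adjoin Lb {f1 / f2}) Kb ≤ Module.finrank L (A ⧸ p) := by
  have hrank : Module.rank (IntermediateField.adjoin Lb {f1 / f2}) Kb ≤
      (Module.finrank L (A ⧸ p) : ℕ) := by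
    refine rank_le fun s hs => ?_
    by_contra hlt
    push Not at hlt
    obtain ⟨g⟩ : Nonempty (Fin (Module.finrank L (A ⧸ p) + 1) ↪ s) := by
      refine Function.Embedding.nonempty_of_card_le ?_
      rw [Fintype.card_fin, Fintype.card_coe]
      omega
    exact key hx hgeo hKb hb hp hp0 hfin h1 h2 hf2 hnc rfl rfl (fun i => (g i : Kb)) (hs.comp _ g.injective)
  refine ⟨?_, Module.finrank_le_of_rank_le hrank⟩
  exact Module.rank_lt_aleph0_iff.1 (hrank.trans_lt (Cardinal.natCast_lt_aleph0))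

end Pool.Agent.Work.MP_50269c_nt
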