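import Pool.Agent.Work.MP_50269c_nt.Defs
import Pool.Agent.Work.MP_50269c_nt.Disj

/-!
# GalP (size M): conjugation of places at infinity

PROOF. (1) `exists_aut`: the ring homomorphism `Φ : Lb ⊗[L] K → Kb` (product of the two maps,
`Algebra.TensorProduct.lift` or `productMap`) is bijective. Injective: let `e` be a basis of `K` over `L`; the `1 ⊗ e_i` form a basis of
`Lb ⊗ K` over `Lb` (`Algebra.TensorProduct.basis`), and their images are linearly independent over `Lb` by `disj`. Surjective:
the range `R` is a subalgebra of `Kb` containing `Lb` and `K`, and it is a field: it is a domain and every element is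
algebraic over the field `K` (it is in the algebra generated over `K` by elements of `Lb`, algebraic over `L`)
(`Subalgebra.isField_of_algebraic` or `isField_of_isIntegral_of_isField'`, or `Algebra.adjoin` = `IntermediateField.adjoin` for
algebraic generators: `IntermediateField.adjoin_toSubalgebra_of_isAlgebraic`), so by `hKb` it is everything. Then
`s = Φ ∘ (σ ⊗ id) ∘ Φ⁻¹` is a ring automorphism of `Kb` with `s (algebraMap K Kb y) = algebraMap K Kb y` and
`s (algebraMap Lb Kb c) = algebraMap Lb Kb (σ c)`. (Any other proof of the existence of `s` is fine, e.g. `Kb` is normal over `K` and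
Galois theory.)
(2) `conj_place`: put `O' = O.comap s⁻¹ = {z | s⁻¹ z ∈ O}` (`ValuationSubring.comap`). It contains the constants, does
not contain `x i` if `O` does not (these are fixed by `s`). If `y - c ∈ O.nonunits` then
`s (y - c) = y - σ c ∈ O'.nonunits`: an element `z` is in the nonunits iff `z ∈ O` and (`z = 0` or `z⁻¹ ∉ O`)
(`ValuationSubring.mem_nonunits_iff...`, `ValuationSubring.nonunits` of a `comap` along an automorphism; file Nu.lean has
`nu_inv`, `not_nu`, `nu_mem`).
-/

set_option autoImplicit false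

noncomputable section

namespace Pool.Agent.Work.MP_50269c_nt

open NumberField IsDedekindDomain Polynomial

variable {L : Type} [Field L] [NumberField L] {Lb : Type} [Field Lb] [Algebra L Lb]
  [IsAlgClosure L Lb] {A : Type} [CommRing A] [IsDedekindDomain A] [Algebra L A] {K : Type}
  [Field K] [Algebra A K] [IsFractionRing A K] [Algebra L K] [IsScalarTower L A K] {Kb : Type}
  [Field Kb] [Algebra K Kb] [Algebra Lb Kb] [Algebra L Kb] [IsScalarTower L K Kb]
  [IsScalarTower L Lb Kb]

variable {n : ℕ} {x : Fin n → A}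

open TensorProduct in
theorem exists_aut (hgeo : ∀ z : K, IsAlgebraic L z → z ∈ Set.range (algebraMap L K))
    (hKb : IntermediateField.adjoin Lb (Set.range (algebraMap K Kb)) = ⊤) (σ : Lb ≃ₐ[L] Lb) :
    ∃ s : Kb ≃+* Kb, (∀ y : K, s (algebraMap K Kb y) = algebraMap K Kb y) ∧
      ∀ c : Lb, s (algebraMap Lb Kb c) = algebraMap Lb Kb (σ c) := by
  classical
  have halg : Algebra.IsAlgebraic L Lb := (inferInstance : IsAlgClosure L Lb).isAlgebraic
  let Φ : Lb ⊗[L] K →ₐ[Lb] Kb :=
    Algebra.TensorProduct.productLeftAlgHom (Algebra.ofId Lb Kb) (IsScalarTower.toAlgHom L K Kb)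
  have hΦ1 : ∀ c : Lb, Φ (c ⊗ₜ[L] (1 : K)) = algebraMap Lb Kb c := by
    intro c
    simp [Φ, Algebra.ofId_apply]
  have hΦ2 : ∀ y : K, Φ ((1 : Lb) ⊗ₜ[L] y) = algebraMap K Kb y := by
    intro y
    simp [Φ]
  have hinj : Function.Injective Φ := by
    let e := Module.Basis.ofVectorSpace L K
    let b := Algebra.TensorProduct.basis Lb e
    have hli := disj (Lb := Lb) (Kb := Kb) hgeo e.linearIndependent
    have hb : ∀ i, Φ (b i) = algebraMap K Kb (e i) := by
      intro i
      rw [Algebra.TensorProduct.basis_apply, hΦ2]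
    rw [injective_iff_map_eq_zero]
    intro z hz
    have h1 : Finsupp.linearCombination Lb (fun i => algebraMap K Kb (e i)) (b.repr z) = 0 := by
      have h2 : Φ.toLinearMap (Finsupp.linearCombination Lb b (b.repr z)) = 0 := by
        rw [b.linearCombination_repr]
        exact hz
      rw [Finsupp.apply_linearCombination] at h2
      rw [← h2]
      congr 2
      funext i
      exact (hb i).symm
    have h3 := linearIndependent_iff.mp hli _ h1
    exact b.repr.map_eq_zero_iff.mp h3
  have hsurj : Function.Surjective Φ := by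
    have hT : Algebra.adjoin K (Set.range (algebraMap Lb Kb)) = ⊤ := by
      have h1 : (IntermediateField.adjoin K (Set.range (algebraMap Lb Kb))).toSubalgebra
          = Algebra.adjoin K (Set.range (algebraMap Lb Kb)) := by
        refine IntermediateField.adjoin_toSubalgebra_of_isAlgebraic ?_
        rintro _ ⟨c, rfl⟩
        have h2 : IsAlgebraic L (algebraMap Lb Kb c) :=
          (halg.isAlgebraic c).algebraMap
        exact h2.tower_top K
      rw [← h1]
      rw [eq_top_iff]
      intro z _
      rw [IntermediateField.mem_toSubalgebra]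
      have h2 : z ∈ IntermediateField.adjoin Lb (Set.range (algebraMap K Kb)) := by
        rw [hKb]
        exact IntermediateField.mem_top
      refine IntermediateField.adjoin_induction (F := Lb)
        (p := fun w _ => w ∈ IntermediateField.adjoin K (Set.range (algebraMap Lb Kb)))
        ?_ ?_ ?_ ?_ ?_ h2
      · rintro _ ⟨y, rfl⟩
        exact IntermediateField.algebraMap_mem _ y
      · intro c
        exact IntermediateField.subset_adjoin K _ ⟨c, rfl⟩
      · intro a b _ _ ha hb
        exact add_mem ha hb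
      · intro a _ ha
        exact inv_mem ha
      · intro a b _ _ ha hb
        exact mul_mem ha hb
    intro z
    have hz : z ∈ Algebra.adjoin K (Set.range (algebraMap Lb Kb)) := by
      rw [hT]
      exact Algebra.mem_top
    have hr : z ∈ Φ.range := by
      refine Algebra.adjoin_induction (R := K) (p := fun w _ => w ∈ Φ.range) ?_ ?_ ?_ ?_ hz
      · rintro _ ⟨c, rfl⟩
        exact ⟨c ⊗ₜ[L] 1, hΦ1 c⟩
      · intro y
        exact ⟨1 ⊗ₜ[L] y, hΦ2 y⟩
      · intro a b _ _ ha hb
        exact add_mem ha hb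
      · intro a b _ _ ha hb
        exact mul_mem ha hb
    exact hr
  let E : Lb ⊗[L] K ≃+* Kb := RingEquiv.ofBijective Φ ⟨hinj, hsurj⟩
  have hE : ∀ t, E t = Φ t := fun t => rfl
  let τ : Lb ⊗[L] K ≃ₐ[L] Lb ⊗[L] K := Algebra.TensorProduct.congr σ AlgEquiv.refl
  have hτ : ∀ (c : Lb) (y : K), τ (c ⊗ₜ[L] y) = (σ c) ⊗ₜ[L] y := by
    intro c y
    simp [τ]
  refine ⟨(E.symm.trans τ.toRingEquiv).trans E, ?_, ?_⟩
  · intro y
    have h1 : E.symm (algebraMap K Kb y) = (1 : Lb) ⊗ₜ[L] y := by
      rw [RingEquiv.symm_apply_eq, hE, hΦ2]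
    have h2 : ((E.symm.trans τ.toRingEquiv).trans E) (algebraMap K Kb y)
        = E (τ (E.symm (algebraMap K Kb y))) := rfl
    rw [h2, h1, hτ, map_one, hE, hΦ2]
  · intro c
    have h1 : E.symm (algebraMap Lb Kb c) = c ⊗ₜ[L] (1 : K) := by
      rw [RingEquiv.symm_apply_eq, hE, hΦ1]
    have h2 : ((E.symm.trans τ.toRingEquiv).trans E) (algebraMap Lb Kb c)
        = E (τ (E.symm (algebraMap Lb Kb c))) := rfl
    rw [h2, h1, hτ, hE, hΦ1]

private theorem galp_nonunit_iff {F : Type} [Field F] (O : ValuationSubring F) (a : F) :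
    a ∈ O.nonunits ↔ (a = 0 ∨ a⁻¹ ∉ O) := by
  rw [ValuationSubring.mem_nonunits_iff]
  constructor
  · intro h
    by_cases h0 : a = 0
    · exact Or.inl h0
    · right
      intro h1
      have h2 : O.valuation a⁻¹ ≤ 1 := (ValuationSubring.valuation_le_one_iff O _).mpr h1
      have h3 : O.valuation a * O.valuation a⁻¹ = 1 := by
        rw [← map_mul, mul_inv_cancel₀ h0, map_one]
      have h4 : O.valuation a * O.valuation a⁻¹ < 1 := by
        calc O.valuation a * O.valuation a⁻¹ ≤ O.valuation a * 1 := by gcongr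
          _ < 1 := by rwa [mul_one]
      rw [h3] at h4
      exact lt_irrefl _ h4
  · rintro (h | h)
    · rw [h, map_zero]
      exact zero_lt_one
    · by_contra h1
      rw [not_lt] at h1
      apply h
      rw [← ValuationSubring.valuation_le_one_iff, map_inv₀]
      exact inv_le_one_of_one_le₀ h1

theorem conj_place (hgeo : ∀ z : K, IsAlgebraic L z → z ∈ Set.range (algebraMap L K))
    (hKb : IntermediateField.adjoin Lb (Set.range (algebraMap K Kb)) = ⊤) (σ : Lb ≃ₐ[L] Lb)
    {O : ValuationSubring Kb} (hO : AtInf Lb (fun i => emb A K Kb (x i)) O) :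
    ∃ O' : ValuationSubring Kb, AtInf Lb (fun i => emb A K Kb (x i)) O' ∧
      ∀ (y : K) (c : Lb), algebraMap K Kb y - algebraMap Lb Kb c ∈ O.nonunits →
        algebraMap K Kb y - algebraMap Lb Kb (σ c) ∈ O'.nonunits := by
  obtain ⟨s, hs1, hs2⟩ := exists_aut (Lb := Lb) (Kb := Kb) hgeo hKb σ
  have hs1' : ∀ y : K, s.symm (algebraMap K Kb y) = algebraMap K Kb y := fun y => by
    rw [RingEquiv.symm_apply_eq, hs1]
  have hs2' : ∀ c : Lb, s.symm (algebraMap Lb Kb c) = algebraMap Lb Kb (σ.symm c) := fun c => by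
    rw [RingEquiv.symm_apply_eq, hs2, AlgEquiv.apply_symm_apply]
  have hmem : ∀ z : Kb, z ∈ O.comap (s.symm : Kb →+* Kb) ↔ s.symm z ∈ O := fun z =>
    ValuationSubring.mem_comap
  refine ⟨O.comap (s.symm : Kb →+* Kb), ⟨?_, ?_⟩, ?_⟩
  · intro c
    rw [hmem, hs2']
    exact hO.1 _
  · obtain ⟨i, hi⟩ := hO.2
    refine ⟨i, ?_⟩
    rw [hmem]
    have : s.symm (emb A K Kb (x i)) = emb A K Kb (x i) := hs1' _
    rw [this]
    exact hi
  · intro y c h
    rw [galp_nonunit_iff] at h ⊢
    have h1 : s.symm (algebraMap K Kb y - algebraMap Lb Kb (σ c))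
        = algebraMap K Kb y - algebraMap Lb Kb c := by
      rw [map_sub, hs1', hs2', AlgEquiv.symm_apply_apply]
    rw [hmem, map_inv₀, h1]
    rcases h with h | h
    · left
      have h2 : s.symm (algebraMap K Kb y - algebraMap Lb Kb (σ c)) = 0 := by rw [h1, h]
      exact (map_eq_zero_iff s.symm s.symm.injective).mp h2
    · exact Or.inr h

end Pool.Agent.Work.MP_50269c_nt
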