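import Pool.Agent.Work.MP_50269c_nt.Defs

/-!
# Noeth (size M): Noether normalization of the curve

PROOF. `exists_finite_inj_algHom_of_fg` (file RingTheory/NoetherNormalization) gives an injective finite
`g : MvPolynomial (Fin s) L →ₐ[L] A` (`A` is of finite type by `hx`, `A` is nontrivial).
`s = 0` is impossible: `A` would be a finite dimensional domain over the field `L`, so a field.
`s ≥ 2` is impossible: the primes `(X_0)` and `(X_0, X_1)` of the polynomial ring (the kernels of the
evaluations at `X_0 = 0`, resp. `X_0 = X_1 = 0`; prime as the quotient maps go to a domain) are distinct, nonzero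
and contained in each other; by lying over and going up (`Ideal.exists_ideal_over_prime_of_isIntegral`)
there are primes `q1 ≤ q2` of `A` above them, both nonzero; nonzero primes of a Dedekind
domain are maximal, so `q1 = q2`, so their contractions are equal, contradiction.
So `s = 1`; `MvPolynomial (Fin 1) L` is `L[X]`: for `t = g (X 0)` the map `aeval t : L[X] → A` is injective
and finite. `A` is then a finite torsion free module over the principal ideal domain `L[X]` (via
`aeval t`), so it is free (`Module.free_of_finite_type_torsion_free'` or the `Module.Free` instance), and a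
basis indexed by `Fin N` is `b`. Translate the basis property into `Bas L t b` (existence and
uniqueness of the coordinates). A convenient way: `letI := (aeval t : L[X] →ₐ[L] A).toRingHom.toAlgebra`.
-/

set_option autoImplicit false

noncomputable section

namespace Pool.Agent.Work.MP_50269c_nt

open NumberField IsDedekindDomain Polynomial

variable {L : Type} [Field L] [NumberField L] {Lb : Type} [Field Lb] [Algebra L Lb]
  [IsAlgClosure L Lb] {A : Type} [CommRing A] [IsDedekindDomain A] [Algebra L A] {K : Type}
  [Field K] [Algebra A K] [IsFractionRing A K] [Algebra L K] [IsScalarTower L A K] {Kb : Type}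
  [Field Kb] [Algebra K Kb] [Algebra Lb Kb] [Algebra L Kb] [IsScalarTower L K Kb]
  [IsScalarTower L Lb Kb]

/-- At most one variable in the Noether normalization. -/
private theorem no_two {L : Type} [Field L] {A : Type} [CommRing A] [IsDedekindDomain A]
    [Algebra L A] {s : ℕ} (i0 i1 : Fin s) (h01 : i0 ≠ i1)
    (g : MvPolynomial (Fin s) L →ₐ[L] A) (hg : Function.Injective g)
    (hint : g.toRingHom.IsIntegral) : False := by
  let _ : Algebra (MvPolynomial (Fin s) L) A := g.toRingHom.toAlgebra
  have hI : Algebra.IsIntegral (MvPolynomial (Fin s) L) A := ⟨hint⟩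
  have hmap : ∀ q, algebraMap (MvPolynomial (Fin s) L) A q = g q := fun q => rfl
  have hinj : Function.Injective (algebraMap (MvPolynomial (Fin s) L) A) := hg
  let f1 : MvPolynomial (Fin s) L →ₐ[L] MvPolynomial (Fin s) L :=
    MvPolynomial.aeval fun i => if i = i0 then 0 else MvPolynomial.X i
  let f2 : MvPolynomial (Fin s) L →ₐ[L] MvPolynomial (Fin s) L :=
    MvPolynomial.aeval fun i => if i = i0 ∨ i = i1 then 0 else MvPolynomial.X i
  have e1 : ∀ i, f1 (MvPolynomial.X i) = if i = i0 then 0 else MvPolynomial.X i := fun i =>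
    MvPolynomial.aeval_X _ _
  have e2 : ∀ i, f2 (MvPolynomial.X i) = if i = i0 ∨ i = i1 then 0 else MvPolynomial.X i :=
    fun i => MvPolynomial.aeval_X _ _
  have hcomp : f2.comp f1 = f2 := by
    apply MvPolynomial.algHom_ext
    intro i
    rw [AlgHom.comp_apply, e1]
    by_cases h : i = i0
    · rw [if_pos h, map_zero, e2, if_pos (Or.inl h)]
    · rw [if_neg h]
  have p1 : (RingHom.ker f1).IsPrime := RingHom.ker_isPrime f1
  have p2 : (RingHom.ker f2).IsPrime := RingHom.ker_isPrime f2
  have h12 : RingHom.ker f1 ≤ RingHom.ker f2 := by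
    intro q hq
    rw [RingHom.mem_ker] at hq ⊢
    rw [← hcomp, AlgHom.comp_apply, hq, map_zero]
  obtain ⟨Q1, -, hQ1, hc1⟩ := Ideal.exists_ideal_over_prime_of_isIntegral (S := A)
    (RingHom.ker f1) ⊥ (by
      intro q hq
      rw [Ideal.mem_comap, Ideal.mem_bot] at hq
      rw [(map_eq_zero_iff _ hinj).mp hq]
      exact zero_mem _)
  obtain ⟨Q2, hle, hQ2, hc2⟩ := Ideal.exists_ideal_over_prime_of_isIntegral (S := A)
    (RingHom.ker f2) Q1 (by rw [hc1]; exact h12)
  have hne : Q1 ≠ ⊥ := by
    intro h
    have hX : (MvPolynomial.X i0 : MvPolynomial (Fin s) L) ∈ RingHom.ker f1 := by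
      rw [RingHom.mem_ker, e1, if_pos rfl]
    rw [← hc1, h, Ideal.mem_comap, Ideal.mem_bot, map_eq_zero_iff _ hinj] at hX
    exact MvPolynomial.X_ne_zero i0 hX
  have hmax : Q1.IsMaximal := hQ1.isMaximal hne
  have heq : Q1 = Q2 := hmax.eq_of_le hQ2.ne_top hle
  rw [heq, hc2] at hc1
  have hX : (MvPolynomial.X i1 : MvPolynomial (Fin s) L) ∈ RingHom.ker f1 := by
    rw [← hc1, RingHom.mem_ker, e2, if_pos (Or.inr rfl)]
  rw [RingHom.mem_ker, e1, if_neg h01.symm] at hX
  exact MvPolynomial.X_ne_zero i1 hX

/-- At least one variable. -/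
private theorem no_zero {L : Type} [Field L] {A : Type} [CommRing A] [IsDedekindDomain A]
    [Algebra L A] (hA : ¬ IsField A) (g : MvPolynomial (Fin 0) L →ₐ[L] A)
    (hint : g.toRingHom.IsIntegral) : False := by
  let _ : Algebra (MvPolynomial (Fin 0) L) A := g.toRingHom.toAlgebra
  have hI : Algebra.IsIntegral (MvPolynomial (Fin 0) L) A := ⟨hint⟩
  have hF : IsField (MvPolynomial (Fin 0) L) :=
    (MvPolynomial.isEmptyAlgEquiv L (Fin 0)).toMulEquiv.isField (Field.toIsField L)
  exact hA (isField_of_isIntegral_of_isField' hF)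

theorem noeth {n : ℕ} {x : Fin n → A} (hx : Algebra.adjoin L (Set.range x) = ⊤)
    (hA : ¬ IsField A) :
    ∃ (t : A) (N : ℕ) (b : Fin N → A), Transcendental L t ∧ Bas L t b := by
  have hft : Algebra.FiniteType L A := ⟨⟨(Set.finite_range x).toFinset, by simpa using hx⟩⟩
  obtain ⟨s, g, hg, hfin⟩ := exists_finite_inj_algHom_of_fg L A
  have hfin' : g.toRingHom.Finite := hfin
  have hint : g.toRingHom.IsIntegral := hfin'.to_isIntegral
  have hs : s = 1 := by
    rcases Nat.lt_or_ge s 1 with h | h
    · have h0 : s = 0 := by omega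
      subst h0
      exact (no_zero hA g hint).elim
    · by_contra h1
      exact no_two (⟨0, by omega⟩ : Fin s) ⟨1, by omega⟩ (by simp) g hg hint
  subst hs
  set t : A := g (MvPolynomial.X 0) with ht
  have htr : Transcendental L t := by
    intro halg
    exact MvPolynomial.transcendental_X L (0 : Fin 1) ((isAlgebraic_algHom_iff g hg).mp halg)
  have htinj : Function.Injective (aeval t : L[X] →ₐ[L] A) :=
    transcendental_iff_injective.mp htr
  let e : L[X] →ₐ[L] MvPolynomial (Fin 1) L := aeval (MvPolynomial.X 0)
  have hge : g.comp e = aeval t := by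
    apply Polynomial.algHom_ext
    rw [AlgHom.comp_apply]
    simp only [e, aeval_X]
    rfl
  have hesurj : Function.Surjective e := by
    rw [← AlgHom.range_eq_top, eq_top_iff, ← MvPolynomial.adjoin_range_X, Algebra.adjoin_le_iff]
    rintro _ ⟨i, rfl⟩
    refine ⟨X, ?_⟩
    have : i = 0 := Subsingleton.elim _ _
    rw [this]
    exact aeval_X _
  have hfe : e.toRingHom.Finite := RingHom.Finite.of_surjective _ hesurj
  have hft : (aeval t : L[X] →ₐ[L] A).toRingHom.Finite := by
    have h1 : (aeval t : L[X] →ₐ[L] A).toRingHom = g.toRingHom.comp e.toRingHom := by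
      rw [← hge]
      rfl
    rw [h1]
    exact hfin'.comp hfe
  let _ : Algebra L[X] A := (aeval t : L[X] →ₐ[L] A).toRingHom.toAlgebra
  have hmf : Module.Finite L[X] A := hft
  have hsm : ∀ (p : L[X]) (a : A), p • a = aeval t p * a := fun p a => rfl
  have htf : Module.IsTorsionFree L[X] A := by
    refine Module.IsTorsionFree.of_smul_eq_zero fun p a h => ?_
    rw [hsm] at h
    rcases mul_eq_zero.mp h with h | h
    · left
      exact (map_eq_zero_iff _ htinj).mp h
    · right
      exact h
  obtain ⟨N, b⟩ := Module.basisOfFiniteTypeTorsionFree' (R := L[X]) (M := A)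
  refine ⟨t, N, b, htr, fun a => ⟨b.equivFun a, ?_, fun c hc => ?_⟩⟩
  · have h := b.sum_equivFun a
    simp only [hsm] at h
    exact h.symm
  · have h : b.equivFun.symm c = a := by
      rw [Module.Basis.equivFun_symm_apply]
      simp only [hsm]
      exact hc.symm
    rw [← h, LinearEquiv.apply_symm_apply]

end Pool.Agent.Work.MP_50269c_nt
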