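import Pool.Agent.Work.MP_50269c_nt.Defs

/-!
# Pencil (size M): linear algebra: from the unit step to the pencil

PROOF. Write `lam i v` for `∑ k, lam i k * v k`. Among all subspaces `V` of `Fin m → F` such that `a j ∈ V` for infinitely
many `j` (the whole space is one) choose one, `V`, of minimal dimension, and let
`J = {j | a j ∈ V}`. Since no two `a j` are proportional, `dim V ≥ 2` (if `dim V ≤ 1` then two of the
`a j` in it, which are nonzero by `hne` (if `I` is nonempty; the case `I` empty: take any `v ≠ 0`, e.g. `v = a 0`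
or `a 1`, one of them is nonzero by `hprop` with `c = 0`), are
proportional). Restrict the forms `lam i` to `V`: they are nonzero there (`hne`).
CLAIM: if `lam i_0 = ∑_{s < r} c_s lam i_s` on `V` with all `c_s ≠ 0` and `lam i_1, ..., lam i_r` linearly independent on `V`, then
`r ≤ 1`. If `r ≥ 2`: by `hU` there are `b ≠ 0` and an infinite `J' ⊆ J` with `∑ b_s lam i_s (a j) = 0` for
`j ∈ J'`; the form `∑ b_s lam i_s` is nonzero on `V`, so its kernel in `V` is a smaller subspace with infinitely many
`a j`, contradiction with minimality.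
Let `B ⊆ I` be a finite set of indices such that the `lam i|V`, `i ∈ B`, are a basis of the span of all
`lam i|V` (exists: `exists_linearIndependent`, the dual of `V` is finite dimensional). By the claim every
`lam i|V` is a nonzero multiple of exactly one `lam i'|V`, `i' ∈ B`. If `B` has at most one element: `V` has dimension
`≥ 2`, so there is `v ≠ 0` in `V` killed by this form, hence by all: first alternative. Otherwise let `i1 ∈ B`. As the forms in
`B` are independent on `V` there are `v, w ∈ V` with `lam i1 v = 1`, `lam i v = 0` for the other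
`i ∈ B`, and `lam i1 w = 0`, `lam i w = 1` for the other `i ∈ B` (independent forms on a finite dimensional space
take arbitrary values: e.g. the map `V → (B → F)` is surjective). Every `i` is proportional on `V`
to exactly one element of `B`, so exactly one of `lam i v`, `lam i w` is nonzero, and both cases occur.
-/

set_option autoImplicit false

noncomputable section

namespace Pool.Agent.Work.MP_50269c_nt

open Polynomial

private def fL {F : Type} [Field F] {m : ℕ} (l : Fin m → F) : (Fin m → F) →ₗ[F] F :=
  ∑ k, l k • LinearMap.proj k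

private theorem fL_apply {F : Type} [Field F] {m : ℕ} (l v : Fin m → F) :
    fL l v = ∑ k, l k * v k := by
  simp [fL]

private theorem surj_of_indep {F V κ : Type} [Field F] [AddCommGroup V] [Module F V]
    [Fintype κ] (M : κ → V →ₗ[F] F) (h : LinearIndependent F M) :
    Function.Surjective (LinearMap.pi M : V →ₗ[F] (κ → F)) := by
  classical
  rw [← LinearMap.range_eq_top]
  by_contra hne
  obtain ⟨f, hf0, hf⟩ := Submodule.exists_le_ker_of_lt_top _ (lt_top_iff_ne_top.mpr hne)
  apply hf0
  have hfe : ∀ x : κ → F, f x = ∑ k, x k * f (Pi.single k 1) := by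
    intro x
    conv_lhs => rw [pi_eq_sum_univ' x]
    rw [map_sum]
    refine Finset.sum_congr rfl fun k _ => ?_
    rw [map_smul, smul_eq_mul]
  have h2 := Fintype.linearIndependent_iff.mp h (fun k => f (Pi.single k 1)) (by
    ext v
    have h3 : f (LinearMap.pi M v) = 0 := hf ⟨v, rfl⟩
    rw [hfe] at h3
    simp only [LinearMap.coe_sum, LinearMap.smul_apply, Finset.sum_apply, LinearMap.zero_apply,
      smul_eq_mul]
    rw [← h3]
    refine Finset.sum_congr rfl fun k _ => ?_
    rw [LinearMap.pi_apply, mul_comm])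
  ext k
  simpa using h2 k

theorem pencil {F : Type} [Field F] {I : Type} {m : ℕ} (lam : I → Fin m → F)
    (a : ℕ → Fin m → F) (hprop : ∀ i j, i ≠ j → ∀ c : F, a i ≠ c • a j)
    (hne : ∀ i j, ∑ k, lam i k * a j k ≠ 0)
    (hU : ∀ (r : ℕ), 2 ≤ r → ∀ (s : Fin r → I) (i0 : I) (c : Fin r → F), (∀ q, c q ≠ 0) →
      ∀ J : Set ℕ, J.Infinite →
      (∀ j ∈ J, ∑ q, c q * ∑ k, lam (s q) k * a j k = ∑ k, lam i0 k * a j k) →
      ∃ b : Fin r → F, b ≠ 0 ∧ ∃ J' ⊆ J, J'.Infinite ∧
        ∀ j ∈ J', ∑ q, b q * ∑ k, lam (s q) k * a j k = 0) :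
    (∃ v : Fin m → F, v ≠ 0 ∧ ∀ i, ∑ k, lam i k * v k = 0) ∨
    ∃ v w : Fin m → F, (∃ i, ∑ k, lam i k * v k ≠ 0) ∧ (∃ i, ∑ k, lam i k * w k ≠ 0) ∧
      ∀ i, (∑ k, lam i k * v k = 0 ∧ ∑ k, lam i k * w k ≠ 0) ∨
        (∑ k, lam i k * v k ≠ 0 ∧ ∑ k, lam i k * w k = 0) := by
  classical
  -- a subspace of least dimension with infinitely many of the vectors
  have hex : ∃ n : ℕ, ∃ V : Submodule F (Fin m → F), Module.finrank F V = n ∧
      {j | a j ∈ V}.Infinite := by
    refine ⟨_, ⊤, rfl, ?_⟩
    simpa using Set.infinite_univ (α := ℕ)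
  obtain ⟨V, hVn, hJ⟩ := Nat.find_spec hex
  have hmin : ∀ W : Submodule F (Fin m → F), {j | a j ∈ W}.Infinite →
      Module.finrank F V ≤ Module.finrank F W := by
    intro W hW
    rw [hVn]
    exact Nat.find_min' hex ⟨W, rfl, hW⟩
  have hker : ∀ f : (Fin m → F) →ₗ[F] F, {j | a j ∈ V ∧ f (a j) = 0}.Infinite →
      ∀ v ∈ V, f v = 0 := by
    intro f hf v hv
    have h1 : V ⊓ LinearMap.ker f = V := by
      apply Submodule.eq_of_le_of_finrank_le inf_le_left
      apply hmin
      refine hf.mono ?_
      rintro j ⟨hj1, hj2⟩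
      exact ⟨hj1, hj2⟩
    have h2 : v ∈ V ⊓ LinearMap.ker f := by rw [h1]; exact hv
    exact h2.2
  set M : I → V →ₗ[F] F := fun i => (fL (lam i)).domRestrict V with hM
  have hMa : ∀ i (v : V), M i v = ∑ k, lam i k * (v : Fin m → F) k := by
    intro i v
    rw [hM]
    simp only [LinearMap.domRestrict_apply]
    exact fL_apply _ _
  obtain ⟨j0, hj0⟩ := hJ.nonempty
  have hM0 : ∀ i, M i ≠ 0 := by
    intro i h0
    apply hne i j0
    have := hMa i ⟨a j0, hj0⟩
    rw [h0] at this
    simpa using this.symm
  obtain ⟨κ, e, he, hspan, hind⟩ := exists_linearIndependent' F M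
  have : Finite κ := hind.finite
  have : Fintype κ := Fintype.ofFinite κ
  -- every form is a multiple of a basis form
  have hone : ∀ i, ∃ k : κ, ∃ c : F, c ≠ 0 ∧ M i = c • M (e k) := by
    intro i
    have hmem : M i ∈ Submodule.span F (Set.range (M ∘ e)) := by
      rw [hspan]
      exact Submodule.subset_span ⟨i, rfl⟩
    obtain ⟨c, hc⟩ := (Submodule.mem_span_range_iff_exists_fun F).mp hmem
    set S : Finset κ := Finset.univ.filter fun k => c k ≠ 0 with hS
    have hcS : ∑ k ∈ S, c k • M (e k) = M i := by
      rw [← hc]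
      rw [hS, Finset.sum_filter]
      refine Finset.sum_congr rfl fun k _ => ?_
      by_cases h : c k = 0
      · simp [h]
      · simp [h]
    have hmemS : ∀ k ∈ S, c k ≠ 0 := by
      intro k hk
      rw [hS] at hk
      exact (Finset.mem_filter.mp hk).2
    have hcard : S.card ≤ 1 := by
      by_contra hcon
      push Not at hcon
      set ε : Fin S.card ≃ S := S.equivFin.symm with hε
      have hsum : ∀ g : κ → F, ∀ x : V, ∑ q : Fin S.card, g (ε q) * M (e (ε q)) x =
          ∑ k ∈ S, g k * M (e k) x := by
        intro g x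
        rw [← Finset.sum_coe_sort S (fun k => g k * M (e k) x)]
        exact ε.sum_comp (fun k : S => g k * M (e k) x)
      obtain ⟨b, hb, J', hJ'1, hJ'2, hJ'3⟩ := hU S.card hcon (fun q => e (ε q)) i
        (fun q => c (ε q)) (fun q => hmemS _ (ε q).2) {j | a j ∈ V} hJ (by
          intro j hj
          have h1 := hsum c ⟨a j, hj⟩
          have h2 : M i ⟨a j, hj⟩ = ∑ k ∈ S, c k * M (e k) ⟨a j, hj⟩ := by
            rw [← hcS]
            simp
          rw [← h1] at h2
          simp only [hMa] at h2
          exact h2.symm)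
      apply hb
      have hz := hker (∑ q, b q • fL (lam (e (ε q)))) (by
        refine hJ'2.mono ?_
        intro j hj
        refine ⟨hJ'1 hj, ?_⟩
        have := hJ'3 j hj
        simpa [fL_apply] using this)
      have hli : LinearIndependent F (fun q : Fin S.card => M (e (ε q))) := by
        refine hind.comp (fun q : Fin S.card => (ε q : κ)) ?_
        exact Subtype.val_injective.comp ε.injective
      have h5 := Fintype.linearIndependent_iff.mp hli b (by
        ext v
        have := hz v v.2
        simp only [LinearMap.coe_sum, LinearMap.smul_apply, Finset.sum_apply,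
          LinearMap.zero_apply, smul_eq_mul] at this ⊢
        simp only [hMa, fL_apply] at this ⊢
        exact this)
      funext q
      exact h5 q
    have hpos : S.Nonempty := by
      rw [Finset.nonempty_iff_ne_empty]
      intro h0
      rw [h0] at hcS
      exact hM0 i (by simpa using hcS.symm)
    obtain ⟨k, hk⟩ : ∃ k, S = {k} := by
      rw [← Finset.card_eq_one]
      exact le_antisymm hcard hpos.card_pos
    refine ⟨k, c k, ?_, ?_⟩
    · have : k ∈ S := by rw [hk]; exact Finset.mem_singleton_self k
      rw [hS] at this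
      exact (Finset.mem_filter.mp this).2
    · rw [← hcS, hk, Finset.sum_singleton]
  by_cases hκ : ∃ k1 k2 : κ, k1 ≠ k2
  · right
    obtain ⟨k1, k2, h12⟩ := hκ
    have hsurj := surj_of_indep (M ∘ e) hind
    obtain ⟨v, hv⟩ := hsurj (fun k => if k = k1 then 1 else 0)
    obtain ⟨w, hw⟩ := hsurj (fun k => if k = k1 then 0 else 1)
    have hv' : ∀ k, M (e k) v = if k = k1 then 1 else 0 := fun k => congrFun hv k
    have hw' : ∀ k, M (e k) w = if k = k1 then 0 else 1 := fun k => congrFun hw k
    refine ⟨v, w, ⟨e k1, ?_⟩, ⟨e k2, ?_⟩, ?_⟩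
    · rw [← hMa, hv', if_pos rfl]
      exact one_ne_zero
    · rw [← hMa, hw', if_neg (Ne.symm h12)]
      exact one_ne_zero
    · intro i
      obtain ⟨k, c, hc, hi⟩ := hone i
      rw [← hMa, ← hMa, hi, LinearMap.smul_apply, LinearMap.smul_apply, hv', hw']
      by_cases hk : k = k1
      · right
        simp [hk, hc]
      · left
        simp [hk, hc]
  · left
    push Not at hκ
    by_cases hI : Nonempty I
    · obtain ⟨i0⟩ := hI
      obtain ⟨k0, -⟩ := hone i0
      obtain ⟨j1, hj1, hj01⟩ := hJ.exists_notMem_finset {j0}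
      have hj01' : j1 ≠ j0 := by simpa using hj01
      refine ⟨(∑ k, lam (e k0) k * a j0 k) • a j1 - (∑ k, lam (e k0) k * a j1 k) • a j0, ?_, ?_⟩
      · intro h0
        apply hprop j1 j0 hj01' ((∑ k, lam (e k0) k * a j0 k)⁻¹ * (∑ k, lam (e k0) k * a j1 k))
        rw [mul_smul, ← sub_eq_zero.mp h0, smul_smul, inv_mul_cancel₀ (hne _ _), one_smul]
      · intro i
        obtain ⟨k, c, hc, hi⟩ := hone i
        rw [hκ k k0] at hi
        have hmem : (∑ k, lam (e k0) k * a j0 k) • a j1 - (∑ k, lam (e k0) k * a j1 k) • a j0 ∈ V :=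
          V.sub_mem (V.smul_mem _ hj1) (V.smul_mem _ hj0)
        have h1 : M i ⟨_, hmem⟩ = 0 := by
          rw [hi, LinearMap.smul_apply]
          have h2 : M (e k0) ⟨_, hmem⟩ = 0 := by
            rw [hM]
            simp only [LinearMap.domRestrict_apply]
            rw [map_sub, map_smul, map_smul, fL_apply, fL_apply, smul_eq_mul, smul_eq_mul]
            ring
          rw [h2, smul_zero]
        rw [hMa] at h1
        exact h1
    · refine ⟨a 0, ?_, fun i => absurd ⟨i⟩ hI⟩
      have := hprop 0 1 (by norm_num) 0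
      simpa using this

end Pool.Agent.Work.MP_50269c_nt
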