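import Pool.Agent.Work.MP_50269c_nt.Defs
import Pool.Agent.Work.MP_50269c_nt.Tinf
import Pool.Agent.Work.MP_50269c_nt.KBas

/-!
# Res (size M): the residue field of a place at infinity is `Lb`

Write `τ = emb A K Kb t`. PROOFS.
`res_unique`: the difference of the two constants is in `O.nonunits` (nonunits are closed under subtraction); a
nonzero constant is a unit of `O` as its inverse is a constant, in `O` by `hO.1`.
`res_exists`: `y` is algebraic over `Lb[τ]`: there are `p_0, ..., p_s ∈ Lb[X]`, not all `0`, with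
`∑ p_i(τ) y^i = 0` (by `kb_frac`, `y = z/q(τ)` with `z ∈ Ab`, and `z` is integral over `Lb[τ]`,
or use: `1, z, ..., z^N` are dependent over `Lb[X]` by `kbas_repr`). Let `D` be the
maximum of the degrees, `u_i = p_i(τ)/τ^D ∈ O`, `u_i - c_i ∈ O.nonunits` where `c_i` is the coefficient of
`X^D` in `p_i` (`rinf_nonunit` for `p_i - c_i X^D` when `D ≥ 1`, or directly with `inv_t_nonunit`), not
all `c_i` are `0`. So `∑ c_i y^i ∈ O.nonunits`, i.e. `G(y) ∈ O.nonunits` for `G = ∑ c_i X^i ≠ 0` in `Lb[X]`.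
`Lb` is algebraically closed (`IsAlgClosure.isAlgClosed L`), so `G = c ∏ (X - α_j)`; a product of elements of `O`
in the maximal ideal has a factor in it (the constant `c ≠ 0` is a unit): `y - α_j ∈ O.nonunits`.
-/

set_option autoImplicit false

noncomputable section

namespace Pool.Agent.Work.MP_50269c_nt

open NumberField IsDedekindDomain Polynomial

variable {L : Type} [Field L] [NumberField L] {Lb : Type} [Field Lb] [Algebra L Lb]
  [IsAlgClosure L Lb] {A : Type} [CommRing A] [IsDedekindDomain A] [Algebra L A] {K : Type}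
  [Field K] [Algebra A K] [IsFractionRing A K] [Algebra L K] [IsScalarTower L A K] {Kb : Type}
  [Field Kb] [Algebra K Kb] [Algebra Lb Kb] [Algebra L Kb] [IsScalarTower L K Kb]
  [IsScalarTower L Lb Kb]

variable {n : ℕ} {x : Fin n → A} {t : A} {N : ℕ} {b : Fin N → A}

private theorem val_const {O : ValuationSubring Kb} (hO : ∀ c : Lb, algebraMap Lb Kb c ∈ O)
    {c : Lb} (hc : c ≠ 0) : O.valuation (algebraMap Lb Kb c) = 1 := by
  have h1 := (O.valuation_le_one_iff _).mpr (hO c)
  have h2 := (O.valuation_le_one_iff _).mpr (hO c⁻¹)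
  have h3 : O.valuation (algebraMap Lb Kb c) * O.valuation (algebraMap Lb Kb c⁻¹) = 1 := by
    rw [← map_mul, ← map_mul, mul_inv_cancel₀ hc, map_one, map_one]
  refine le_antisymm h1 ?_
  by_contra hlt
  rw [not_le] at hlt
  have h4 : O.valuation (algebraMap Lb Kb c) * O.valuation (algebraMap Lb Kb c⁻¹) < 1 :=
    mul_lt_one_of_lt_of_le hlt h2
  exact absurd h3 h4.ne

private theorem prod_ge {O : ValuationSubring Kb} {y : Kb}
    (h : ∀ c : Lb, 1 ≤ O.valuation (y - algebraMap Lb Kb c)) (m : Multiset Lb) :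
    1 ≤ O.valuation (m.map fun a => y - algebraMap Lb Kb a).prod := by
  induction m using Multiset.induction_on with
  | empty => simp
  | cons a m ih =>
    rw [Multiset.map_cons, Multiset.prod_cons, map_mul]
    exact one_le_mul (h a) ih

private theorem root_mem [IsAlgClosed Lb] {O : ValuationSubring Kb}
    (hO : ∀ c : Lb, algebraMap Lb Kb c ∈ O) {y : Kb} {G : Lb[X]} (hG : G ≠ 0)
    (hy : O.valuation (aeval y G) < 1) : ∃ c : Lb, y - algebraMap Lb Kb c ∈ O.nonunits := by
  by_contra hcon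
  push Not at hcon
  have h1 : ∀ c : Lb, 1 ≤ O.valuation (y - algebraMap Lb Kb c) := by
    intro c
    have := hcon c
    rw [ValuationSubring.mem_nonunits_iff, not_lt] at this
    exact this
  have h2 := (IsAlgClosed.splits G).eq_prod_roots
  have h3 : aeval y G = algebraMap Lb Kb G.leadingCoeff *
      (G.roots.map fun a => y - algebraMap Lb Kb a).prod := by
    conv_lhs => rw [h2]
    rw [map_mul, aeval_C, map_multiset_prod, Multiset.map_map]
    congr 2
    refine Multiset.map_congr rfl fun a _ => ?_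
    simp
  rw [h3, map_mul, val_const hO (leadingCoeff_ne_zero.mpr hG), one_mul] at hy
  exact absurd hy (not_lt.mpr (prod_ge h1 _))

theorem res_unique {O : ValuationSubring Kb} (hO : AtInf Lb (fun i => emb A K Kb (x i)) O)
    {y : Kb} {c c' : Lb} (h : y - algebraMap Lb Kb c ∈ O.nonunits)
    (h' : y - algebraMap Lb Kb c' ∈ O.nonunits) : c = c' := by
  by_contra hne
  have h1 : algebraMap Lb Kb (c - c') ∈ O.nonunits := by
    have := sub_mem h' h
    rw [map_sub]
    have h2 : y - algebraMap Lb Kb c' - (y - algebraMap Lb Kb c) =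
        algebraMap Lb Kb c - algebraMap Lb Kb c' := by ring
    rwa [h2] at this
  rw [ValuationSubring.mem_nonunits_iff, val_const hO.1 (sub_ne_zero.mpr hne)] at h1
  exact lt_irrefl _ h1

private theorem exists_rel (hb : Bas L t b) {z : Kb} (hz : z ∈ Ab A K Lb Kb) :
    ∃ v : Fin (N + 1) → Lb[X], v ≠ 0 ∧ ∑ k, aeval (emb A K Kb t) (v k) * z ^ (k : ℕ) = 0 := by
  have hzk : ∀ k : Fin (N + 1), z ^ (k : ℕ) ∈ Ab A K Lb Kb := fun k => pow_mem hz _
  choose C hC using fun k => kbas_repr (K := K) (Kb := Kb) (Lb := Lb) hb (hzk k)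
  let f : (Fin (N + 1) → Lb[X]) →ₗ[Lb[X]] (Fin N → Lb[X]) :=
    { toFun := fun v i => ∑ k, v k * C k i
      map_add' := by
        intro v w
        funext i
        simp only [Pi.add_apply, add_mul, Finset.sum_add_distrib]
      map_smul' := by
        intro r v
        funext i
        simp only [Pi.smul_apply, smul_eq_mul, RingHom.id_apply, Finset.mul_sum, mul_assoc] }
  have hf : ¬ Function.Injective f := by
    intro hi
    have := card_le_of_injective Lb[X] f hi
    simp at this
  have hf2 : ∃ v, v ≠ 0 ∧ f v = 0 := by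
    by_contra hcon
    push Not at hcon
    apply hf
    rw [injective_iff_map_eq_zero]
    intro v hv
    by_contra hv0
    exact hcon v hv0 hv
  obtain ⟨v, hv, hfv⟩ := hf2
  refine ⟨v, hv, ?_⟩
  have h1 : ∀ i, ∑ k, v k * C k i = 0 := fun i => congrFun hfv i
  calc ∑ k, aeval (emb A K Kb t) (v k) * z ^ (k : ℕ)
      = ∑ k, ∑ i, aeval (emb A K Kb t) (v k * C k i) * emb A K Kb (b i) := by
        refine Finset.sum_congr rfl fun k _ => ?_
        rw [hC k, Finset.mul_sum]
        refine Finset.sum_congr rfl fun i _ => ?_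
        rw [map_mul]
        ring
    _ = ∑ i, aeval (emb A K Kb t) (∑ k, v k * C k i) * emb A K Kb (b i) := by
        rw [Finset.sum_comm]
        refine Finset.sum_congr rfl fun i _ => ?_
        rw [map_sum, Finset.sum_mul]
    _ = 0 := by simp [h1]

private theorem coeff_close (hb : Bas L t b) {O : ValuationSubring Kb}
    (hO : AtInf Lb (fun i => emb A K Kb (x i)) O) (p : Lb[X]) (D : ℕ) (hp : p.natDegree ≤ D) :
    aeval (emb A K Kb t) p / emb A K Kb t ^ D - algebraMap Lb Kb (p.coeff D) ∈ O.nonunits := by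
  have ht : emb A K Kb t ≠ 0 := by
    intro h0
    have := t_not_mem hb hO
    rw [h0] at this
    exact this (zero_mem O)
  have htD : emb A K Kb t ^ D ≠ 0 := pow_ne_zero _ ht
  obtain ⟨r, hr⟩ : ∃ r, r = p - C (p.coeff D) * X ^ D := ⟨_, rfl⟩
  have h1 : aeval (emb A K Kb t) p / emb A K Kb t ^ D - algebraMap Lb Kb (p.coeff D) =
      aeval (emb A K Kb t) r / aeval (emb A K Kb t) (X ^ D : Lb[X]) := by
    rw [hr]
    simp only [map_sub, map_mul, aeval_C, map_pow, aeval_X]
    rw [sub_div, mul_div_assoc, div_self htD, mul_one]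
  rw [h1]
  by_cases hr0 : r = 0
  · rw [hr0]
    simp only [map_zero, zero_div]
    exact O.nonunits.zero_mem
  · refine rinf_nonunit hb hO ?_
    rw [natDegree_X_pow]
    have hrD : r.natDegree ≤ D := by
      rw [hr]
      refine (natDegree_sub_le _ _).trans (max_le hp ?_)
      exact natDegree_C_mul_X_pow_le _ _
    refine lt_of_le_of_ne hrD ?_
    intro he
    have h2 : r.coeff D = 0 := by
      rw [hr]
      simp
    apply hr0
    rw [← leadingCoeff_eq_zero, leadingCoeff, he]
    exact h2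

theorem res_exists (hgeo : ∀ z : K, IsAlgebraic L z → z ∈ Set.range (algebraMap L K))
    (hKb : IntermediateField.adjoin Lb (Set.range (algebraMap K Kb)) = ⊤) (hb : Bas L t b)
    {O : ValuationSubring Kb} (hO : AtInf Lb (fun i => emb A K Kb (x i)) O)
    {y : Kb} (hy : y ∈ O) : ∃ c : Lb, y - algebraMap Lb Kb c ∈ O.nonunits := by
  haveI : IsAlgClosed Lb := IsAlgClosure.isAlgClosed L
  obtain ⟨z, hz, q, hq0, hq, hyz⟩ := kb_frac hgeo hKb hb y
  obtain ⟨v, hv, hrel⟩ := exists_rel hb hz
  have hzy : z = y * aeval (emb A K Kb t) q := by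
    rw [hyz, div_mul_cancel₀ _ hq]
  obtain ⟨p, hp⟩ : ∃ p : Fin (N + 1) → Lb[X], p = fun k => v k * q ^ (k : ℕ) := ⟨_, rfl⟩
  have hprel : ∑ k, aeval (emb A K Kb t) (p k) * y ^ (k : ℕ) = 0 := by
    rw [← hrel]
    refine Finset.sum_congr rfl fun k _ => ?_
    rw [hp, hzy]
    simp only [map_mul, map_pow, mul_pow]
    ring
  obtain ⟨k1, hk1⟩ : ∃ k, v k ≠ 0 := by
    by_contra hcon
    push Not at hcon
    exact hv (funext hcon)
  have hpk1 : p k1 ≠ 0 := by
    rw [hp]
    exact mul_ne_zero hk1 (pow_ne_zero _ hq0)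
  classical
  obtain ⟨k0, hk0, hmax⟩ := Finset.exists_max_image (Finset.univ.filter fun k => p k ≠ 0)
    (fun k => (p k).natDegree) ⟨k1, Finset.mem_filter.mpr ⟨Finset.mem_univ _, hpk1⟩⟩
  have hpk0 : p k0 ≠ 0 := (Finset.mem_filter.mp hk0).2
  obtain ⟨D, hD⟩ : ∃ D, D = (p k0).natDegree := ⟨_, rfl⟩
  have hle : ∀ k, (p k).natDegree ≤ D := by
    intro k
    by_cases hpk : p k = 0
    · rw [hpk, natDegree_zero]
      exact Nat.zero_le _
    · rw [hD]
      exact hmax k (Finset.mem_filter.mpr ⟨Finset.mem_univ _, hpk⟩)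
  have ht : emb A K Kb t ≠ 0 := by
    intro h0
    have := t_not_mem hb hO
    rw [h0] at this
    exact this (zero_mem O)
  have htD : emb A K Kb t ^ D ≠ 0 := pow_ne_zero _ ht
  obtain ⟨G, hG⟩ : ∃ G : Lb[X], G = ∑ k : Fin (N + 1), C ((p k).coeff D) * X ^ (k : ℕ) :=
    ⟨_, rfl⟩
  have hG0 : G ≠ 0 := by
    intro h0
    have h1 : G.coeff (k0 : ℕ) = (p k0).coeff D := by
      rw [hG, finset_sum_coeff]
      rw [Finset.sum_eq_single k0]
      · simp
      · intro k _ hk
        rw [coeff_C_mul_X_pow, if_neg]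
        intro he
        exact hk (Fin.ext he.symm)
      · intro h
        exact absurd (Finset.mem_univ _) h
    rw [h0, coeff_zero, hD] at h1
    exact hpk0 (leadingCoeff_eq_zero.mp h1.symm)
  refine root_mem hO.1 hG0 ?_
  have h1 : aeval y G = -∑ k : Fin (N + 1), (aeval (emb A K Kb t) (p k) / emb A K Kb t ^ D -
      algebraMap Lb Kb ((p k).coeff D)) * y ^ (k : ℕ) := by
    have h2 : ∑ k : Fin (N + 1), aeval (emb A K Kb t) (p k) / emb A K Kb t ^ D * y ^ (k : ℕ) = 0 := by
      have h3 : ∑ k : Fin (N + 1), aeval (emb A K Kb t) (p k) / emb A K Kb t ^ D * y ^ (k : ℕ) =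
          (∑ k, aeval (emb A K Kb t) (p k) * y ^ (k : ℕ)) / emb A K Kb t ^ D := by
        rw [Finset.sum_div]
        refine Finset.sum_congr rfl fun k _ => by ring
      rw [h3, hprel, zero_div]
    simp only [sub_mul, Finset.sum_sub_distrib]
    rw [h2, hG]
    simp
  rw [← ValuationSubring.mem_nonunits_iff, h1]
  refine neg_mem (sum_mem fun k _ => ?_)
  have h4 := coeff_close hb hO (p k) D (hle k)
  rw [ValuationSubring.mem_nonunits_iff] at h4 ⊢
  have h5 := (O.valuation_le_one_iff _).mpr (pow_mem hy (k : ℕ))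
  rw [map_mul]
  exact mul_lt_one_of_lt_of_le h4 h5

end Pool.Agent.Work.MP_50269c_nt
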