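import Pool.Agent.Work.MP_50269c_nt.Defs

/-!
# Seq (size M): the sequence of points in one class

PROOF. Let `P ∈ IntPts` and `k = RingHom.ker P`. The range of `P` is `Algebra.adjoin L {P (x i)}`, which is a field,
equal to `IntermediateField.adjoin L {P (x i)}` as `Lb` is algebraic over `L`
(`IntermediateField.adjoin_algebraic_toSubalgebra`); it is finite over `L` (finitely generated, algebraic). So
`A ⧸ k` is a field, finite over `L`, of the same `finrank ≤ d`; `k` is maximal; `k ≠ ⊥` because `A` is not a field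
(`Ideal.bot_lt_of_maximal` / `Ring.ne_bot_of_isMaximal_of_not_isField`).
For a given ideal `k` only finitely many `P` have kernel `k`: they are determined by the induced maps
`A ⧸ k →ₐ[L] Lb` (`Ideal.Quotient.liftₐ`), a finite type as `A ⧸ k` is a finite field extension (or: `P` is
determined by the values `P (x i)`, roots of the fixed nonzero polynomials which kill `x i` modulo `k`). So
the image of the infinite set of `hinf` under `P ↦ ker P` is infinite. Every ideal in the image is `LinEq` to one
of the finitely many `q ∈ Q`, so there is `q` with infinitely many such ideals (`Set.Infinite` pigeonhole).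
Choose an injective sequence of those ideals `k_0, k_1, ...` (`Set.Infinite.natEmbedding`), with points
`P_j` and functions `g_j`, `g_j q = k_j`, `g_j` and its inverse in all `O` at infinity. `g_j ≠ 0` since `k_j ≠ ⊥`. Put
`p0 = k_0` and `f j = g_j / g_0`: `f_j p0 = (g_j/g_0) g_0 q = k_j`. Maximality etc. of `p0` as above.
-/

set_option autoImplicit false

noncomputable section

namespace Pool.Agent.Work.MP_50269c_nt

open NumberField IsDedekindDomain Polynomial

variable {L : Type} [Field L] [NumberField L] {Lb : Type} [Field Lb] [Algebra L Lb]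
  [IsAlgClosure L Lb] {A : Type} [CommRing A] [IsDedekindDomain A] [Algebra L A] {K : Type}
  [Field K] [Algebra A K] [IsFractionRing A K] [Algebra L K] [IsScalarTower L A K] {Kb : Type}
  [Field Kb] [Algebra K Kb] [Algebra Lb Kb] [Algebra L Kb] [IsScalarTower L K Kb]
  [IsScalarTower L Lb Kb]

variable {n : ℕ} {x : Fin n → A}

/-- facts on the kernel of one point -/
private theorem ker_facts (hx : Algebra.adjoin L (Set.range x) = ⊤)
    (S : Finset (HeightOneSpectrum (𝓞 L))) (d : ℕ) (P : A →ₐ[L] Lb)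
    (hP : P ∈ IntPts L Lb S x d) :
    (RingHom.ker P).IsMaximal ∧ Module.Finite L (A ⧸ RingHom.ker P) ∧
      Module.finrank L (A ⧸ RingHom.ker P) ≤ d := by
  have hint : ∀ z : Lb, IsIntegral L z := fun z =>
    ((IsAlgClosure.isAlgebraic (R := L) (K := Lb)).isAlgebraic z).isIntegral
  set F : IntermediateField L Lb := IntermediateField.adjoin L (Set.range fun i => P (x i)) with hF
  have hFa : F.toSubalgebra = Algebra.adjoin L (Set.range fun i => P (x i)) :=
    IntermediateField.adjoin_toSubalgebra_of_isAlgebraic (fun z _ => (hint z).isAlgebraic)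
  have hrange : P.range = F.toSubalgebra := by
    rw [hFa, ← Algebra.map_top, ← hx, AlgHom.map_adjoin, ← Set.range_comp]
    rfl
  have hmem : ∀ a, P a ∈ F.toSubalgebra := fun a => by
    rw [← hrange]
    exact ⟨a, rfl⟩
  let P' : A →ₐ[L] F := P.codRestrict F.toSubalgebra hmem
  have hP'v : ∀ a, ((P' a : F) : Lb) = P a := fun a => rfl
  have hsurj : Function.Surjective P' := by
    rintro ⟨z, hz⟩
    have hz' : z ∈ P.range := by
      rw [hrange]
      exact hz
    obtain ⟨a, ha⟩ := hz'
    exact ⟨a, Subtype.ext ha⟩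
  have hker : RingHom.ker P' = RingHom.ker P := by
    ext a
    rw [RingHom.mem_ker, RingHom.mem_ker]
    constructor
    · intro h
      rw [← hP'v, h]
      rfl
    · intro h
      exact Subtype.ext (by rw [hP'v, h]; rfl)
  have hfin : FiniteDimensional L F := by
    refine IntermediateField.finiteDimensional_adjoin ?_
    intro z _
    exact hint z
  have hmax : (RingHom.ker P').IsMaximal := RingHom.ker_isMaximal_of_surjective P' hsurj
  let e : (A ⧸ RingHom.ker P') ≃ₐ[L] F := Ideal.quotientKerAlgEquivOfSurjective hsurj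
  have h1 : Module.Finite L (A ⧸ RingHom.ker P') := Module.Finite.equiv e.symm.toLinearEquiv
  have h2 : Module.finrank L (A ⧸ RingHom.ker P') = Module.finrank L F :=
    e.toLinearEquiv.finrank_eq
  rw [← hker]
  exact ⟨hmax, h1, h2.le.trans hP.2⟩

/-- only finitely many points have a given kernel -/
private theorem fiber_fin (hx : Algebra.adjoin L (Set.range x) = ⊤) (k : Ideal A) :
    {P : A →ₐ[L] Lb | RingHom.ker P = k}.Finite := by
  rcases Set.eq_empty_or_nonempty {P : A →ₐ[L] Lb | RingHom.ker P = k} with h | ⟨P0, hP0⟩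
  · rw [h]
    exact Set.finite_empty
  have hint : ∀ z : Lb, IsIntegral L z := fun z =>
    ((IsAlgClosure.isAlgebraic (R := L) (K := Lb)).isAlgebraic z).isIntegral
  let R : Set (Fin n → Lb) :=
    Set.pi Set.univ fun i => ((minpoly L (P0 (x i))).rootSet Lb : Set Lb)
  have hR : R.Finite := Set.Finite.pi (fun i => Polynomial.rootSet_finite _ _)
  have hinj : Function.Injective (fun P : A →ₐ[L] Lb => fun i => P (x i)) := by
    intro P Q h
    refine AlgHom.ext_of_adjoin_eq_top hx ?_
    rintro _ ⟨i, rfl⟩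
    exact congrFun h i
  refine (hR.preimage hinj.injOn).subset ?_
  intro P hP
  rw [Set.mem_preimage]
  intro i _
  rw [Polynomial.mem_rootSet]
  refine ⟨minpoly.ne_zero (hint _), ?_⟩
  have h1 : P0 (aeval (x i) (minpoly L (P0 (x i)))) = 0 := by
    rw [← Polynomial.aeval_algHom_apply]
    exact minpoly.aeval _ _
  have h2 : aeval (x i) (minpoly L (P0 (x i))) ∈ RingHom.ker P := by
    have h3 : RingHom.ker P = RingHom.ker P0 := (show RingHom.ker P = k from hP).trans
      (show RingHom.ker P0 = k from hP0).symm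
    rw [h3, RingHom.mem_ker]
    exact h1
  rw [RingHom.mem_ker, ← Polynomial.aeval_algHom_apply] at h2
  exact h2

theorem seq_exists (hx : Algebra.adjoin L (Set.range x) = ⊤) (hA : ¬ IsField A)
    (S : Finset (HeightOneSpectrum (𝓞 L))) (d : ℕ)
    (Q : Finset (Ideal A))
    (hinf : {P ∈ IntPts L Lb S x d | ∃ q ∈ Q, LinEq L x K (RingHom.ker P) q}.Infinite) :
    ∃ p0 : Ideal A, p0.IsMaximal ∧ p0 ≠ ⊥ ∧ Module.Finite L (A ⧸ p0) ∧
      Module.finrank L (A ⧸ p0) ≤ d ∧
      ∃ (P : ℕ → (A →ₐ[L] Lb)) (f : ℕ → K), (∀ j, P j ∈ IntPts L Lb S x d) ∧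
        (∀ i j, i ≠ j → RingHom.ker (P i) ≠ RingHom.ker (P j)) ∧ (∀ j, f j ≠ 0) ∧
        (∀ j, (RingHom.ker (P j)).IsMaximal) ∧
        (∀ j, (fun a => f j * algebraMap A K a) '' (p0 : Set A) =
          algebraMap A K '' (RingHom.ker (P j) : Set A)) ∧
        ∀ j, ∀ O : ValuationSubring K, AtInf L (fun i => algebraMap A K (x i)) O →
          f j ∈ O ∧ (f j)⁻¹ ∈ O :=
  by
  set T : Set (Ideal A) := (fun P : A →ₐ[L] Lb => RingHom.ker P) ''
    {P ∈ IntPts L Lb S x d | ∃ q ∈ Q, LinEq L x K (RingHom.ker P) q} with hTdef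
  have hT : T.Infinite := by
    intro hfin
    refine hinf (Set.Finite.of_finite_fibers _ hfin ?_)
    intro k _
    exact (fiber_fin (Lb := Lb) hx k).subset (fun P hP => hP.2)
  obtain ⟨q, hq, hqinf⟩ : ∃ q ∈ Q, (T ∩ {p | LinEq L x K p q}).Infinite := by
    by_contra hcon
    push Not at hcon
    refine hT ((Set.Finite.biUnion Q.finite_toSet
      (t := fun q => T ∩ {p | LinEq L x K p q}) (fun q hq => ?_)).subset ?_)
    · exact hcon q hq
    · intro p hp
      obtain ⟨P, hP, hPk⟩ := hp
      obtain ⟨q, hqQ, hql⟩ := hP.2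
      exact Set.mem_biUnion (x := q) hqQ ⟨⟨P, hP, hPk⟩, hPk ▸ hql⟩
  let em := hqinf.natEmbedding _
  have hch : ∀ j, ∃ P : A →ₐ[L] Lb, P ∈ IntPts L Lb S x d ∧
      RingHom.ker P = ((em j).1 : Ideal A) := by
    intro j
    obtain ⟨P, hP, hPk⟩ := (em j).2.1
    exact ⟨P, hP.1, hPk⟩
  choose P hP hPk using hch
  have hlin : ∀ j, LinEq L x K (RingHom.ker (P j)) q := by
    intro j
    rw [hPk j]
    exact (em j).2.2
  choose g hg1 hg2 using hlin
  have hmaxP : ∀ j, (RingHom.ker (P j)).IsMaximal := fun j => (ker_facts hx S d (P j) (hP j)).1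
  have hnebot : ∀ j, RingHom.ker (P j) ≠ ⊥ := fun j =>
    Ring.ne_bot_of_isMaximal_of_not_isField (hmaxP j) hA
  have hg0 : ∀ j, g j ≠ 0 := by
    intro j h0
    apply hnebot j
    rw [eq_bot_iff]
    intro a ha
    have h1 : algebraMap A K a ∈ algebraMap A K '' (RingHom.ker (P j) : Set A) := ⟨a, ha, rfl⟩
    rw [← hg1 j, h0] at h1
    obtain ⟨b, _, hb⟩ := h1
    simp only [zero_mul] at hb
    have h2 : a = 0 := by
      apply IsFractionRing.injective A K
      rw [← hb, map_zero]
    rw [h2]
    exact Ideal.zero_mem _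
  have hf0 := ker_facts hx S d (P 0) (hP 0)
  refine ⟨RingHom.ker (P 0), hmaxP 0, hnebot 0, hf0.2.1, hf0.2.2, P, fun j => g j / g 0, hP,
    ?_, fun j => div_ne_zero (hg0 j) (hg0 0), hmaxP, ?_, ?_⟩
  · intro i j hij h
    apply hij
    apply em.injective
    apply Subtype.ext
    rw [← hPk i, ← hPk j, h]
  · intro j
    have h1 : (fun a => g j / g 0 * algebraMap A K a) '' (RingHom.ker (P 0) : Set A) =
        (fun z => g j / g 0 * z) '' (algebraMap A K '' (RingHom.ker (P 0) : Set A)) := by
      rw [Set.image_image]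
    rw [h1, ← hg1 0, ← hg1 j, Set.image_image]
    refine Set.image_congr ?_
    intro a _
    have h2 := hg0 0
    field_simp
  · intro j O hO
    obtain ⟨h1, h2⟩ := hg2 j O hO
    obtain ⟨h3, h4⟩ := hg2 0 O hO
    refine ⟨?_, ?_⟩
    · change g j / g 0 ∈ O
      rw [div_eq_mul_inv]
      exact mul_mem h1 h4
    · change (g j / g 0)⁻¹ ∈ O
      rw [inv_div, div_eq_mul_inv]
      exact mul_mem h3 h2

end Pool.Agent.Work.MP_50269c_nt
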