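import Pool.Agent.Work.MP_50269c_nt.CoreB
import Pool.Agent.Work.MP_50269c_nt.Noeth
import Pool.Agent.Work.MP_50269c_nt.Seq
import Pool.Agent.Work.MP_50269c_nt.BasV
import Pool.Agent.Work.MP_50269c_nt.DegB
import Pool.Agent.Work.MP_50269c_nt.Res
import Pool.Agent.Work.MP_50269c_nt.Pencil

/-!
# Main: the assembly
-/

set_option autoImplicit false

noncomputable section

namespace Pool.Agent.Work.MP_50269c_nt

open NumberField IsDedekindDomain Polynomial

variable {L : Type} [Field L] [NumberField L] {Lb : Type} [Field Lb] [Algebra L Lb]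
  [IsAlgClosure L Lb] {A : Type} [CommRing A] [IsDedekindDomain A] [Algebra L A] {K : Type}
  [Field K] [Algebra A K] [IsFractionRing A K] [Algebra L K] [IsScalarTower L A K] {Kb : Type}
  [Field Kb] [Algebra K Kb] [Algebra Lb Kb] [Algebra L Kb] [IsScalarTower L K Kb]
  [IsScalarTower L Lb Kb]

theorem exists_D0 {p : Ideal A} (hfin : Module.Finite L (A ⧸ p)) (t : A) :
    ∃ D0 : L[X], D0.Monic ∧ aeval t D0 ∈ p := by
  have h1 : IsIntegral L (Ideal.Quotient.mk p t) :=
    Algebra.IsIntegral.isIntegral _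
  obtain ⟨q, hq1, hq2⟩ := h1
  refine ⟨q, hq1, ?_⟩
  rw [← Ideal.Quotient.eq_zero_iff_mem, ← hq2]
  change Ideal.Quotient.mkₐ L p (aeval t q) = _
  rw [← Polynomial.aeval_algHom_apply]
  rfl

theorem main (hgeo : ∀ z : K, IsAlgebraic L z → z ∈ Set.range (algebraMap L K))
    (hKb : IntermediateField.adjoin Lb (Set.range (algebraMap K Kb)) = ⊤)
    (S : Finset (HeightOneSpectrum (𝓞 L))) {n : ℕ} {x : Fin n → A}
    (hx : Algebra.adjoin L (Set.range x) = ⊤) (hA : ¬ IsField A) (d : ℕ)
    (Q : Finset (Ideal A))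
    (hinf : {P ∈ IntPts L Lb S x d | ∃ q ∈ Q, LinEq L x K (RingHom.ker P) q}.Infinite) :
    ∃ φ : Kb,
      φ ∈ Subfield.closure (Set.range (algebraMap K Kb) ∪
        algebraMap Lb Kb '' (bdryField L Lb x K Kb : Set Lb)) ∧
      φ ∉ Set.range (algebraMap Lb Kb) ∧
      FiniteDimensional (IntermediateField.adjoin Lb {φ}) Kb ∧
      Module.finrank (IntermediateField.adjoin Lb {φ}) Kb ≤ d ∧
      ∀ O : ValuationSubring Kb, AtInf Lb (fun i => algebraMap K Kb (algebraMap A K (x i))) O →
        φ ∉ O ∨ φ⁻¹ ∉ O := by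
  classical
  obtain ⟨t, N, b, ht, hb⟩ := noeth hx hA
  obtain ⟨p0, hp0max, hp0ne, hp0fin, hp0d, P, f, hP, hker, hf0, hkmax, hpf, hfO⟩ :=
    seq_exists (K := K) hx hA S d Q hinf
  have hfK : ∀ j, ∀ O : ValuationSubring Kb, AtInf Lb (fun i => emb A K Kb (x i)) O →
      algebraMap K Kb (f j) ∈ O := fun j O hO =>
    place_down (fun O' hO' => (hfO j O' hO').1) hO
  have hfKi : ∀ j, ∀ O : ValuationSubring Kb, AtInf Lb (fun i => emb A K Kb (x i)) O →
      (algebraMap K Kb (f j))⁻¹ ∈ O := fun j O hO => by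
    rw [← map_inv₀]
    exact place_down (fun O' hO' => (hfO j O' hO').2) hO
  obtain ⟨hfinX, -⟩ := xx_dim (K := K) (Kb := Kb) hx hgeo hKb hb hp0max hp0ne hp0fin 1 0
  have hmul : ∀ j, ∀ y ∈ p0, ∃ z : A, f j * algebraMap A K y = algebraMap A K z := by
    intro j y hy
    have h1 : f j * algebraMap A K y ∈ algebraMap A K '' (RingHom.ker (P j) : Set A) := by
      rw [← hpf j]
      exact ⟨y, hy, rfl⟩
    obtain ⟨z, -, hz⟩ := h1
    exact ⟨z, hz.symm⟩
  have hmemX : ∀ j, algebraMap K Kb (f j) ∈ XX K Lb Kb x t p0 1 0 := by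
    intro j
    refine ⟨fun y hy => ?_, fun O hO => ?_⟩
    · rw [pow_one] at hy
      obtain ⟨z, hz⟩ := hmul j y hy
      have h1 : algebraMap K Kb (f j) * emb A K Kb y = emb A K Kb z := by
        simp only [emb, RingHom.coe_comp, Function.comp_apply]
        rw [← map_mul, hz]
      rw [h1]
      exact Algebra.subset_adjoin ⟨z, rfl⟩
    · rw [pow_zero, div_one]
      exact hfK j O hO
  obtain ⟨m, e, he, hespan, a, hfa⟩ := basis_exists hgeo f (XX K Lb Kb x t p0 1 0) hfinX hmemX
  obtain ⟨D0, hD0mon, hD0⟩ := exists_D0 hp0fin t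
  have hh : ∀ k, ∃ h : A, algebraMap A K h = algebraMap A K (aeval t D0) * e k := by
    intro k
    refine Submodule.span_induction (p := fun y _ => ∃ h : A, algebraMap A K h =
      algebraMap A K (aeval t D0) * y) ?_ ?_ ?_ ?_ (hespan k)
    · rintro _ ⟨j, rfl⟩
      obtain ⟨z, hz⟩ := hmul j _ hD0
      exact ⟨z, by rw [← hz, mul_comm]⟩
    · exact ⟨0, by simp⟩
    · rintro y z _ _ ⟨h1, hh1⟩ ⟨h2, hh2⟩
      exact ⟨h1 + h2, by rw [map_add, hh1, hh2, mul_add]⟩
    · rintro c y _ ⟨h1, hh1⟩
      refine ⟨c • h1, ?_⟩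
      rw [Algebra.smul_def, Algebra.smul_def, map_mul, hh1,
        ← IsScalarTower.algebraMap_apply L A K]
      ring
  choose h hh using hh
  choose M hM using fun k => exists_mat hb (h k)
  obtain ⟨G, hG1, hG2⟩ := forms M
  have heX : ∀ k, algebraMap K Kb (e k) ∈ XX K Lb Kb x t p0 1 0 := by
    intro k
    refine Submodule.span_induction (p := fun y _ => algebraMap K Kb y ∈
      XX K Lb Kb x t p0 1 0) ?_ ?_ ?_ ?_ (hespan k)
    · rintro _ ⟨j, rfl⟩
      exact hmemX j
    · rw [map_zero]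
      exact zero_mem _
    · intro y z _ _ hy hz
      rw [map_add]
      exact add_mem hy hz
    · intro c y _ hy
      rw [Algebra.smul_def, map_mul, ← IsScalarTower.algebraMap_apply L K Kb,
        IsScalarTower.algebraMap_apply L Lb Kb, ← Algebra.smul_def]
      exact Submodule.smul_mem _ _ hy
  have hei : ∀ k, ∀ O : ValuationSubring Kb, AtInf Lb (fun i => emb A K Kb (x i)) O →
      algebraMap K Kb (e k) ∈ O := by
    intro k O hO
    have h1 := (heX k).2 O hO
    rwa [pow_zero, div_one] at h1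
  have s : St L Lb K Kb x t b e D0 h M G :=
    ⟨hx, hgeo, hKb, hb, he, hei, hD0mon.ne_zero, hh, hM, hG1, hG2⟩
  have hane : ∀ j, a j ≠ 0 := by
    intro j h0
    apply hf0 j
    rw [hfa j, h0]
    simp
  -- residues in the boundary field
  set F := bdryField L Lb x K Kb with hF
  let I := {O : ValuationSubring Kb // AtInf Lb (fun i => emb A K Kb (x i)) O}
  have hres : ∀ (i : I) k, ∃ c : F, algebraMap K Kb (e k) - algebraMap Lb Kb (c : Lb) ∈
      i.1.nonunits := by
    intro i k
    obtain ⟨c, hc⟩ := res_exists hgeo hKb hb i.2 (hei k i.1 i.2)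
    exact ⟨⟨c, IntermediateField.subset_adjoin L _ ⟨i.1, i.2, e k, hc⟩⟩, hc⟩
  choose lam hlam using hres
  let fv : (Fin m → F) → Kb := fun v => ∑ k, algebraMap Lb Kb (v k) * algebraMap K Kb (e k)
  have hfv : ∀ (i : I) (v : Fin m → F),
      fv v - algebraMap Lb Kb ((∑ k, lam i k * v k : F) : Lb) ∈ i.1.nonunits := by
    intro i v
    have h1 : fv v - algebraMap Lb Kb ((∑ k, lam i k * v k : F) : Lb) =
        ∑ k, algebraMap Lb Kb (v k) *
          (algebraMap K Kb (e k) - algebraMap Lb Kb (lam i k : Lb)) := by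
      have hc : ((∑ k, lam i k * v k : F) : Lb) = ∑ k, (lam i k : Lb) * (v k : Lb) := by
        rw [IntermediateField.coe_sum]
        exact Finset.sum_congr rfl fun k _ => IntermediateField.coe_mul _ _ _
      simp only [fv, mul_sub, Finset.sum_sub_distrib]
      rw [hc, map_sum]
      congr 1
      exact Finset.sum_congr rfl fun k _ => by rw [map_mul, mul_comm]
    rw [h1]
    exact nu_sum _ fun k _ => nu_mul (i.2.1 _) (hlam i k)
  have hfvmem : ∀ (i : I) (v : Fin m → F), fv v ∈ i.1 := fun i v => s.mem _ i.1 i.2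
  have hzero : ∀ (i : I) (v : Fin m → F), ∑ k, lam i k * v k = 0 → fv v ∈ i.1.nonunits := by
    intro i v h0
    have h1 := hfv i v
    rw [h0] at h1
    simpa using h1
  have hcst : ∀ (i : I) (c : Lb), algebraMap Lb Kb c ∈ i.1.nonunits → c = 0 := by
    intro i c hc
    by_contra h0
    refine nu_inv ((_root_.map_ne_zero _).mpr h0) hc ?_
    rw [← map_inv₀]
    exact i.2.1 _
  have hunit : ∀ (i : I) (v : Fin m → F), ∑ k, lam i k * v k ≠ 0 → fv v ∉ i.1.nonunits := by
    intro i v h0 h1
    have h2 := nu_sub h1 (hfv i v)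
    rw [sub_sub_cancel] at h2
    exact h0 (by exact_mod_cast hcst i _ h2)
  have hfvX : ∀ v : Fin m → F, fv v ∈ XX K Lb Kb x t p0 1 0 := by
    intro v
    refine sum_mem fun k _ => ?_
    rw [← Algebra.smul_def]
    exact Submodule.smul_mem _ _ (heX k)
  have hfv0 : ∀ v : Fin m → F, v ≠ 0 → fv v ≠ 0 := by
    intro v hv
    refine s.ne_zero (a := fun k => (v k : Lb)) fun h0 => hv ?_
    funext k
    have h1 := congrFun h0 k
    exact Subtype.ext h1
  have hfvcl : ∀ v : Fin m → F, fv v ∈ Subfield.closure (Set.range (algebraMap K Kb) ∪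
      algebraMap Lb Kb '' (F : Set Lb)) := by
    intro v
    refine sum_mem fun k _ => mul_mem ?_ ?_
    · exact Subfield.subset_closure (Or.inr ⟨v k, (v k).2, rfl⟩)
    · exact Subfield.subset_closure (Or.inl ⟨e k, rfl⟩)
  have hfj : ∀ j, fv (fun k => algebraMap L F (a j k)) = algebraMap K Kb (f j) := by
    intro j
    rw [hfa j, map_sum]
    refine Finset.sum_congr rfl fun k _ => ?_
    rw [map_mul, ← IsScalarTower.algebraMap_apply L K Kb, IsScalarTower.algebraMap_apply L Lb Kb]
    rfl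
  have hlne : ∀ (i : I) j, ∑ k, lam i k * algebraMap L F (a j k) ≠ 0 := by
    intro i j h0
    have h1 := hzero i (fun k => algebraMap L F (a j k)) h0
    rw [hfj] at h1
    exact nu_inv ((_root_.map_ne_zero _).mpr (hf0 j)) h1 (hfKi j i.1 i.2)
  have hO : ∃ O : ValuationSubring Kb, AtInf Lb (fun i => emb A K Kb (x i)) O :=
    exists_atInf hx hgeo hKb hb
  obtain ⟨O1, hO1⟩ := hO
  -- the unit step over the boundary field
  have hU : ∀ (r : ℕ), 2 ≤ r → ∀ (q : Fin r → I) (i0 : I) (c : Fin r → F), (∀ l, c l ≠ 0) →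
      ∀ J : Set ℕ, J.Infinite →
      (∀ j ∈ J, ∑ l, c l * ∑ k, lam (q l) k * algebraMap L F (a j k) =
        ∑ k, lam i0 k * algebraMap L F (a j k)) →
      ∃ b : Fin r → F, b ≠ 0 ∧ ∃ J' ⊆ J, J'.Infinite ∧
        ∀ j ∈ J', ∑ l, b l * ∑ k, lam (q l) k * algebraMap L F (a j k) = 0 := by
    intro r hr q i0 c hc J hJ hrel
    -- apply `units_core` to the places `i0, q 0, ..., q (r-1)`
    let qs : Fin (r + 1) → I := Fin.cons i0 q
    obtain ⟨E, iE1, iE2, iE3, iE4, iE5, T, hB, hne, hunits⟩ := units_core s hD0mon (S := S) hfa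
      (fun j i => (hP j).1 i) hpf hane hfKi (fun l => (qs l).1) (fun l => (qs l).2)
      (fun l k => (lam (qs l) k : Lb)) (by
        intro l h0
        apply hlne (qs l) 0
        refine Finset.sum_eq_zero fun k _ => ?_
        have h1 : lam (qs l) k = 0 := Subtype.ext (congrFun h0 k)
        rw [h1, zero_mul]) (fun l k => hlam (qs l) k)
      (Finset.univ.image fun l => (c l : Lb))
    have hco : ∀ j l, ((∑ k, lam (q l) k * algebraMap L F (a j k) : F) : Lb) =
        ∑ k, (lam (qs l.succ) k : Lb) * algebraMap L Lb (a j k) := by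
      intro j l
      rw [IntermediateField.coe_sum]
      refine Finset.sum_congr rfl fun k _ => ?_
      rw [IntermediateField.coe_mul]
      rfl
    have hco0 : ∀ j, ((∑ k, lam i0 k * algebraMap L F (a j k) : F) : Lb) =
        ∑ k, (lam (qs 0) k : Lb) * algebraMap L Lb (a j k) := by
      intro j
      rw [IntermediateField.coe_sum]
      refine Finset.sum_congr rfl fun k _ => ?_
      rw [IntermediateField.coe_mul]
      rfl
    have hcE : ∀ l, ∃ w : E, algebraMap E Lb w = c l := fun l =>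
      hB _ (Finset.mem_image.mpr ⟨l, Finset.mem_univ _, rfl⟩)
    choose cE hcE using hcE
    choose u hu1 hu2 using fun j (l : Fin r) => hunits j l.succ 0
    obtain ⟨bE, hbE, J', hJ', hJinf, hrel'⟩ := unitE T hr (c := cE) (u := u) (fun l h0 => by
        apply hc l
        apply Subtype.ext
        rw [← hcE l, h0, map_zero]
        rfl) hJ (fun j _ l => hu1 j l) (fun j hj => by
        apply (algebraMap E Lb).injective
        rw [map_one, map_sum]
        have h1 := congrArg (fun z : F => (z : Lb)) (hrel j hj)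
        rw [hco0, IntermediateField.coe_sum] at h1
        have h2 := hne j 0
        apply mul_right_cancel₀ h2
        have h5 : (∑ l, algebraMap E Lb (cE l * u j l)) *
            ∑ k, (lam (qs 0) k : Lb) * algebraMap L Lb (a j k) =
            ∑ l, ((c l * ∑ k, lam (q l) k * algebraMap L F (a j k) : F) : Lb) := by
          rw [Finset.sum_mul]
          refine Finset.sum_congr rfl fun l _ => ?_
          rw [IntermediateField.coe_mul, hco, map_mul, hcE, mul_assoc, hu2]
        rw [one_mul, h5, h1])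
    -- a linear functional over `F`
    obtain ⟨l0, hl0⟩ : ∃ l0, bE l0 ≠ 0 := by
      by_contra hcon
      push Not at hcon
      exact hbE (funext hcon)
    obtain ⟨g, hg⟩ : ∃ g : Lb →ₗ[F] F, g (algebraMap E Lb (bE l0)) = 1 := by
      have h1 : algebraMap E Lb (bE l0) ≠ 0 := (_root_.map_ne_zero _).mpr hl0
      obtain ⟨g, hg⟩ := LinearMap.exists_leftInverse_of_injective
        (LinearMap.toSpanSingleton F Lb (algebraMap E Lb (bE l0)))
        (LinearMap.ker_toSpanSingleton F h1)
      refine ⟨g, ?_⟩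
      have h2 := LinearMap.congr_fun hg 1
      simpa using h2
    refine ⟨fun l => g (algebraMap E Lb (bE l)), ?_, J', hJ', hJinf, fun j hj => ?_⟩
    · intro h0
      have h1 := congrFun h0 l0
      simp only [Pi.zero_apply] at h1
      rw [hg] at h1
      exact one_ne_zero h1
    · have h1 : ∑ l, (algebraMap E Lb (bE l)) *
          ((∑ k, lam (q l) k * algebraMap L F (a j k) : F) : Lb) = 0 := by
        have h2 := congrArg (algebraMap E Lb) (hrel' j hj)
        rw [map_zero, map_sum] at h2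
        have h3 : (∑ l, algebraMap E Lb (bE l * u j l)) *
            ∑ k, (lam (qs 0) k : Lb) * algebraMap L Lb (a j k) = 0 := by rw [h2, zero_mul]
        rw [Finset.sum_mul] at h3
        rw [← h3]
        refine Finset.sum_congr rfl fun l _ => ?_
        rw [hco, map_mul, mul_assoc, hu2]
      have h4 := congrArg g h1
      rw [map_zero, map_sum] at h4
      rw [← h4]
      refine Finset.sum_congr rfl fun l _ => ?_
      have h5 : algebraMap E Lb (bE l) *
          ((∑ k, lam (q l) k * algebraMap L F (a j k) : F) : Lb) =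
          (∑ k, lam (q l) k * algebraMap L F (a j k) : F) • algebraMap E Lb (bE l) := by
        rw [Algebra.smul_def, mul_comm]
        rfl
      rw [h5, map_smul, smul_eq_mul, mul_comm]
  have hprop : ∀ i j, i ≠ j → ∀ c : F, (fun k => algebraMap L F (a i k)) ≠
      c • (fun k => algebraMap L F (a j k)) := by
    intro i j hij c hcon
    have h0 : ∀ k, algebraMap L F (a i k) = c * algebraMap L F (a j k) := fun k =>
      congrFun hcon k
    obtain ⟨k1, hk1⟩ : ∃ k, a i k ≠ 0 := by
      by_contra h1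
      push Not at h1
      exact hane i (funext h1)
    have hk2 : a j k1 ≠ 0 := by
      intro h1
      have h2 := h0 k1
      rw [h1, map_zero, mul_zero] at h2
      exact hk1 ((_root_.map_eq_zero _).mp h2)
    have hc : c = algebraMap L F (a i k1 / a j k1) := by
      rw [map_div₀, eq_div_iff ((_root_.map_ne_zero _).mpr hk2)]
      exact (h0 k1).symm
    set c' := a i k1 / a j k1 with hc'
    have hc0 : c' ≠ 0 := div_ne_zero hk1 hk2
    have h3 : ∀ k, a i k = c' * a j k := by
      intro k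
      apply (algebraMap L F).injective
      rw [h0 k, hc, map_mul]
    have h4 : f i = algebraMap L K c' * f j := by
      rw [hfa i, hfa j, Finset.mul_sum]
      refine Finset.sum_congr rfl fun k _ => ?_
      rw [h3 k, map_mul, mul_assoc]
    apply hker i j hij
    have h5 : ∀ (c : L) (i j : ℕ), c ≠ 0 → f i = algebraMap L K c * f j →
        RingHom.ker (P j) ≤ RingHom.ker (P i) := by
      intro c i j hc h4 y hy
      have h5 : algebraMap A K y ∈ algebraMap A K '' (RingHom.ker (P j) : Set A) := ⟨y, hy, rfl⟩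
      rw [← hpf j] at h5
      obtain ⟨w, hw, hwy⟩ := h5
      have h6 : algebraMap A K (c⁻¹ • w) * f i = f j * algebraMap A K w := by
        rw [h4, Algebra.smul_def, map_mul, ← IsScalarTower.algebraMap_apply L A K, map_inv₀]
        field_simp [(_root_.map_ne_zero (algebraMap L K)).mpr hc]
      have h7 : algebraMap A K y ∈ algebraMap A K '' (RingHom.ker (P i) : Set A) := by
        rw [← hpf i]
        refine ⟨c⁻¹ • w, ?_, ?_⟩
        · rw [Algebra.smul_def]
          exact p0.mul_mem_left _ hw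
        · simp only
          rw [mul_comm, h6]
          exact hwy
      obtain ⟨y', hy', h8⟩ := h7
      rwa [← IsFractionRing.injective A K h8]
    refine le_antisymm ?_ (h5 c' i j hc0 h4)
    refine h5 c'⁻¹ j i (inv_ne_zero hc0) ?_
    rw [h4, ← mul_assoc, ← map_mul, inv_mul_cancel₀ hc0, map_one, one_mul]
  have h1X : (1 : Kb) ∈ XX K Lb Kb x t p0 1 0 := by
    refine ⟨fun y _ => ?_, fun O _ => ?_⟩
    · rw [one_mul]
      exact Algebra.subset_adjoin ⟨y, rfl⟩
    · rw [pow_zero, div_one]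
      exact one_mem _
  rcases pencil lam (fun j k => algebraMap L F (a j k)) hprop hlne hU with
    ⟨v, hv0, hv⟩ | ⟨v, w, ⟨i1, hi1⟩, ⟨i2, hi2⟩, hvw⟩
  · -- all the forms vanish at `v`
    have hφ0 : fv v ≠ 0 := hfv0 v hv0
    have hφO : ∀ i : I, fv v ∈ i.1.nonunits := fun i => hzero i v (hv i)
    have hφc : fv v ∉ Set.range (algebraMap Lb Kb) := by
      rintro ⟨c, hc⟩
      apply hφ0
      have h2 := hφO ⟨O1, hO1⟩
      rw [← hc] at h2 ⊢
      rw [hcst _ c h2, map_zero]
    have hdeg := deg_bound (K := K) (Kb := Kb) hx hgeo hKb hb hp0max hp0ne hp0fin (hfvX v) h1X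
      one_ne_zero (by rw [div_one]; exact hφc)
    rw [div_one] at hdeg
    exact ⟨fv v, hfvcl v, hφc, hdeg.1, hdeg.2.trans hp0d, fun O hO =>
      Or.inr (nu_inv hφ0 (hφO ⟨O, hO⟩))⟩
  · have hv0 : fv v ≠ 0 := by
      apply hfv0
      rintro rfl
      exact hi1 (by simp)
    have hw0 : fv w ≠ 0 := by
      apply hfv0
      rintro rfl
      exact hi2 (by simp)
    have hq1 : ∀ i : I, ∑ k, lam i k * v k = 0 → ∑ k, lam i k * w k ≠ 0 →
        fv v / fv w ∈ i.1.nonunits := by
      intro i h1 h2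
      rw [div_eq_mul_inv, mul_comm]
      exact nu_mul (not_nu (hunit i w h2)) (hzero i v h1)
    have hq2 : ∀ i : I, ∑ k, lam i k * v k ≠ 0 → ∑ k, lam i k * w k = 0 →
        (fv v / fv w)⁻¹ ∈ i.1.nonunits := by
      intro i h1 h2
      rw [inv_div, div_eq_mul_inv, mul_comm]
      exact nu_mul (not_nu (hunit i v h1)) (hzero i w h2)
    have hφ0 : fv v / fv w ≠ 0 := div_ne_zero hv0 hw0
    have hφc : fv v / fv w ∉ Set.range (algebraMap Lb Kb) := by
      rintro ⟨c, hc⟩
      -- at `i1` the quotient has a pole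
      rcases hvw i1 with ⟨h1, -⟩ | ⟨h1, h2⟩
      · exact hi1 h1
      · have h3 := hq2 i1 h1 h2
        rw [← hc, ← map_inv₀] at h3
        have h4 := hcst i1 _ h3
        apply hφ0
        rw [← hc, inv_eq_zero.mp h4, map_zero]
    have hdeg := deg_bound (K := K) (Kb := Kb) hx hgeo hKb hb hp0max hp0ne hp0fin (hfvX v)
      (hfvX w) hw0 hφc
    refine ⟨fv v / fv w, div_mem (hfvcl v) (hfvcl w), hφc, hdeg.1, hdeg.2.trans hp0d,
      fun O hO => ?_⟩
    rcases hvw ⟨O, hO⟩ with ⟨h1, h2⟩ | ⟨h1, h2⟩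
    · exact Or.inr (nu_inv hφ0 (hq1 ⟨O, hO⟩ h1 h2))
    · refine Or.inl fun h3 => ?_
      have h4 := nu_inv (inv_ne_zero hφ0) (hq2 ⟨O, hO⟩ h1 h2)
      rw [inv_inv] at h4
      exact h4 h3

end Pool.Agent.Work.MP_50269c_nt
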