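import Pool.Agent.Work.MP_50269c_nt.Defs

/-!
# PencilG (size M-L): the pencil over the field of ONE point at infinity

(Compare Pencil.lean, which is the case `F = Lb` without the Galois action; its private lemmas and its proof can be copied.)
PROOF. Write `lam i v` for `∑ k, lam i k * v k`, and `a j` also for its image in `Lb^m`. Among all `Lb`-subspaces `V` of `Fin m → Lb` such
that `a j ∈ V` for infinitely many `j` choose one, `V`, of minimal dimension, `J = {j | a j ∈ V}`. By minimality `V` is the
`Lb`-span of the `a j`, `j ∈ J`. Let `V1` be the `F`-span of these `a j` in `Fin m → F` (they have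
coordinates in `L ⊆ F`), so (*) `V` is the `Lb`-span of `V1`, and elements of `V` with all coordinates in `F` are in `V1` (linear algebra:
a basis of `V1` over `F`, extended to a basis of `Fin m → F`, is a basis over `Lb`; only needed below in the form: take
`v ∈ V` with coordinates in `F`; for the conclusion it is enough that `v ∈ V`). `dim V ≥ 2` as no two `a j` are proportional.
As in Pencil: (**) if `lam i_0 = ∑_{s < r} c_s lam i_s` on `V` with all `c_s ≠ 0` and the `lam i_s` independent on `V` then `r ≤ 1`, by `hU`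
and minimality. Let `B ∋ i1` be a finite set of indices such that `lam i|V`, `i ∈ B`, is a basis of the span of all the
`lam i|V`. By (**) every `lam i|V` is a nonzero multiple of exactly one member of `B`; call `i`, `i'` EQUIVALENT if `lam i`, `lam i'` are
proportional on `V`.
If all are equivalent to `i1`: the form `lam i1` has coefficients in `F`; on the `F`-space `V1`, of dimension
`≥ 2`, it has values in `F`, so there is `v ∈ V1`, `v ≠ 0`, with `lam i1 v = 0`, so `lam i v = 0` for all `i`.
First alternative.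
Otherwise: let `U = {u ∈ V1 | lam i1 u = 0}`, an `F`-space whose `Lb`-span is `{u ∈ V | lam i1 u = 0}` (dimension count:
`dim_F U = dim_F V1 - 1`, `Lb`-independence of `F`-independent vectors). For `i ∈ B`, `i ≠ i1`, `lam i` does not
vanish on `U` (otherwise it vanishes on the kernel of `lam i1` in `V` and is proportional to `lam i1`). So
`U ∩ ker lam i` is a proper `F`-subspace; `F` is infinite (it contains `L` of characteristic 0), a vector space over an
infinite field is not a finite union of proper subspaces (`Subspace.biUnion_ne_univ_of_top_notMem`): there is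
`w ∈ U` with `lam i w ≠ 0` for all `i ∈ B`, `i ≠ i1`, so for all `i` not equivalent to `i1`, and
`lam i w = 0` for the `i` equivalent to `i1`.
`v`: the set `Q = {v ∈ V | lam i v = 0` for all `i` not equivalent to `i1`, and `lam i1 v = 1}` is not empty (the forms
in `B` are independent on `V`). Choose `v ∈ Q` with the smallest number of nonzero coordinates. CLAIM: `v` has coordinates in `F`.
Let `σ ∈ Gal(Lb/F)`. `σ v ∈ Q`: `V` is stable under `σ` (spanned by the `a j`), `lam i1 (σ v) = σ (lam i1 v) = 1`
since `lam i1` has coefficients in `F`; for `i` not equivalent to `i1` take `i'` with `lam i' = σ⁻¹ (lam i)` (`hσ`);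
`i'` is not equivalent to `i1` (if `lam i' = c lam i1` on `V`, apply `σ`: `lam i = σ(c) lam i1` on `V`),
so `lam i (σ v) = σ (lam i' v) = 0`. If `u = v - σ v ≠ 0`, choose `k` with `u k ≠ 0`; then `v k ≠ 0`, and
`v - (v k / u k) u ∈ Q` (`u ∈ V`, `lam i u = 0` for `i` not equivalent to `i1`, `lam i1 u = 0`), its support is
contained in that of `v` (`σ v` has the same support as `v`) and misses `k`, contradiction. So `σ v = v` for all `σ`,
and `v` has coordinates in `F` because `Lb/F` is Galois (algebraically closed, algebraic over `F`, characteristic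
0: e.g. `IsGalois.mem_bot_iff_fixed`, `InfiniteGalois`, `IsGalois.tower_top_of...`).
Then `lam i v ≠ 0` exactly for the `i` equivalent to `i1`.
-/

set_option autoImplicit false

noncomputable section

namespace Pool.Agent.Work.MP_50269c_nt

open Polynomial

private def gfL {F : Type} [Field F] {m : ℕ} (l : Fin m → F) : (Fin m → F) →ₗ[F] F :=
  ∑ k, l k • LinearMap.proj k

private theorem gfL_apply {F : Type} [Field F] {m : ℕ} (l v : Fin m → F) :
    gfL l v = ∑ k, l k * v k := by
  simp [gfL]

private theorem gsurj {F V κ : Type} [Field F] [AddCommGroup V] [Module F V]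
    [Fintype κ] (M : κ → V →ₗ[F] F) (h : LinearIndependent F M) :
    Function.Surjective (LinearMap.pi M : V →ₗ[F] (κ → F)) := by
  classical
  rw [← LinearMap.range_eq_top]
  by_contra hne
  obtain ⟨f, hf0, hf⟩ := Submodule.exists_le_ker_of_lt_top _ (lt_top_iff_ne_top.mpr hne)
  apply hf0
  have hfe : ∀ x : κ → F, f x = ∑ k, x k * f (Pi.single k 1) := by
    intro x
    conv_lhs => rw [pi_eq_sum_univ' x]
    rw [map_sum]
    refine Finset.sum_congr rfl fun k _ => ?_
    rw [map_smul, smul_eq_mul]
  have h2 := Fintype.linearIndependent_iff.mp h (fun k => f (Pi.single k 1)) (by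
    ext v
    have h3 : f (LinearMap.pi M v) = 0 := hf ⟨v, rfl⟩
    rw [hfe] at h3
    simp only [LinearMap.coe_sum, LinearMap.smul_apply, Finset.sum_apply, LinearMap.zero_apply,
      smul_eq_mul]
    rw [← h3]
    refine Finset.sum_congr rfl fun k _ => ?_
    rw [LinearMap.pi_apply, mul_comm])
  ext k
  simpa using h2 k

/-- The part of `pencil` which is used here: a subspace `V` spanned by infinitely many of the `a j`, and
forms `e k` which are independent on `V` such that every form is a multiple of exactly one of them. -/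
private theorem gcore {F : Type} [Field F] {I : Type} {m : ℕ} (lam : I → Fin m → F)
    (a : ℕ → Fin m → F)
    (hne : ∀ i j, ∑ k, lam i k * a j k ≠ 0)
    (hU : ∀ (r : ℕ), 2 ≤ r → ∀ (s : Fin r → I) (i0 : I) (c : Fin r → F), (∀ q, c q ≠ 0) →
      ∀ J : Set ℕ, J.Infinite →
      (∀ j ∈ J, ∑ q, c q * ∑ k, lam (s q) k * a j k = ∑ k, lam i0 k * a j k) →
      ∃ b : Fin r → F, b ≠ 0 ∧ ∃ J' ⊆ J, J'.Infinite ∧
        ∀ j ∈ J', ∑ q, b q * ∑ k, lam (s q) k * a j k = 0) :
    ∃ J : Set ℕ, J.Infinite ∧ ∃ V : Submodule F (Fin m → F), V = Submodule.span F (a '' J) ∧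
      ∃ (κ : Type) (_ : Fintype κ) (e : κ → I),
        LinearIndependent F (fun k => (gfL (lam (e k))).domRestrict V) ∧
        ∀ i, ∃ k : κ, ∃ c : F, c ≠ 0 ∧ ∀ v ∈ V, gfL (lam i) v = c * gfL (lam (e k)) v := by
  classical
  have hex : ∃ n : ℕ, ∃ V : Submodule F (Fin m → F), Module.finrank F V = n ∧
      {j | a j ∈ V}.Infinite := by
    refine ⟨_, ⊤, rfl, ?_⟩
    simpa using Set.infinite_univ (α := ℕ)
  obtain ⟨V, hVn, hJ⟩ := Nat.find_spec hex
  have hmin : ∀ W : Submodule F (Fin m → F), {j | a j ∈ W}.Infinite →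
      Module.finrank F V ≤ Module.finrank F W := by
    intro W hW
    rw [hVn]
    exact Nat.find_min' hex ⟨W, rfl, hW⟩
  have hker : ∀ f : (Fin m → F) →ₗ[F] F, {j | a j ∈ V ∧ f (a j) = 0}.Infinite →
      ∀ v ∈ V, f v = 0 := by
    intro f hf v hv
    have h1 : V ⊓ LinearMap.ker f = V := by
      apply Submodule.eq_of_le_of_finrank_le inf_le_left
      apply hmin
      refine hf.mono ?_
      rintro j ⟨hj1, hj2⟩
      exact ⟨hj1, hj2⟩
    have h2 : v ∈ V ⊓ LinearMap.ker f := by rw [h1]; exact hv
    exact h2.2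
  set M : I → V →ₗ[F] F := fun i => (gfL (lam i)).domRestrict V with hM
  have hMa : ∀ i (v : V), M i v = ∑ k, lam i k * (v : Fin m → F) k := by
    intro i v
    rw [hM]
    simp only [LinearMap.domRestrict_apply]
    exact gfL_apply _ _
  obtain ⟨j0, hj0⟩ := hJ.nonempty
  have hM0 : ∀ i, M i ≠ 0 := by
    intro i h0
    apply hne i j0
    have := hMa i ⟨a j0, hj0⟩
    rw [h0] at this
    simpa using this.symm
  obtain ⟨κ, e, he, hspan, hind⟩ := exists_linearIndependent' F M
  have : Finite κ := hind.finite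
  have : Fintype κ := Fintype.ofFinite κ
  have hone : ∀ i, ∃ k : κ, ∃ c : F, c ≠ 0 ∧ M i = c • M (e k) := by
    intro i
    have hmem : M i ∈ Submodule.span F (Set.range (M ∘ e)) := by
      rw [hspan]
      exact Submodule.subset_span ⟨i, rfl⟩
    obtain ⟨c, hc⟩ := (Submodule.mem_span_range_iff_exists_fun F).mp hmem
    set S : Finset κ := Finset.univ.filter fun k => c k ≠ 0 with hS
    have hcS : ∑ k ∈ S, c k • M (e k) = M i := by
      rw [← hc]
      rw [hS, Finset.sum_filter]
      refine Finset.sum_congr rfl fun k _ => ?_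
      by_cases h : c k = 0
      · simp [h]
      · simp [h]
    have hmemS : ∀ k ∈ S, c k ≠ 0 := by
      intro k hk
      rw [hS] at hk
      exact (Finset.mem_filter.mp hk).2
    have hcard : S.card ≤ 1 := by
      by_contra hcon
      push Not at hcon
      set ε : Fin S.card ≃ S := S.equivFin.symm with hε
      have hsum : ∀ g : κ → F, ∀ x : V, ∑ q : Fin S.card, g (ε q) * M (e (ε q)) x =
          ∑ k ∈ S, g k * M (e k) x := by
        intro g x
        rw [← Finset.sum_coe_sort S (fun k => g k * M (e k) x)]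
        exact ε.sum_comp (fun k : S => g k * M (e k) x)
      obtain ⟨b, hb, J', hJ'1, hJ'2, hJ'3⟩ := hU S.card hcon (fun q => e (ε q)) i
        (fun q => c (ε q)) (fun q => hmemS _ (ε q).2) {j | a j ∈ V} hJ (by
          intro j hj
          have h1 := hsum c ⟨a j, hj⟩
          have h2 : M i ⟨a j, hj⟩ = ∑ k ∈ S, c k * M (e k) ⟨a j, hj⟩ := by
            rw [← hcS]
            simp
          rw [← h1] at h2
          simp only [hMa] at h2
          exact h2.symm)
      apply hb
      have hz := hker (∑ q, b q • gfL (lam (e (ε q)))) (by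
        refine hJ'2.mono ?_
        intro j hj
        refine ⟨hJ'1 hj, ?_⟩
        have := hJ'3 j hj
        simpa [gfL_apply] using this)
      have hli : LinearIndependent F (fun q : Fin S.card => M (e (ε q))) := by
        refine hind.comp (fun q : Fin S.card => (ε q : κ)) ?_
        exact Subtype.val_injective.comp ε.injective
      have h5 := Fintype.linearIndependent_iff.mp hli b (by
        ext v
        have := hz v v.2
        simp only [LinearMap.coe_sum, LinearMap.smul_apply, Finset.sum_apply,
          LinearMap.zero_apply, smul_eq_mul] at this ⊢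
        simp only [hMa, gfL_apply] at this ⊢
        exact this)
      funext q
      exact h5 q
    have hpos : S.Nonempty := by
      rw [Finset.nonempty_iff_ne_empty]
      intro h0
      rw [h0] at hcS
      exact hM0 i (by simpa using hcS.symm)
    obtain ⟨k, hk⟩ : ∃ k, S = {k} := by
      rw [← Finset.card_eq_one]
      exact le_antisymm hcard hpos.card_pos
    refine ⟨k, c k, ?_, ?_⟩
    · have : k ∈ S := by rw [hk]; exact Finset.mem_singleton_self k
      rw [hS] at this
      exact (Finset.mem_filter.mp this).2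
    · rw [← hcS, hk, Finset.sum_singleton]
  refine ⟨{j | a j ∈ V}, hJ, V, ?_, κ, inferInstance, e, hind, ?_⟩
  · symm
    apply Submodule.eq_of_le_of_finrank_le
    · refine Submodule.span_le.2 ?_
      rintro _ ⟨j, hj, rfl⟩
      exact hj
    · apply hmin
      refine hJ.mono ?_
      intro j hj
      exact Submodule.subset_span ⟨j, hj, rfl⟩
  · intro i
    obtain ⟨k, c, hc, hi⟩ := hone i
    refine ⟨k, c, hc, ?_⟩
    intro v hv
    have := LinearMap.congr_fun hi ⟨v, hv⟩
    simpa [hM] using this

theorem pencilG {L : Type} [Field L] [CharZero L] {Lb : Type} [Field Lb] [Algebra L Lb]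
    [IsAlgClosure L Lb] (F : IntermediateField L Lb) {I : Type} {m : ℕ} (lam : I → Fin m → Lb)
    (a : ℕ → Fin m → L)
    (hprop : ∀ i j, i ≠ j → ∀ c : Lb, (fun k => algebraMap L Lb (a i k)) ≠
      c • (fun k => algebraMap L Lb (a j k)))
    (hne : ∀ i j, ∑ k, lam i k * algebraMap L Lb (a j k) ≠ 0)
    (i1 : I) (hi1 : ∀ k, lam i1 k ∈ F)
    (hσ : ∀ (σ : Lb ≃ₐ[L] Lb) (i : I), ∃ i' : I, ∀ k, lam i' k = σ (lam i k))
    (hU : ∀ (r : ℕ), 2 ≤ r → ∀ (s : Fin r → I) (i0 : I) (c : Fin r → Lb), (∀ q, c q ≠ 0) →
      ∀ J : Set ℕ, J.Infinite →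
      (∀ j ∈ J, ∑ q, c q * ∑ k, lam (s q) k * algebraMap L Lb (a j k) =
        ∑ k, lam i0 k * algebraMap L Lb (a j k)) →
      ∃ b : Fin r → Lb, b ≠ 0 ∧ ∃ J' ⊆ J, J'.Infinite ∧
        ∀ j ∈ J', ∑ q, b q * ∑ k, lam (s q) k * algebraMap L Lb (a j k) = 0) :
    (∃ v : Fin m → Lb, v ≠ 0 ∧ (∀ k, v k ∈ F) ∧ ∀ i, ∑ k, lam i k * v k = 0) ∨
    ∃ v w : Fin m → Lb, (∀ k, v k ∈ F) ∧ (∀ k, w k ∈ F) ∧
      (∃ i, ∑ k, lam i k * v k ≠ 0) ∧ (∃ i, ∑ k, lam i k * w k ≠ 0) ∧
      ∀ i, (∑ k, lam i k * v k = 0 ∧ ∑ k, lam i k * w k ≠ 0) ∨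
        (∑ k, lam i k * v k ≠ 0 ∧ ∑ k, lam i k * w k = 0) := by
  classical
  set A : ℕ → Fin m → Lb := fun j k => algebraMap L Lb (a j k) with hA
  obtain ⟨J, hJ, V, hV, κ, _, e, hind, hone⟩ := gcore lam A hne hU
  have hAV : ∀ j ∈ J, A j ∈ V := by
    intro j hj
    rw [hV]
    exact Submodule.subset_span ⟨j, hj, rfl⟩
  have hAF : ∀ j k, A j k ∈ F := fun j k => F.algebraMap_mem _
  have hne' : ∀ i j, gfL (lam i) (A j) ≠ 0 := by
    intro i j
    rw [gfL_apply]
    exact hne i j
  have hlF : ∀ v : Fin m → Lb, (∀ k, v k ∈ F) → gfL (lam i1) v ∈ F := by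
    intro v hv
    rw [gfL_apply]
    exact sum_mem fun k _ => mul_mem (hi1 k) (hv k)
  obtain ⟨j0, hj0⟩ := hJ.nonempty
  obtain ⟨k1, c1, hc1, hk1⟩ := hone i1
  -- the vectors in the kernel of the form `i1`
  set u : ℕ → Fin m → Lb := fun j =>
    gfL (lam i1) (A j0) • A j - gfL (lam i1) (A j) • A j0 with hu
  have huF : ∀ j k, u j k ∈ F := by
    intro j k
    rw [hu]
    simp only [Pi.sub_apply, Pi.smul_apply, smul_eq_mul]
    exact sub_mem (mul_mem (hlF _ (hAF _)) (hAF _ _)) (mul_mem (hlF _ (hAF _)) (hAF _ _))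
  have huV : ∀ j ∈ J, u j ∈ V := fun j hj =>
    V.sub_mem (V.smul_mem _ (hAV j hj)) (V.smul_mem _ (hAV j0 hj0))
  have hui : ∀ j, gfL (lam i1) (u j) = 0 := by
    intro j
    rw [hu]
    simp only [map_sub, map_smul, smul_eq_mul]
    ring
  by_cases hκ : ∃ k2 : κ, k2 ≠ k1
  · right
    obtain ⟨k2, hk2⟩ := hκ
    have hsurj := gsurj _ hind
    have hpt : ∀ t : κ → Lb, ∃ x ∈ V, ∀ k, gfL (lam (e k)) x = t k := by
      intro t
      obtain ⟨x, hx⟩ := hsurj t
      exact ⟨x, x.2, fun k => congrFun hx k⟩
    have he0 : ∀ k, ∃ x ∈ V, gfL (lam (e k)) x ≠ 0 := fun k => ⟨A j0, hAV j0 hj0, hne' _ _⟩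
    have hc1' : ∀ x ∈ V, gfL (lam (e k1)) x = c1⁻¹ * gfL (lam i1) x := by
      intro x hx
      rw [hk1 x hx, inv_mul_cancel_left₀ hc1]
    -- `w`
    have hw : ∃ w ∈ V, (∀ k, w k ∈ F) ∧ gfL (lam i1) w = 0 ∧
        ∀ k, k ≠ k1 → gfL (lam (e k)) w ≠ 0 := by
      let W : Submodule F (Fin m → Lb) := Submodule.span F (u '' J)
      let p : κ → Submodule F W := fun k =>
        (LinearMap.ker ((gfL (lam (e k))).restrictScalars F)).comap W.subtype
      have hp : ∀ k, k ≠ k1 → p k ≠ ⊤ := by
        intro k hk htop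
        have h1 : ∀ j ∈ J, gfL (lam (e k)) (u j) = 0 := by
          intro j hj
          have h2 : (⟨u j, Submodule.subset_span ⟨j, hj, rfl⟩⟩ : W) ∈ p k := by
            rw [htop]
            trivial
          exact h2
        -- the form `e k` is a multiple of `i1` on `V`
        have h3 : ∀ x ∈ V, gfL (lam i1) (A j0) * gfL (lam (e k)) x =
            gfL (lam i1) x * gfL (lam (e k)) (A j0) := by
          intro x hx
          rw [hV] at hx
          induction hx using Submodule.span_induction with
          | mem x hx =>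
            obtain ⟨j, hj, rfl⟩ := hx
            have h4 := h1 j hj
            rw [hu] at h4
            simp only [map_sub, map_smul, smul_eq_mul] at h4
            exact sub_eq_zero.1 h4
          | zero => simp
          | add x y _ _ hx hy => rw [map_add, map_add, mul_add, add_mul, hx, hy]
          | smul c x _ hx =>
            rw [map_smul, map_smul, smul_eq_mul, smul_eq_mul]
            linear_combination c * hx
        obtain ⟨x, hx, hxt⟩ := hpt fun k' => if k' = k then 1 else 0
        have h5 := h3 x hx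
        rw [hxt, if_pos rfl, hk1 x hx, hxt, if_neg (Ne.symm hk), mul_zero, zero_mul, mul_one] at h5
        exact hne' _ _ h5
      have hcov := Subspace.biUnion_ne_univ_of_top_notMem (k := F)
        (s := (Finset.univ.filter fun k => k ≠ k1).image p) (by
          intro h
          obtain ⟨k, hk, hk'⟩ := Finset.mem_image.1 h
          exact hp k (Finset.mem_filter.1 hk).2 hk')
      obtain ⟨w, hw⟩ := (Set.ne_univ_iff_exists_notMem _).1 hcov
      have hWV : ∀ x ∈ W, x ∈ V ∧ (∀ k, x k ∈ F) ∧ gfL (lam i1) x = 0 := by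
        intro x hx
        induction hx using Submodule.span_induction with
        | mem x hx =>
          obtain ⟨j, hj, rfl⟩ := hx
          exact ⟨huV j hj, huF j, hui j⟩
        | zero => exact ⟨V.zero_mem, fun k => F.zero_mem, map_zero _⟩
        | add x y _ _ hx hy =>
          exact ⟨V.add_mem hx.1 hy.1, fun k => F.add_mem (hx.2.1 k) (hy.2.1 k), by
            rw [map_add, hx.2.2, hy.2.2, add_zero]⟩
        | smul c x _ hx =>
          refine ⟨V.smul_mem (c : Lb) hx.1, fun k => F.mul_mem c.2 (hx.2.1 k), ?_⟩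
          have h6 : c • x = (c : Lb) • x := rfl
          rw [h6, map_smul, hx.2.2, smul_zero]
      refine ⟨w, (hWV w w.2).1, (hWV w w.2).2.1, (hWV w w.2).2.2, ?_⟩
      intro k hk h7
      apply hw
      refine Set.mem_biUnion (x := p k) (Finset.mem_coe.2 (Finset.mem_image_of_mem p
        (Finset.mem_filter.2 ⟨Finset.mem_univ _, hk⟩))) ?_
      exact h7
    -- `v`
    have hsv : ∀ (σ : Lb ≃ₐ[L] Lb) (x : Fin m → Lb), x ∈ V → (fun k => σ (x k)) ∈ V := by
      intro σ x hx
      rw [hV] at hx
      induction hx using Submodule.span_induction with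
      | mem x hx =>
        obtain ⟨j, hj, rfl⟩ := hx
        have h8 : (fun k => σ (A j k)) = A j := by
          funext k
          exact σ.commutes _
        rw [h8]
        exact hAV j hj
      | zero =>
        have h8 : (fun k => σ ((0 : Fin m → Lb) k)) = 0 := by
          funext k
          exact map_zero σ
        rw [h8]
        exact V.zero_mem
      | add x y _ _ hx hy =>
        have h8 : (fun k => σ ((x + y) k)) = (fun k => σ (x k)) + fun k => σ (y k) := by
          funext k
          exact map_add σ _ _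
        rw [h8]
        exact V.add_mem hx hy
      | smul c x _ hx =>
        have h8 : (fun k => σ ((c • x) k)) = σ c • fun k => σ (x k) := by
          funext k
          exact map_mul σ _ _
        rw [h8]
        exact V.smul_mem _ hx
    have hgσ : ∀ (σ : Lb ≃ₐ[L] Lb) (l x : Fin m → Lb),
        gfL (fun k => σ (l k)) (fun k => σ (x k)) = σ (gfL l x) := by
      intro σ l x
      rw [gfL_apply, gfL_apply, map_sum]
      exact Finset.sum_congr rfl fun k _ => (map_mul σ _ _).symm
    let Q : Set (Fin m → Lb) := {x | x ∈ V ∧ gfL (lam i1) x = 1 ∧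
      ∀ k, k ≠ k1 → gfL (lam (e k)) x = 0}
    have hQne : Q.Nonempty := by
      obtain ⟨x, hx, hxt⟩ := hpt fun k => if k = k1 then c1⁻¹ else 0
      refine ⟨x, hx, ?_, ?_⟩
      · rw [hk1 x hx, hxt, if_pos rfl, mul_inv_cancel₀ hc1]
      · intro k hk
        rw [hxt, if_neg hk]
    have hQσ : ∀ (σ : Lb ≃ₐ[L] Lb), (∀ k, σ (lam i1 k) = lam i1 k) → ∀ x ∈ Q,
        (fun k => σ (x k)) ∈ Q := by
      intro σ hσ1 x hx
      obtain ⟨hxV, hx1, hx2⟩ := hx
      have h9 : gfL (lam i1) (fun k => σ (x k)) = 1 := by
        have h10 := hgσ σ (lam i1) x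
        rw [hx1, map_one] at h10
        have h11 : (fun k => σ (lam i1 k)) = lam i1 := funext hσ1
        rwa [h11] at h10
      refine ⟨hsv σ x hxV, h9, ?_⟩
      intro k hk
      obtain ⟨i', hi'⟩ := hσ σ.symm (e k)
      have h12 : (fun q => σ (lam i' q)) = lam (e k) := by
        funext q
        rw [hi']
        exact σ.apply_symm_apply _
      have h13 : ∀ y, gfL (lam (e k)) (fun q => σ (y q)) = σ (gfL (lam i') y) := by
        intro y
        rw [← h12]
        exact hgσ σ (lam i') y
      obtain ⟨k', c', hc', hk'⟩ := hone i'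
      by_cases h14 : k' = k1
      · exfalso
        subst h14
        obtain ⟨y, hy, hyt⟩ := hpt fun q => if q = k then 1 else 0
        have h15 : (fun q => σ (σ.symm (y q))) = y := funext fun q => σ.apply_symm_apply _
        have h16 := h13 fun q => σ.symm (y q)
        rw [h15, hyt, if_pos rfl] at h16
        have hyV' : (fun q => σ.symm (y q)) ∈ V := hsv σ.symm y hy
        rw [hk' _ hyV', hc1' _ hyV'] at h16
        have h17 := hgσ σ.symm (lam i1) y
        have h18 : (fun q => σ.symm (lam i1 q)) = lam i1 := by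
          funext q
          rw [← hσ1 q]
          rw [AlgEquiv.symm_apply_apply, hσ1 q]
        rw [h18, hk1 y hy, hyt, if_neg (Ne.symm hk), mul_zero, map_zero] at h17
        rw [h17, mul_zero, mul_zero, map_zero] at h16
        exact one_ne_zero h16
      · rw [h13, hk' x hxV, hx2 k' h14, mul_zero, map_zero]
    -- an element of `Q` with smallest support
    have hex : ∃ n : ℕ, ∃ x ∈ Q, (Finset.univ.filter fun k => x k ≠ 0).card = n := by
      obtain ⟨x, hx⟩ := hQne
      exact ⟨_, x, hx, rfl⟩
    obtain ⟨v, hvQ, hvn⟩ := Nat.find_spec hex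
    have hvmin : ∀ x ∈ Q, (Finset.univ.filter fun k => v k ≠ 0).card ≤
        (Finset.univ.filter fun k => x k ≠ 0).card := by
      intro x hx
      rw [hvn]
      exact Nat.find_min' hex ⟨x, hx, rfl⟩
    have hfix : ∀ σ : Lb ≃ₐ[L] Lb, (∀ k, σ (lam i1 k) = lam i1 k) → ∀ k, σ (v k) = v k := by
      intro σ hσ1 k
      by_contra hk
      have hQ' := hQσ σ hσ1 v hvQ
      set y : Fin m → Lb := fun q => v q - σ (v q) with hy
      have hyk : y k ≠ 0 := by
        rw [hy]
        exact sub_ne_zero.2 (Ne.symm hk)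
      have hyV : y ∈ V := V.sub_mem hvQ.1 hQ'.1
      have hye : y = v - fun q => σ (v q) := rfl
      have hvk : v k ≠ 0 := by
        intro h0
        apply hyk
        rw [hy]
        simp only [h0, map_zero, sub_zero]
      have hx : v - (v k / y k) • y ∈ Q := by
        refine ⟨V.sub_mem hvQ.1 (V.smul_mem _ hyV), ?_, ?_⟩
        · rw [map_sub, map_smul, hye, map_sub, hvQ.2.1, hQ'.2.1, sub_self, smul_zero, sub_zero]
        · intro q hq
          rw [map_sub, map_smul, hye, map_sub, hvQ.2.2 q hq, hQ'.2.2 q hq, sub_self, smul_zero,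
            sub_zero]
      have h19 := hvmin _ hx
      have h20 : (Finset.univ.filter fun q => (v - (v k / y k) • y) q ≠ 0) ⊂
          (Finset.univ.filter fun q => v q ≠ 0) := by
        rw [Finset.ssubset_iff_of_subset]
        · refine ⟨k, Finset.mem_filter.2 ⟨Finset.mem_univ _, hvk⟩, ?_⟩
          intro h21
          apply (Finset.mem_filter.1 h21).2
          simp only [Pi.sub_apply, Pi.smul_apply, smul_eq_mul]
          rw [div_mul_cancel₀ _ hyk, sub_self]
        · intro q hq
          rw [Finset.mem_filter] at hq ⊢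
          refine ⟨hq.1, fun h0 => hq.2 ?_⟩
          have h22 : y q = 0 := by
            rw [hy]
            simp only [h0, map_zero, sub_zero]
          simp only [Pi.sub_apply, Pi.smul_apply, smul_eq_mul, h0, h22, mul_zero, sub_zero]
      have h23 := Finset.card_lt_card h20
      omega
    have hvF : ∀ k, v k ∈ F := by
      intro k
      haveI : IsGalois F Lb := inferInstance
      have h24 : v k ∈ (⊥ : IntermediateField F Lb) := by
        rw [InfiniteGalois.mem_bot_iff_fixed]
        intro σ
        have h25 := hfix (σ.restrictScalars L) (fun q => σ.commutes ⟨lam i1 q, hi1 q⟩) k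
        exact h25
      obtain ⟨y, hy⟩ := IntermediateField.mem_bot.1 h24
      rw [← hy]
      exact y.2
    obtain ⟨w, hwV, hwF, hw1, hw2⟩ := hw
    refine ⟨v, w, hvF, hwF, ⟨i1, ?_⟩, ⟨e k2, ?_⟩, ?_⟩
    · rw [← gfL_apply, hvQ.2.1]
      exact one_ne_zero
    · rw [← gfL_apply]
      exact hw2 k2 hk2
    · intro i
      rw [← gfL_apply, ← gfL_apply]
      obtain ⟨k, c, hc, hi⟩ := hone i
      by_cases hk : k = k1
      · right
        subst hk
        rw [hi v hvQ.1, hi w hwV, hc1' v hvQ.1, hc1' w hwV, hvQ.2.1, hw1, mul_zero, mul_zero,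
          mul_one]
        exact ⟨mul_ne_zero hc (inv_ne_zero hc1), rfl⟩
      · left
        rw [hi v hvQ.1, hi w hwV, hvQ.2.2 k hk, mul_zero]
        exact ⟨rfl, mul_ne_zero hc (hw2 k hk)⟩
  · left
    push Not at hκ
    obtain ⟨j1, hj1, hj01⟩ := hJ.exists_notMem_finset {j0}
    have hj01' : j1 ≠ j0 := by simpa using hj01
    refine ⟨u j1, ?_, huF j1, ?_⟩
    · intro h0
      apply hprop j1 j0 hj01' ((gfL (lam i1) (A j0))⁻¹ * gfL (lam i1) (A j1))
      have h1 : gfL (lam i1) (A j0) • A j1 = gfL (lam i1) (A j1) • A j0 := sub_eq_zero.1 h0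
      show A j1 = _ • A j0
      rw [mul_smul, ← h1, smul_smul, inv_mul_cancel₀ (hne' _ _), one_smul]
    · intro i
      rw [← gfL_apply]
      obtain ⟨k, c, hc, hi⟩ := hone i
      rw [hi _ (huV j1 hj1), hκ k]
      have h2 := hk1 _ (huV j1 hj1)
      rw [hui] at h2
      rcases mul_eq_zero.1 h2.symm with h3 | h3
      · exact absurd h3 hc1
      · rw [h3, mul_zero]

end Pool.Agent.Work.MP_50269c_nt
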